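import Pool.Agent.H43.HY.Fz0

/-!
# [H12 HQ WIN] Windows of the primes minus the model, long range

`ℓ = log X`, `Y = M^3 + K`, `h = ⌊X ℓ^(-A2)⌋₊`. Compare `H43/HY/Lgv.lean` (`lgv_az`, `lgv_one`, `lgv`; private lemmas may be copied).
PROOF. The inner sum is empty unless `Y < x <= L + h`. If `Y + h <= x <= L` the window `(x-h,x]` is full: it is the sum of `fz` with `n := x' = x-h ∈ [Y, L]` and `H := h`. The other `x` (`< 2h`):
`|az Q n| <= 2Q` (`n >= 8`, `lgv_az`), inner sum `<= 2Qh`, together `<= 2h·4Q^2h^2 = 8Q^2h^3 <= Y h^2 ℓ^(-A)/2`, as `16 Q^2 h ℓ^A <= 16 X ℓ^(2B+A-A2) <= 128 Y ℓ^(2B+A-A2) <= Y` (`X <= 8M^3 <= 8Y`, `A2 >= A1 >= 2B+A+1`).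
Full windows: `N0 = Y/2` (real). `L <= (2M+1)^3 + K + X <= 9M^3 + K + 8M^3 <= 17Y <= 32Y`, so `[Y, L] ⊆ (⌊N0⌋, ⌊64 N0⌋]`, the union of the `(⌊N⌋, ⌊2N⌋]`, `N = N0 2^i`, `i = 0..5`.
`fz` with `(B+1, A+2, 1/100)` gives `A1'`, `X0'`. For `X` large: `X/16 <= N0 <= N <= 16Y <= 16M^3(1+ℓ^D) <= X^(8/5)` (`M^2 <= X`), so `ℓ/2 <= log N <= 2ℓ`; `Q <= ℓ^B <= (log N)^(B+1)`;
`N^(1/6+1/100) <= X^(3/10) <= h` (`h >= Xℓ^(-A2) - 1`); `h <= Xℓ^(-A2) <= (X/16) (2ℓ)^(-A1') <= N (log N)^(-A1')` if `A2 >= A1 >= A1'+1`. So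
`Σ_{x'} (..)^2 <= Σ_i N0 2^i h^2 (ℓ/2)^(-A-2) <= 32 Y h^2 2^(A+2) ℓ^(-A-2) <= Y h^2 ℓ^(-A)/2`. `A1 = max (2B+A+1) (A1'+1)`; `X0` depends on `A2`.
-/

namespace Pool.Agent.H12.HQ

open Finset Pool.Agent.H43

/-- sum of `az` over a full window in a residue class -/
private noncomputable def winF (Q q c h x : ℕ) : ℝ :=
  ∑ n ∈ (Ioc x (x + h)).filter (fun n => n % q = c), HY.az Q n

/-- sum of `az` over a window which is cut off -/
private noncomputable def winG (Q q c h Z L x : ℕ) : ℝ :=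
  ∑ n ∈ (Ioc (x - h) x).filter (fun n => Z < n ∧ n ≤ L ∧ n % q = c), HY.az Q n

private theorem win_good (Q q c h Z L x : ℕ) (h1 : Z + h ≤ x) (h2 : x ≤ L) :
    winG Q q c h Z L x = winF Q q c h (x - h) := by
  unfold winG winF
  have h3 : x - h + h = x := by omega
  rw [h3]
  refine sum_congr ?_ fun _ _ => rfl
  ext n
  simp only [mem_filter, mem_Ioc]
  omega

private theorem win_zero (Q q c h Z L x : ℕ) (h1 : x ≤ Z) : winG Q q c h Z L x = 0 := by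
  unfold winG
  refine sum_eq_zero fun n hn => ?_
  rw [mem_filter, mem_Ioc] at hn
  omega

private theorem win_az (Q n : ℕ) (hQ : 1 ≤ Q) (hn : 8 ≤ n) : |HY.az Q n| ≤ 2 * Q := by
  have hn' : (8 : ℝ) ≤ n := by exact_mod_cast hn
  have hlog : 1 ≤ Real.log n := by
    rw [Real.le_log_iff_exp_le (by linarith)]
    have := Real.exp_one_lt_d9
    linarith
  have hil : |HY.il n| ≤ 1 := by
    unfold HY.il
    rw [abs_of_nonneg (by positivity), div_le_one (by linarith)]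
    exact hlog
  have hpr : |HY.pr n| ≤ 1 := by
    unfold HY.pr
    split_ifs <;> simp
  have hlq : |TP.lq Q n| ≤ Q := by
    unfold TP.lq
    refine (abs_sum_le_sum_abs _ _).trans ?_
    have h1 : ∀ r ∈ Icc 1 Q, |((ArithmeticFunction.moebius r : ℤ) : ℝ) / (r.totient : ℝ) *
        (TP.crd r n : ℝ)| ≤ 1 := by
      intro r hr
      have hr1 := (mem_Icc.1 hr).1
      have ht : (0 : ℝ) < r.totient := by exact_mod_cast Nat.totient_pos.2 hr1
      rw [abs_mul, abs_div, abs_of_pos ht]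
      have h2 : |((ArithmeticFunction.moebius r : ℤ) : ℝ)| ≤ 1 := by
        rw [← Int.cast_abs]
        exact_mod_cast ArithmeticFunction.abs_moebius_le_one (n := r)
      calc |((ArithmeticFunction.moebius r : ℤ) : ℝ)| / (r.totient : ℝ) * |(TP.crd r n : ℝ)|
          ≤ 1 / (r.totient : ℝ) * r.totient := by
            apply mul_le_mul _ (TP.ram_abs r n hr1) (abs_nonneg _) (by positivity)
            exact div_le_div_of_nonneg_right h2 ht.le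
        _ = 1 := by field_simp
    refine (sum_le_card_nsmul _ _ _ h1).trans ?_
    rw [Nat.card_Icc, nsmul_eq_mul, Nat.add_sub_cancel, mul_one]
  have hQ' : (1 : ℝ) ≤ Q := by exact_mod_cast hQ
  unfold HY.az
  calc |HY.pr n - HY.il n * TP.lq Q n| ≤ |HY.pr n| + |HY.il n * TP.lq Q n| := abs_sub _ _
    _ ≤ 1 + 1 * Q := by
        rw [abs_mul]
        exact add_le_add hpr (mul_le_mul hil hlq (abs_nonneg _) (by norm_num))
    _ ≤ 2 * Q := by linarith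

private theorem win_bad (Q q c h Z L x : ℕ) (hQ : 1 ≤ Q) (hZ : 7 ≤ Z) :
    winG Q q c h Z L x ^ 2 ≤ 4 * (Q : ℝ) ^ 2 * (h : ℝ) ^ 2 := by
  have h1 : |winG Q q c h Z L x| ≤ 2 * Q * h := by
    unfold winG
    refine (abs_sum_le_sum_abs _ _).trans ?_
    have h2 : ∀ n ∈ (Ioc (x - h) x).filter
        (fun n => Z < n ∧ n ≤ L ∧ n % q = c), |HY.az Q n| ≤ 2 * Q := by
      intro n hn
      rw [mem_filter] at hn
      exact win_az Q n hQ (by omega)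
    refine (sum_le_card_nsmul _ _ _ h2).trans ?_
    rw [nsmul_eq_mul]
    have h4 : ((Ioc (x - h) x).filter
        (fun n => Z < n ∧ n ≤ L ∧ n % q = c)).card ≤ h := by
      refine (card_filter_le _ _).trans ?_
      rw [Nat.card_Ioc]
      omega
    have h5 : ((((Ioc (x - h) x).filter
        (fun n => Z < n ∧ n ≤ L ∧ n % q = c)).card : ℕ) : ℝ) ≤ h := by
      exact_mod_cast h4
    nlinarith [Nat.cast_nonneg (α := ℝ) Q]
  have h6 : winG Q q c h Z L x ^ 2 ≤ (2 * Q * h) ^ 2 := by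
    rw [← sq_abs]
    exact pow_le_pow_left₀ (abs_nonneg _) h1 2
  calc _ ≤ _ := h6
    _ = _ := by ring

private theorem win_one (Q q c h Z L : ℕ) (hQ : 1 ≤ Q) (hZ : 7 ≤ Z) :
    ∑ x ∈ Icc 1 (L + h), winG Q q c h Z L x ^ 2 ≤
      ∑ x ∈ Icc Z L, winF Q q c h x ^ 2 + 8 * (Q : ℝ) ^ 2 * (h : ℝ) ^ 3 := by
  rw [← sum_filter_add_sum_filter_not _ (fun x => Z + h ≤ x ∧ x ≤ L)]
  apply add_le_add
  · have h1 : ∑ x ∈ (Icc 1 (L + h)).filter
        (fun x => Z + h ≤ x ∧ x ≤ L), winG Q q c h Z L x ^ 2 =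
        ∑ x ∈ ((Icc 1 (L + h)).filter
        (fun x => Z + h ≤ x ∧ x ≤ L)).image (fun x => x - h),
          winF Q q c h x ^ 2 := by
      rw [sum_image]
      · refine sum_congr rfl fun x hx => ?_
        rw [mem_filter] at hx
        rw [win_good Q q c h Z L x hx.2.1 hx.2.2]
      · intro x hx y hy hxy
        have hx' := (mem_filter.1 (mem_coe.1 hx)).2
        have hy' := (mem_filter.1 (mem_coe.1 hy)).2
        simp only at hxy
        omega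
    rw [h1]
    refine sum_le_sum_of_subset_of_nonneg ?_ fun _ _ _ => sq_nonneg _
    intro y hy
    rw [mem_image] at hy
    obtain ⟨x, hx, rfl⟩ := hy
    rw [mem_filter] at hx
    rw [mem_Icc]
    omega
  · obtain ⟨S, hS⟩ : ∃ S : Finset ℕ, S = (Icc 1 (L + h)).filter
        (fun x => ¬ (Z + h ≤ x ∧ x ≤ L)) := ⟨_, rfl⟩
    rw [← hS]
    have h0 : ∑ x ∈ S, winG Q q c h Z L x ^ 2 = ∑ x ∈ S.filter (fun x => Z < x),
        winG Q q c h Z L x ^ 2 := by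
      rw [sum_filter]
      refine sum_congr rfl fun x _ => ?_
      split_ifs with hx
      · rfl
      · rw [win_zero Q q c h Z L x (by omega)]
        ring
    rw [h0]
    have h2 : ∀ x ∈ S.filter (fun x => Z < x),
        winG Q q c h Z L x ^ 2 ≤ 4 * (Q : ℝ) ^ 2 * (h : ℝ) ^ 2 :=
      fun x _ => win_bad Q q c h Z L x hQ hZ
    refine (sum_le_card_nsmul _ _ _ h2).trans ?_
    rw [nsmul_eq_mul]
    have h3 : (S.filter (fun x => Z < x)).card ≤ 2 * h := by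
      have h4 : S.filter (fun x => Z < x) ⊆ Ico Z (Z + h) ∪ Ioc L (L + h) := by
        intro x hx
        rw [mem_filter, hS, mem_filter, mem_Icc] at hx
        rw [mem_union, mem_Ico, mem_Ioc]
        omega
      refine (card_le_card h4).trans ((card_union_le _ _).trans ?_)
      rw [Nat.card_Ico, Nat.card_Ioc]
      omega
    have h5 : ((S.filter (fun x => Z < x)).card : ℝ) ≤ 2 * h := by
      exact_mod_cast h3
    calc _ ≤ (2 * h) * (4 * (Q : ℝ) ^ 2 * (h : ℝ) ^ 2) :=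
          mul_le_mul_of_nonneg_right h5 (by positivity)
      _ = _ := by ring

/-- dyadic decomposition -/
private theorem win_dya (N : ℝ) (hN : 0 ≤ N) (f : ℕ → ℝ) (k : ℕ) :
    ∑ x ∈ Ioc ⌊N⌋₊ ⌊2 ^ k * N⌋₊, f x =
      ∑ i ∈ range k, ∑ x ∈ Ioc ⌊2 ^ i * N⌋₊ ⌊2 * (2 ^ i * N)⌋₊, f x := by
  induction k with
  | zero => simp
  | succ k ih =>
    rw [sum_range_succ, ← ih]
    have h1 : ⌊N⌋₊ ≤ ⌊2 ^ k * N⌋₊ := by
      apply Nat.floor_le_floor
      have : (1 : ℝ) ≤ 2 ^ k := one_le_pow₀ (by norm_num)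
      nlinarith
    have h2 : ⌊2 ^ k * N⌋₊ ≤ ⌊2 * (2 ^ k * N)⌋₊ := by
      apply Nat.floor_le_floor
      have : (0 : ℝ) ≤ 2 ^ k * N := by positivity
      linarith
    have h3 : (2 : ℝ) ^ (k + 1) * N = 2 * (2 ^ k * N) := by ring
    rw [h3]
    exact (sum_Ioc_consecutive f h1 h2).symm

/-- powers of the logarithm -/
private theorem win_ev (D c C : ℝ) (hc : 0 < c) (hC : 0 < C) :
    ∀ᶠ X : ℕ in Filter.atTop, C * (Real.log X) ^ D ≤ (X : ℝ) ^ c := by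
  have h := (isLittleO_log_rpow_rpow_atTop D hc).comp_tendsto (tendsto_natCast_atTop_atTop (R := ℝ))
  have h1 := h.bound (c := 1 / C) (by positivity)
  filter_upwards [h1] with X hX
  simp only [Function.comp_apply, Real.norm_eq_abs] at hX
  have h2 : |(X : ℝ) ^ c| = (X : ℝ) ^ c := abs_of_nonneg (Real.rpow_nonneg (Nat.cast_nonneg _) _)
  rw [h2] at hX
  have h3 := (le_abs_self _).trans hX
  have h4 := mul_le_mul_of_nonneg_left h3 hC.le
  have h5 : C * (1 / C * (X : ℝ) ^ c) = (X : ℝ) ^ c := by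
    field_simp
  rw [h5] at h4
  exact h4

theorem win (hfzs : HY.FzS) (B A D : ℝ) (hB : 0 < B) (hA : 0 < A) (hD : 0 ≤ D) :
    ∃ A1 : ℝ, 0 < A1 ∧ ∀ A2 : ℝ, A1 ≤ A2 → ∃ X0 : ℕ, 10 ≤ X0 ∧ ∀ X : ℕ, X0 ≤ X →
    ∀ M K L Q q c h : ℕ, X ≤ 8 * M ^ 3 → M ^ 2 ≤ X → (K : ℝ) ≤ (M : ℝ) ^ 3 * (Real.log X) ^ D →
    L ≤ (2 * M + 1) ^ 3 + K + X → (Q : ℝ) ≤ (Real.log X) ^ B → 1 ≤ q → q ≤ Q → c < q →
    h = ⌊(X : ℝ) * (Real.log X) ^ (-A2)⌋₊ →
    ∑ x ∈ Icc 1 (L + h), (∑ n ∈ (Ioc (x - h) x).filter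
      (fun n => M ^ 3 + K < n ∧ n ≤ L ∧ n % q = c), HY.az Q n) ^ 2 ≤
      ((M ^ 3 + K : ℕ) : ℝ) * (h : ℝ) ^ 2 * (Real.log X) ^ (-A) := by
  obtain ⟨A1', X0', hA1', hX0', hfz⟩ := hfzs (B + 1) (A + 2) (1 / 100) (by linarith) (by linarith)
    (by norm_num)
  refine ⟨A1' + 2 * B + A + 2, by positivity, fun A2 hA2 => ?_⟩
  have hKpos : ∀ K : ℝ, ∀ᶠ X : ℕ in Filter.atTop, K ≤ Real.log X := fun K =>
    (Real.tendsto_log_atTop.comp tendsto_natCast_atTop_atTop).eventually_ge_atTop K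
  have hX16 : ∀ᶠ X : ℕ in Filter.atTop, 16 * X0' ≤ (X : ℝ) :=
    tendsto_natCast_atTop_atTop.eventually_ge_atTop (16 * X0')
  obtain ⟨X0, hX0⟩ := Filter.eventually_atTop.1 ((((hKpos (2 * Real.log 16 + 2 ^ (B + 1) +
    16 * 2 ^ A1' + 63 * 2 ^ (A + 2) + 128)).and hX16).and (win_ev D (1 / 10) 32 (by norm_num)
      (by norm_num))).and (win_ev A2 (7 / 10) 2 (by norm_num) (by norm_num)))
  refine ⟨max X0 64, (by norm_num : 10 ≤ 64).trans (le_max_right _ _), ?_⟩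
  intro X hX M K L Q q c h hX8 hMX hK hL hQ hq hqQ hc hh
  obtain ⟨⟨⟨hlog, hX16'⟩, hevD⟩, hevA⟩ := hX0 X ((le_max_left _ _).trans hX)
  have hX64 : 64 ≤ X := (le_max_right _ _).trans hX
  set l : ℝ := Real.log X with hl
  have hp1 : (0 : ℝ) < 2 ^ (B + 1) := by positivity
  have hp2 : (0 : ℝ) < 2 ^ A1' := by positivity
  have hp3 : (0 : ℝ) < 2 ^ (A + 2) := by positivity
  have hp4 : (0 : ℝ) < Real.log 16 := Real.log_pos (by norm_num)
  have hl128 : 128 ≤ l := by linarith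
  have hl0 : 0 < l := by linarith
  have hl1 : 1 ≤ l := by linarith
  have hM2 : 2 ≤ M := by
    by_contra hM
    have h1 : M ≤ 1 := by omega
    have h2 : M ^ 3 ≤ 1 ^ 3 := Nat.pow_le_pow_left h1 3
    omega
  have hM3 : 8 ≤ M ^ 3 := by
    have h2 : 2 ^ 3 ≤ M ^ 3 := Nat.pow_le_pow_left hM2 3
    omega
  have hQ1 : 1 ≤ Q := hq.trans hqQ
  have hXR : (64 : ℝ) ≤ X := by exact_mod_cast hX64
  have hXpos : (0 : ℝ) < X := by linarith
  have hX8R : (X : ℝ) ≤ 8 * (M : ℝ) ^ 3 := by exact_mod_cast hX8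
  have hMXR : (M : ℝ) ^ 2 ≤ X := by exact_mod_cast hMX
  have hM0 : (0 : ℝ) < M := by
    have : 0 < M := by omega
    exact_mod_cast this
  obtain ⟨Z, hZ⟩ : ∃ Z : ℕ, Z = M ^ 3 + K := ⟨_, rfl⟩
  rw [← hZ]
  obtain ⟨Y, hY⟩ : ∃ Y : ℝ, Y = ((Z : ℕ) : ℝ) := ⟨_, rfl⟩
  have hYe : Y = (M : ℝ) ^ 3 + K := by
    rw [hY, hZ]
    push_cast
    ring
  rw [← hY]
  have hK0 : (0 : ℝ) ≤ K := Nat.cast_nonneg _
  have hM30 : (0 : ℝ) < (M : ℝ) ^ 3 := by positivity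
  have hY0 : 0 < Y := by
    rw [hYe]
    linarith
  have hXY : (X : ℝ) ≤ 8 * Y := by
    rw [hYe]
    linarith
  have hL32 : (L : ℝ) ≤ 32 * Y := by
    have h1 : (2 * M + 1) ^ 3 ≤ 16 * M ^ 3 := by
      have h2 : 2 * M + 1 ≤ 5 * M / 2 := by omega
      have h3 : (2 * (2 * M + 1)) ^ 3 ≤ (5 * M) ^ 3 := Nat.pow_le_pow_left (by omega) 3
      have h4 : (2 * (2 * M + 1)) ^ 3 = 8 * (2 * M + 1) ^ 3 := by ring
      have h5 : (5 * M) ^ 3 = 125 * M ^ 3 := by ring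
      omega
    have h6 : L ≤ 32 * Z := by
      rw [hZ]
      omega
    rw [hY]
    exact_mod_cast h6
  have hh0 : (0 : ℝ) ≤ h := Nat.cast_nonneg _
  have hhX : (h : ℝ) ≤ X * l ^ (-A2) := by
    rw [hh]
    exact Nat.floor_le (mul_nonneg hXpos.le (Real.rpow_nonneg hl0.le _))
  -- the size of `Y`
  have hYup : 16 * Y ≤ (X : ℝ) ^ ((8 : ℝ) / 5) := by
    have h1 : (M : ℝ) ^ 3 ≤ (X : ℝ) ^ ((3 : ℝ) / 2) := by
      have h2 : (M : ℝ) ≤ (X : ℝ) ^ ((1 : ℝ) / 2) := by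
        rw [← Real.sqrt_eq_rpow]
        exact Real.le_sqrt_of_sq_le hMXR
      calc (M : ℝ) ^ 3 ≤ ((X : ℝ) ^ ((1 : ℝ) / 2)) ^ 3 := pow_le_pow_left₀ hM0.le h2 3
        _ = (X : ℝ) ^ ((3 : ℝ) / 2) := by
            rw [← Real.rpow_natCast, ← Real.rpow_mul hXpos.le]
            norm_num
    have h3 : (1 : ℝ) ≤ l ^ D := Real.one_le_rpow hl1 hD
    have h4 : Y ≤ (X : ℝ) ^ ((3 : ℝ) / 2) * (2 * l ^ D) := by
      rw [hYe]
      calc (M : ℝ) ^ 3 + K ≤ (M : ℝ) ^ 3 + (M : ℝ) ^ 3 * l ^ D := by linarith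
        _ = (M : ℝ) ^ 3 * (1 + l ^ D) := by ring
        _ ≤ (X : ℝ) ^ ((3 : ℝ) / 2) * (2 * l ^ D) :=
            mul_le_mul h1 (by linarith) (by linarith) (Real.rpow_nonneg hXpos.le _)
    calc 16 * Y ≤ (X : ℝ) ^ ((3 : ℝ) / 2) * (32 * l ^ D) := by linarith
      _ ≤ (X : ℝ) ^ ((3 : ℝ) / 2) * (X : ℝ) ^ ((1 : ℝ) / 10) :=
          mul_le_mul_of_nonneg_left hevD (Real.rpow_nonneg hXpos.le _)
      _ = (X : ℝ) ^ ((8 : ℝ) / 5) := by
          rw [← Real.rpow_add hXpos]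
          norm_num
  have hhlow : (X : ℝ) ^ ((3 : ℝ) / 10) ≤ h := by
    have h1 : (X : ℝ) * l ^ (-A2) - 1 ≤ h := by
      rw [hh]
      exact (Nat.sub_one_lt_floor _).le
    have h2 : 2 * (X : ℝ) ^ ((3 : ℝ) / 10) ≤ X * l ^ (-A2) := by
      rw [Real.rpow_neg hl0.le, ← div_eq_mul_inv, le_div_iff₀ (Real.rpow_pos_of_pos hl0 _)]
      calc 2 * (X : ℝ) ^ ((3 : ℝ) / 10) * l ^ A2 = (X : ℝ) ^ ((3 : ℝ) / 10) * (2 * l ^ A2) := by ring
        _ ≤ (X : ℝ) ^ ((3 : ℝ) / 10) * (X : ℝ) ^ ((7 : ℝ) / 10) :=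
            mul_le_mul_of_nonneg_left hevA (Real.rpow_nonneg hXpos.le _)
        _ = X := by
            rw [← Real.rpow_add hXpos]
            norm_num
    have h3 : (1 : ℝ) ≤ (X : ℝ) ^ ((3 : ℝ) / 10) :=
      Real.one_le_rpow (by linarith) (by norm_num)
    linarith
  -- step 1
  have s1 : ∑ x ∈ Icc 1 (L + h), winG Q q c h Z L x ^ 2 ≤
      ∑ x ∈ Icc Z L, winF Q q c h x ^ 2 + 8 * (Q : ℝ) ^ 2 * (h : ℝ) ^ 3 :=
    win_one Q q c h Z L hQ1 (by omega)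
  -- the dyadic ranges
  have s3 : ∀ i ∈ range 6, ∑ x ∈ Ioc ⌊2 ^ i * (Y / 2)⌋₊ ⌊2 * (2 ^ i * (Y / 2))⌋₊,
      winF Q q c h x ^ 2 ≤ (2 ^ i * (Y / 2)) * (h : ℝ) ^ 2 * (l / 2) ^ (-(A + 2)) := by
    intro i hi
    have hi5 : i ≤ 5 := by
      have := mem_range.1 hi
      omega
    set N : ℝ := 2 ^ i * (Y / 2) with hN
    have hi1 : (1 : ℝ) ≤ 2 ^ i := one_le_pow₀ (by norm_num)
    have hi2 : (2 : ℝ) ^ i ≤ 2 ^ 5 := pow_le_pow_right₀ (by norm_num) hi5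
    have hN1 : Y / 2 ≤ N := by
      rw [hN]
      nlinarith
    have hN2 : N ≤ 16 * Y := by
      rw [hN]
      nlinarith
    have hN0 : 0 < N := by positivity
    have hNX : (X : ℝ) / 16 ≤ N := by linarith
    have hNup : N ≤ (X : ℝ) ^ ((8 : ℝ) / 5) := hN2.trans hYup
    have hlN1 : l / 2 ≤ Real.log N := by
      have h7 := Real.log_le_log (by positivity) hNX
      rw [Real.log_div hXpos.ne' (by norm_num), ← hl] at h7
      linarith
    have hlN2 : Real.log N ≤ 2 * l := by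
      have h7 := Real.log_le_log hN0 hNup
      rw [Real.log_rpow hXpos, ← hl] at h7
      linarith
    have hlN0 : 0 < Real.log N := by linarith
    have c1 : X0' ≤ N := by linarith
    have c2 : (Q : ℝ) ≤ (Real.log N) ^ (B + 1) := by
      calc (Q : ℝ) ≤ l ^ B := hQ
        _ ≤ (l / 2) ^ (B + 1) := by
            rw [Real.div_rpow hl0.le (by norm_num), Real.rpow_add hl0, Real.rpow_one,
              le_div_iff₀ hp1]
            exact mul_le_mul_of_nonneg_left (by linarith) (Real.rpow_nonneg hl0.le _)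
        _ ≤ _ := Real.rpow_le_rpow (by positivity) hlN1 (by linarith)
    have c3 : N ^ ((1 : ℝ) / 6 + 1 / 100) ≤ h := by
      refine le_trans ?_ hhlow
      calc N ^ ((1 : ℝ) / 6 + 1 / 100) ≤ ((X : ℝ) ^ ((8 : ℝ) / 5)) ^ ((1 : ℝ) / 6 + 1 / 100) :=
            Real.rpow_le_rpow hN0.le hNup (by norm_num)
        _ = (X : ℝ) ^ ((8 : ℝ) / 5 * ((1 : ℝ) / 6 + 1 / 100)) := (Real.rpow_mul hXpos.le _ _).symm
        _ ≤ (X : ℝ) ^ ((3 : ℝ) / 10) :=
            Real.rpow_le_rpow_of_exponent_le (by linarith) (by norm_num)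
    have c4 : (h : ℝ) ≤ N * (Real.log N) ^ (-A1') := by
      have h1 : l ^ (-A2) ≤ l ^ (-(A1' + 1)) :=
        Real.rpow_le_rpow_of_exponent_le hl1 (by linarith)
      have h2 : 16 * l ^ (-(A1' + 1)) ≤ (2 * l) ^ (-A1') := by
        rw [Real.mul_rpow (by norm_num) hl0.le, Real.rpow_neg (by norm_num : (0 : ℝ) ≤ 2),
          neg_add, Real.rpow_add hl0, Real.rpow_neg_one]
        have h21 : (16 : ℝ) * l⁻¹ ≤ (2 ^ A1')⁻¹ := by
          rw [← div_eq_mul_inv, div_le_iff₀ hl0, ← div_eq_inv_mul, le_div_iff₀ hp2]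
          linarith
        calc 16 * (l ^ (-A1') * l⁻¹) = (16 * l⁻¹) * l ^ (-A1') := by ring
          _ ≤ _ := mul_le_mul_of_nonneg_right h21 (Real.rpow_nonneg hl0.le _)
      have h3 : (2 * l) ^ (-A1') ≤ (Real.log N) ^ (-A1') := by
        rw [Real.rpow_neg (by positivity), Real.rpow_neg hlN0.le]
        exact inv_anti₀ (Real.rpow_pos_of_pos hlN0 _) (Real.rpow_le_rpow hlN0.le hlN2 hA1'.le)
      have h4 : 0 ≤ l ^ (-A2) := Real.rpow_nonneg hl0.le _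
      calc (h : ℝ) ≤ X * l ^ (-A2) := hhX
        _ ≤ (16 * N) * l ^ (-A2) := mul_le_mul_of_nonneg_right (by linarith) h4
        _ = N * (16 * l ^ (-A2)) := by ring
        _ ≤ N * (Real.log N) ^ (-A1') := by
            refine mul_le_mul_of_nonneg_left ?_ hN0.le
            linarith
    have h6 := hfz N c1 Q q c c2 hq hqQ hc h c3 c4
    refine le_trans h6 ?_
    refine mul_le_mul_of_nonneg_left ?_ (by positivity)
    rw [Real.rpow_neg hlN0.le, Real.rpow_neg (by positivity)]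
    exact inv_anti₀ (Real.rpow_pos_of_pos (by positivity) _)
      (Real.rpow_le_rpow (by positivity) hlN1 (by linarith))
  have s4 : ∑ x ∈ Icc Z L, winF Q q c h x ^ 2 ≤
      63 * (Y / 2) * (h : ℝ) ^ 2 * (l / 2) ^ (-(A + 2)) := by
    have h1 : Icc Z L ⊆ Ioc ⌊Y / 2⌋₊ ⌊2 ^ 6 * (Y / 2)⌋₊ := by
      intro x hx
      rw [mem_Icc] at hx
      rw [mem_Ioc]
      constructor
      · rw [Nat.floor_lt (by positivity)]
        have h2 : Y ≤ x := by
          rw [hY]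
          exact_mod_cast hx.1
        linarith
      · apply Nat.le_floor
        have h2 : (x : ℝ) ≤ L := by exact_mod_cast hx.2
        linarith
    refine (sum_le_sum_of_subset_of_nonneg h1 fun _ _ _ => sq_nonneg _).trans ?_
    rw [win_dya _ (by positivity)]
    refine (sum_le_sum s3).trans ?_
    rw [← sum_mul, ← sum_mul, ← sum_mul]
    have h2 : ∑ i ∈ range 6, (2 : ℝ) ^ i = 63 := by
      simp only [sum_range_succ, sum_range_zero]
      norm_num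
    rw [h2]
  -- conclusion
  have e1 : (l / 2) ^ (-(A + 2)) = 2 ^ (A + 2) * (l ^ (-A) * (l ^ 2)⁻¹) := by
    rw [Real.div_rpow hl0.le (by norm_num), Real.rpow_neg (by norm_num : (0 : ℝ) ≤ 2), neg_add,
      Real.rpow_add hl0, Real.rpow_neg hl0.le 2]
    have : l ^ (2 : ℝ) = l ^ 2 := by
      rw [← Real.rpow_natCast]
      norm_num
    rw [this]
    field_simp
  have e2 : 63 * (Y / 2) * (h : ℝ) ^ 2 * (l / 2) ^ (-(A + 2)) ≤
      Y * (h : ℝ) ^ 2 * l ^ (-A) / 2 := by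
    rw [e1]
    have h1 : 63 * 2 ^ (A + 2) ≤ l ^ 2 := by nlinarith
    have h2 : 63 * 2 ^ (A + 2) * (l ^ 2)⁻¹ ≤ 1 := by
      rw [← div_eq_mul_inv, div_le_one (by positivity)]
      exact h1
    calc _ = (Y * (h : ℝ) ^ 2 * l ^ (-A) / 2) *
          (63 * 2 ^ (A + 2) * (l ^ 2)⁻¹) := by ring
      _ ≤ (Y * (h : ℝ) ^ 2 * l ^ (-A) / 2) * 1 := by
          refine mul_le_mul_of_nonneg_left h2 ?_
          have := Real.rpow_nonneg hl0.le (-A)
          positivity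
      _ = _ := mul_one _
  have e3 : 8 * (Q : ℝ) ^ 2 * (h : ℝ) ^ 3 ≤ Y * (h : ℝ) ^ 2 * l ^ (-A) / 2 := by
    have h1 : (Q : ℝ) ^ 2 ≤ l ^ (2 * B) := by
      calc (Q : ℝ) ^ 2 ≤ (l ^ B) ^ 2 := pow_le_pow_left₀ (by positivity) hQ 2
        _ = l ^ (2 * B) := by
            rw [← Real.rpow_natCast (l ^ B) 2, ← Real.rpow_mul hl0.le]
            congr 1
            push_cast
            ring
    have h2 : (h : ℝ) ≤ 8 * Y * l ^ (-A2) :=
      hhX.trans (mul_le_mul_of_nonneg_right hXY (Real.rpow_nonneg hl0.le _))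
    have h3 : l ^ (-A2) * l ^ (2 * B) ≤ l ^ (-A) * 128⁻¹ := by
      rw [← Real.rpow_add hl0]
      calc l ^ (-A2 + 2 * B) ≤ l ^ (-A + (-1)) :=
            Real.rpow_le_rpow_of_exponent_le hl1 (by linarith)
        _ = l ^ (-A) * l⁻¹ := by rw [Real.rpow_add hl0, Real.rpow_neg_one]
        _ ≤ _ := mul_le_mul_of_nonneg_left (inv_anti₀ (by norm_num) hl128)
            (Real.rpow_nonneg hl0.le _)
    calc 8 * (Q : ℝ) ^ 2 * (h : ℝ) ^ 3 = (8 * (h : ℝ) ^ 2) * ((h : ℝ) * (Q : ℝ) ^ 2) := by ring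
      _ ≤ (8 * (h : ℝ) ^ 2) * ((8 * Y * l ^ (-A2)) * l ^ (2 * B)) :=
          mul_le_mul_of_nonneg_left (mul_le_mul h2 h1 (by positivity)
            (mul_nonneg (by positivity) (Real.rpow_nonneg hl0.le _))) (by positivity)
      _ = (64 * Y * (h : ℝ) ^ 2) * (l ^ (-A2) * l ^ (2 * B)) := by ring
      _ ≤ (64 * Y * (h : ℝ) ^ 2) * (l ^ (-A) * 128⁻¹) :=
          mul_le_mul_of_nonneg_left h3 (by positivity)
      _ = _ := by ring
  have s5 := s1.trans (add_le_add s4 le_rfl)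
  change ∑ x ∈ Icc 1 (L + h), winG Q q c h Z L x ^ 2 ≤ Y * (h : ℝ) ^ 2 * l ^ (-A)
  linarith

end Pool.Agent.H12.HQ
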