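import Pool.Agent.H12.HQ.Cor
import Pool.Agent.H12.HQ.Win
import Pool.Agent.H12.HQ.L2s

/-!
# [H12 HQ LGN] Dyadic ranges `(M, M']`, `X <= 8M^3`, `M^2 (log X)^(6k0+1) <= X`, `k ∈ (K, K+X]`, `K <= M^3 (log X)^D`

PROOF. `ℓ = log X`, `δ = ℓ^(-2k0)` (natural power, `= (ℓ^(2k0))⁻¹`), `L = M'^3 + K + X`, `Y = M^3+K`, `a n = az Q n` if `Y < n`, and `0` otherwise (complex). For `m ∈ Ioc M M'`, `k ∈ Ioc K (K+X)`: `m^3 + k > Y`, so
`Σ_m a (m^3+k)` is the sum of the theorem (`‖(x : ℂ)‖^2 = x^2`).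
`win` with `(B, A, D) := (25 k0, A3, D)`, `A3 = 100 k0 + D + A + 3`; `A2 = max A1 (25 k0 + 1)`, `h = ⌊X ℓ^(-A2)⌋₊ >= 1`. `V = Y h^2 ℓ^(-A3)`; the window sum of `a` over `n <= L, n % q = c` is the sum in `win` (real part; `a n = 0` for `n <= Y`).
`cor`: `2^64/δ^12 = 2^64 ℓ^(24k0) <= Q`; `2^23 <= δ^5 M` (`M >= X^(1/3)/2`, `X` large); `2^16 M^2 <= δ^3 X` (`M^2 ℓ^(6k0+1) <= X`, `ℓ >= 2^16`); `12hQ <= 12 X ℓ^(25k0-A2) <= 12 X/ℓ <= X`.
Second term: `1536 X Q^4 V/(M h^2) = 1536 X Q^4 Y ℓ^(-A3)/M <= 1536 X M^2 (1+ℓ^D) ℓ^(100k0-A3) <= X M^2 ℓ^(-A)/2` (`Y <= M^3 (1+ℓ^D)`).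
First term: `Σ_{n<=L} |a n|^2 = Σ_{Y<n<=L} (az Q n)^2`, `(az Q n)^2 <= 2 + 2 (TP.lq Q n)^2` (`0 <= pr <= 1`, `0 <= il n <= 1` for `n >= 3`), so by `l2s` `<= 2L + 2(2L(1+log Q)^2 + 4Q^4) <= L ℓ/100` for `X` large
(`log Q <= 25 k0 log ℓ`, `L >= X`); `L <= 17Y <= 34 M^3 ℓ^D` (`(2M+1)^3 <= 9M^3`, `X <= 8M^3`, `ℓ >= 1`). So the first term is `<= 96 δ (X/M) M^3 ℓ^(D+1) = 96 X M^2 ℓ^(D+1-2k0) <= X M^2 ℓ^(-A)/2` (`2k0 >= A+D+4`).
-/

namespace Pool.Agent.H12.HQ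

open Finset Pool.Agent.H43

private theorem lgn_norm (s : Finset ℕ) (f : ℕ → ℝ) :
    ‖∑ n ∈ s, (f n : ℂ)‖ ^ 2 = (∑ n ∈ s, f n) ^ 2 := by
  rw [← Complex.ofReal_sum, Complex.norm_real, Real.norm_eq_abs, sq_abs]

private theorem lgn_ev (c s : ℝ) (hs : 0 < s) (r : ℝ) :
    ∀ᶠ X : ℕ in Filter.atTop, c * (Real.log X) ^ r ≤ (X : ℝ) ^ s := by
  have h1 := (isLittleO_log_rpow_rpow_atTop r hs).comp_tendsto tendsto_natCast_atTop_atTop
  have hc : (0 : ℝ) < (|c| + 1)⁻¹ := by positivity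
  filter_upwards [h1.bound hc, Filter.eventually_ge_atTop 3] with X hX hX3
  simp only [Function.comp_apply] at hX
  have hX3' : (3 : ℝ) ≤ X := by exact_mod_cast hX3
  have hl : 0 ≤ Real.log X := Real.log_nonneg (by linarith)
  have hlr : 0 ≤ (Real.log X) ^ r := Real.rpow_nonneg hl _
  have hxr : 0 ≤ (X : ℝ) ^ s := by positivity
  rw [Real.norm_of_nonneg hlr, Real.norm_of_nonneg hxr] at hX
  have h2 : (|c| + 1) * (Real.log X) ^ r ≤ (X : ℝ) ^ s := by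
    calc (|c| + 1) * (Real.log X) ^ r ≤ (|c| + 1) * ((|c| + 1)⁻¹ * (X : ℝ) ^ s) :=
          mul_le_mul_of_nonneg_left hX (by positivity)
      _ = _ := by field_simp
  have h3 : c ≤ |c| + 1 := by linarith [le_abs_self c]
  exact (mul_le_mul_of_nonneg_right h3 hlr).trans h2

private theorem lgn_ev2 (a b : ℝ) : ∀ᶠ X : ℕ in Filter.atTop,
    a + b * (Real.log (Real.log X)) ^ 2 ≤ Real.log X / 1000 := by
  have h0 : Filter.Tendsto (fun X : ℕ => Real.log X) Filter.atTop Filter.atTop :=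
    Real.tendsto_log_atTop.comp tendsto_natCast_atTop_atTop
  have h1 : ∀ᶠ y : ℝ in Filter.atTop, a + b * (Real.log y) ^ 2 ≤ y / 1000 := by
    have h2 := (Real.isLittleO_pow_log_id_atTop (n := 2)).bound
      (show (0 : ℝ) < (2000 * (|b| + 1))⁻¹ by positivity)
    filter_upwards [h2, Filter.eventually_ge_atTop (2000 * |a| + 1)] with y hy hy1
    have hy0 : 0 < y := by
      have := abs_nonneg a
      linarith
    rw [id, Real.norm_of_nonneg (sq_nonneg _), Real.norm_of_nonneg hy0.le] at hy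
    have h3 : (|b| + 1) * (Real.log y) ^ 2 ≤ y / 2000 := by
      calc (|b| + 1) * (Real.log y) ^ 2 ≤ (|b| + 1) * ((2000 * (|b| + 1))⁻¹ * y) :=
            mul_le_mul_of_nonneg_left hy (by positivity)
        _ = _ := by field_simp
    have h4 : b * (Real.log y) ^ 2 ≤ (|b| + 1) * (Real.log y) ^ 2 :=
      mul_le_mul_of_nonneg_right (by linarith [le_abs_self b]) (sq_nonneg _)
    have h5 := le_abs_self a
    linarith
  exact h0.eventually h1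

/-- the square sum of the sequence -/
private theorem lgn_l2 (Q Y L : ℕ) (hQ : 1 ≤ Q) (hY : 8 ≤ Y) (hYL : Y ≤ L) :
    ∑ n ∈ Ioc Y L, (HY.az Q n) ^ 2 ≤
      2 * (L : ℝ) + 4 * (L : ℝ) * (1 + Real.log Q) ^ 2 + 8 * (Q : ℝ) ^ 4 := by
  have h1 : ∀ n ∈ Ioc Y L, (HY.az Q n) ^ 2 ≤ 2 + 2 * (TP.lq Q n) ^ 2 := by
    intro n hn
    have hn8 : 8 ≤ n := hY.trans (mem_Ioc.1 hn).1.le
    have hn' : (8 : ℝ) ≤ n := by exact_mod_cast hn8
    have hlog : 1 ≤ Real.log n := by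
      rw [Real.le_log_iff_exp_le (by linarith)]
      have := Real.exp_one_lt_d9
      linarith
    have hil0 : 0 ≤ HY.il n := by
      unfold HY.il
      positivity
    have hil : HY.il n ≤ 1 := by
      unfold HY.il
      rw [div_le_one (by linarith)]
      exact hlog
    have hil2 : (HY.il n) ^ 2 ≤ 1 := by nlinarith
    have hpr : (HY.pr n) ^ 2 ≤ 1 := by
      unfold HY.pr
      split_ifs <;> norm_num
    unfold HY.az
    have h2 : (HY.il n * TP.lq Q n) ^ 2 ≤ (TP.lq Q n) ^ 2 := by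
      rw [mul_pow]
      nlinarith [sq_nonneg (TP.lq Q n)]
    nlinarith [sq_nonneg (HY.pr n + HY.il n * TP.lq Q n)]
  refine (sum_le_sum h1).trans ?_
  rw [sum_add_distrib, ← mul_sum, sum_const, Nat.card_Ioc, nsmul_eq_mul]
  have h4 := l2s Q Y (L - Y) hQ
  rw [Nat.add_sub_cancel' hYL] at h4
  have h5 : ((L - Y : ℕ) : ℝ) ≤ L := by exact_mod_cast Nat.sub_le L Y
  have h6 : 0 ≤ (1 + Real.log Q) ^ 2 := sq_nonneg _
  have h7 := mul_le_mul_of_nonneg_right h5 h6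
  linarith

theorem lgn (hfzs : HY.FzS) (A D : ℝ) (k0 : ℕ) (hA : 0 < A) (hD : 0 ≤ D) (hk0 : (A + D) / 2 + 2 ≤ k0) :
    ∃ X0 : ℕ, ∀ X : ℕ, X0 ≤ X → ∀ Q M M' K : ℕ, 2 ^ 64 * (Real.log X) ^ (24 * k0) ≤ Q →
    (Q : ℝ) ≤ (Real.log X) ^ (25 * k0) → X ≤ 8 * M ^ 3 →
    (M : ℝ) ^ 2 * (Real.log X) ^ (6 * k0 + 1) ≤ X → (K : ℝ) ≤ (M : ℝ) ^ 3 * (Real.log X) ^ D →
    M ≤ M' → M' ≤ 2 * M + 1 →
    ∑ k ∈ Ioc K (K + X), (∑ m ∈ Ioc M M', HY.az Q (m ^ 3 + k)) ^ 2 ≤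
      X * (M : ℝ) ^ 2 * (Real.log X) ^ (-A) := by
  have hk3 : 3 ≤ k0 := by
    have h1 : (2 : ℝ) < k0 := by linarith
    have h2 : 2 < k0 := by exact_mod_cast h1
    omega
  have hkR : (3 : ℝ) ≤ k0 := by exact_mod_cast hk3
  obtain ⟨A3, hA3⟩ : ∃ A3 : ℝ, A3 = 100 * k0 + D + A + 3 := ⟨_, rfl⟩
  obtain ⟨A1, hA1, hwin⟩ := win hfzs ((25 * k0 : ℕ) : ℝ) A3 D
    (by push_cast; linarith) (by rw [hA3]; linarith) hD
  obtain ⟨A2, hA2⟩ : ∃ A2 : ℝ, A2 = max A1 (25 * k0 + 1) := ⟨_, rfl⟩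
  obtain ⟨X1, hX1, hwin2⟩ := hwin A2 (by rw [hA2]; exact le_max_left _ _)
  have hA2' : 25 * (k0 : ℝ) + 1 ≤ A2 := by rw [hA2]; exact le_max_right _ _
  have hl2 : ∀ᶠ X : ℕ in Filter.atTop, 2 ^ 16 ≤ Real.log X :=
    (Real.tendsto_log_atTop.comp tendsto_natCast_atTop_atTop).eventually_ge_atTop (2 ^ 16)
  obtain ⟨X0, hX0⟩ := Filter.eventually_atTop.1 ((((hl2.and
    (lgn_ev (2 ^ 72) 1 one_pos ((30 * k0 : ℕ) : ℝ))).and
    (lgn_ev 1 1 one_pos A2)).and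
    (lgn_ev 1 1 one_pos ((100 * k0 : ℕ) : ℝ))).and
    (lgn_ev2 18 (5000 * k0 ^ 2)))
  refine ⟨max X0 X1, ?_⟩
  intro X hX Q M M' K hQ1 hQ2 hX8 hMX hKD hM'1 hM'2
  obtain ⟨⟨⟨⟨hl, ca⟩, cb⟩, cc⟩, cd⟩ := hX0 X ((le_max_left _ _).trans hX)
  have hXX1 : X1 ≤ X := (le_max_right _ _).trans hX
  have hX10 : 10 ≤ X := hX1.trans hXX1
  set l : ℝ := Real.log X with hldef
  have hl16 : (65536 : ℝ) ≤ l := by
    have : (2 : ℝ) ^ 16 = 65536 := by norm_num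
    rwa [this] at hl
  have hl0 : 0 < l := by linarith
  have hl1 : 1 ≤ l := by linarith
  rw [Real.rpow_natCast] at ca cc
  rw [Real.rpow_one] at ca cb cc
  rw [one_mul] at cb cc
  have hXR : (10 : ℝ) ≤ X := by exact_mod_cast hX10
  have hX0' : (0 : ℝ) < X := by linarith
  have hX8R : (X : ℝ) ≤ 8 * (M : ℝ) ^ 3 := by exact_mod_cast hX8
  -- `M` is large
  have hMbig : 2 ^ 23 * l ^ (10 * k0) ≤ (M : ℝ) := by
    by_contra hcon
    rw [not_le] at hcon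
    have h1 : (M : ℝ) ^ 3 < (2 ^ 23 * l ^ (10 * k0)) ^ 3 :=
      pow_lt_pow_left₀ hcon (Nat.cast_nonneg M) (by norm_num)
    have h2 : (2 ^ 23 * l ^ (10 * k0)) ^ 3 = 2 ^ 69 * l ^ (30 * k0) := by
      rw [mul_pow, ← pow_mul, ← pow_mul]
      congr 2
      ring
    rw [h2] at h1
    have h3 : (0 : ℝ) < l ^ (30 * k0) := by positivity
    have h4 : (8 : ℝ) * (2 ^ 69 * l ^ (30 * k0)) = 2 ^ 72 * l ^ (30 * k0) := by ring
    linarith
  have hlk : (1 : ℝ) ≤ l ^ (10 * k0) := one_le_pow₀ hl1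
  have hMR : (2 : ℝ) ≤ M := by
    have : (2 : ℝ) ^ 23 * 1 ≤ 2 ^ 23 * l ^ (10 * k0) := mul_le_mul_of_nonneg_left hlk (by norm_num)
    norm_num at this
    linarith
  have hM0 : (0 : ℝ) < M := by linarith
  have hM2 : 2 ≤ M := by exact_mod_cast hMR
  have hM38 : 8 ≤ M ^ 3 := by
    calc 8 = 2 ^ 3 := by norm_num
      _ ≤ M ^ 3 := Nat.pow_le_pow_left hM2 3
  have hQR0 : (0 : ℝ) < Q := lt_of_lt_of_le (by positivity) hQ1
  have hQ0 : 1 ≤ Q := by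
    have : 0 < Q := by exact_mod_cast hQR0
    omega
  have hQR : (1 : ℝ) ≤ Q := by exact_mod_cast hQ0
  -- the parameters
  obtain ⟨δ, hδ⟩ : ∃ δ : ℝ, δ = (l ^ (2 * k0))⁻¹ := ⟨_, rfl⟩
  have hl2k : (0 : ℝ) < l ^ (2 * k0) := by positivity
  have hδ0 : 0 < δ := by rw [hδ]; positivity
  have hδ1 : δ ≤ 1 := by
    rw [hδ]
    exact inv_le_one_of_one_le₀ (one_le_pow₀ hl1)
  have hδp : ∀ n : ℕ, δ ^ n = (l ^ (2 * k0 * n))⁻¹ := by
    intro n
    rw [hδ, inv_pow, ← pow_mul]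
  obtain ⟨L, hL⟩ : ∃ L : ℕ, L = M' ^ 3 + K + X := ⟨_, rfl⟩
  obtain ⟨Y, hY⟩ : ∃ Y : ℕ, Y = M ^ 3 + K := ⟨_, rfl⟩
  have hM'3 : M ^ 3 ≤ M' ^ 3 := Nat.pow_le_pow_left hM'1 3
  have hYL : Y ≤ L := by omega
  have hY8 : 8 ≤ Y := by omega
  obtain ⟨h, hh⟩ : ∃ h : ℕ, h = ⌊(X : ℝ) * l ^ (-A2)⌋₊ := ⟨_, rfl⟩
  have hlA2 : 0 < l ^ (-A2) := Real.rpow_pos_of_pos hl0 _
  have hhle : (h : ℝ) ≤ X * l ^ (-A2) := by
    rw [hh]
    exact Nat.floor_le (by positivity)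
  have hh1 : 1 ≤ h := by
    rw [hh]
    apply Nat.le_floor
    rw [Real.rpow_neg hl0.le, Nat.cast_one, ← div_eq_mul_inv, one_le_div (Real.rpow_pos_of_pos hl0 _)]
    exact cb
  have hhR : (1 : ℝ) ≤ h := by exact_mod_cast hh1
  have hhQ : 12 * h * Q ≤ X := by
    have h1 : l ^ (-A2) ≤ (l ^ (25 * k0) * l)⁻¹ := by
      rw [Real.rpow_neg hl0.le]
      apply inv_anti₀ (by positivity)
      rw [← pow_succ, ← Real.rpow_natCast]
      apply Real.rpow_le_rpow_of_exponent_le hl1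
      push_cast
      exact hA2'
    have h2 : (12 * h * Q : ℝ) ≤ X := by
      calc (12 * h * Q : ℝ) ≤ 12 * (X * (l ^ (25 * k0) * l)⁻¹) * l ^ (25 * k0) := by
            have h3 : (h : ℝ) ≤ X * (l ^ (25 * k0) * l)⁻¹ :=
              hhle.trans (mul_le_mul_of_nonneg_left h1 hX0'.le)
            exact mul_le_mul (mul_le_mul_of_nonneg_left h3 (by norm_num)) hQ2 hQR0.le
              (by positivity)
        _ = X * (12 / l) := by
            have : l ^ (25 * k0) ≠ 0 := by positivity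
            field_simp
        _ ≤ X * 1 := by
            refine mul_le_mul_of_nonneg_left ?_ hX0'.le
            rw [div_le_one hl0]
            linarith
        _ = X := mul_one _
    exact_mod_cast h2
  obtain ⟨V, hV⟩ : ∃ V : ℝ, V = ((Y : ℕ) : ℝ) * (h : ℝ) ^ 2 * l ^ (-A3) := ⟨_, rfl⟩
  have hV0 : 0 ≤ V := by
    rw [hV]
    have := Real.rpow_pos_of_pos hl0 (-A3)
    positivity
  obtain ⟨a, ha⟩ : ∃ a : ℕ → ℂ, a = fun n => if Y < n then ((HY.az Q n : ℝ) : ℂ) else 0 := ⟨_, rfl⟩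
  have hMX2 : (M : ℝ) ^ 2 ≤ X := by
    have h1 : (1 : ℝ) ≤ l ^ (6 * k0 + 1) := one_le_pow₀ hl1
    calc (M : ℝ) ^ 2 = (M : ℝ) ^ 2 * 1 := (mul_one _).symm
      _ ≤ (M : ℝ) ^ 2 * l ^ (6 * k0 + 1) := mul_le_mul_of_nonneg_left h1 (by positivity)
      _ ≤ X := hMX
  have hcor := cor a M M' K X L Q h δ V hM'2 hL.ge hδ0 hδ1
    (by
      rw [hδp, mul_comm, ← div_eq_mul_inv, le_div_iff₀ (by positivity)]
      have : 2 * k0 * 5 = 10 * k0 := by ring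
      rw [this]
      exact hMbig)
    (by
      rw [hδp, mul_comm _ (X : ℝ), ← div_eq_mul_inv, le_div_iff₀ (by positivity)]
      have h1 : 2 * k0 * 3 = 6 * k0 := by ring
      rw [h1]
      refine le_trans ?_ hMX
      rw [pow_succ]
      have h2 : (0 : ℝ) ≤ (M : ℝ) ^ 2 * l ^ (6 * k0) := by positivity
      have h3 := mul_le_mul_of_nonneg_left hl h2
      calc 2 ^ 16 * (M : ℝ) ^ 2 * l ^ (6 * k0) = (M : ℝ) ^ 2 * l ^ (6 * k0) * 2 ^ 16 := by ring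
        _ ≤ (M : ℝ) ^ 2 * l ^ (6 * k0) * l := h3
        _ = (M : ℝ) ^ 2 * (l ^ (6 * k0) * l) := by ring)
    (by
      rw [hδp, div_inv_eq_mul]
      have h1 : 2 * k0 * 12 = 24 * k0 := by ring
      rw [h1]
      exact hQ1)
    hh1 hhQ (by
      intro q c hq hqQ hc
      have h1 := hwin2 X hXX1 M K L Q q c h hX8 (by exact_mod_cast hMX2) hKD (by
        rw [hL]
        have : M' ^ 3 ≤ (2 * M + 1) ^ 3 := Nat.pow_le_pow_left hM'2 3
        omega) (by rw [Real.rpow_natCast]; exact hQ2) hq hqQ hc hh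
      rw [← hY] at h1
      rw [hV]
      refine le_trans (le_of_eq ?_) h1
      refine sum_congr rfl fun x _ => ?_
      have h2 : ∑ n ∈ (Ioc (x - h) x).filter (fun n => n ≤ L ∧ n % q = c), a n =
          ∑ n ∈ (Ioc (x - h) x).filter (fun n => Y < n ∧ n ≤ L ∧ n % q = c),
            ((HY.az Q n : ℝ) : ℂ) := by
        rw [sum_filter, sum_filter, ha]
        refine sum_congr rfl fun n _ => ?_
        by_cases h3 : n ≤ L ∧ n % q = c
        · rw [if_pos h3]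
          dsimp only
          by_cases h4 : Y < n
          · rw [if_pos h4, if_pos ⟨h4, h3⟩]
          · rw [if_neg h4, if_neg fun h5 => h4 h5.1]
        · rw [if_neg h3, if_neg fun h5 => h3 h5.2]
      rw [h2, lgn_norm])
  -- left side
  have hleft : ∑ k ∈ Ioc K (K + X), (∑ m ∈ Ioc M M', HY.az Q (m ^ 3 + k)) ^ 2 =
      ∑ k ∈ Ioc K (K + X), ‖∑ m ∈ Ioc M M', a (m ^ 3 + k)‖ ^ 2 := by
    refine sum_congr rfl fun k hk => ?_
    rw [mem_Ioc] at hk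
    have h1 : ∑ m ∈ Ioc M M', a (m ^ 3 + k) = ∑ m ∈ Ioc M M', ((HY.az Q (m ^ 3 + k) : ℝ) : ℂ) := by
      refine sum_congr rfl fun m hm => ?_
      rw [mem_Ioc] at hm
      have h2 : M ^ 3 ≤ m ^ 3 := Nat.pow_le_pow_left hm.1.le 3
      rw [ha]
      dsimp only
      rw [if_pos (by omega)]
    rw [h1, lgn_norm]
  -- the square sum
  have hS : ∑ n ∈ Icc 1 L, ‖a n‖ ^ 2 ≤ (L : ℝ) * (l / 1000) := by
    have h1 : ∑ n ∈ Icc 1 L, ‖a n‖ ^ 2 = ∑ n ∈ Ioc Y L, (HY.az Q n) ^ 2 := by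
      have h2 : (Icc 1 L).filter (fun n => Y < n) = Ioc Y L := by
        ext n
        simp only [mem_filter, mem_Icc, mem_Ioc]
        omega
      rw [← h2, sum_filter]
      refine sum_congr rfl fun n _ => ?_
      rw [ha]
      dsimp only
      split_ifs
      · rw [Complex.norm_real, Real.norm_eq_abs, sq_abs]
      · simp
    rw [h1]
    refine (lgn_l2 Q Y L hQ0 hY8 hYL).trans ?_
    have hXL : (X : ℝ) ≤ L := by
      have : X ≤ L := by omega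
      exact_mod_cast this
    have hQ4 : (Q : ℝ) ^ 4 ≤ L := by
      calc (Q : ℝ) ^ 4 ≤ (l ^ (25 * k0)) ^ 4 := pow_le_pow_left₀ hQR0.le hQ2 4
        _ = l ^ (100 * k0) := by
            rw [← pow_mul]
            congr 1
            ring
        _ ≤ X := cc
        _ ≤ L := hXL
    have hlQ : Real.log Q ≤ 25 * k0 * Real.log l := by
      have h2 := Real.log_le_log hQR0 hQ2
      rw [Real.log_pow] at h2
      push_cast at h2
      exact h2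
    have hlQ0 : 0 ≤ Real.log Q := Real.log_nonneg hQR
    have h3 : (1 + Real.log Q) ^ 2 ≤ 2 + 1250 * k0 ^ 2 * (Real.log l) ^ 2 := by
      have h4 : (1 + Real.log Q) ^ 2 ≤ 2 + 2 * (Real.log Q) ^ 2 := by
        nlinarith [sq_nonneg (1 - Real.log Q)]
      have h5 : (Real.log Q) ^ 2 ≤ (25 * k0 * Real.log l) ^ 2 := pow_le_pow_left₀ hlQ0 hlQ 2
      nlinarith
    have hL0 : (0 : ℝ) ≤ L := Nat.cast_nonneg _
    have h6 : 4 * (L : ℝ) * (1 + Real.log Q) ^ 2 ≤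
        4 * (L : ℝ) * (2 + 1250 * k0 ^ 2 * (Real.log l) ^ 2) :=
      mul_le_mul_of_nonneg_left h3 (by positivity)
    have h7 := mul_le_mul_of_nonneg_left cd hL0
    linarith
  have hlD : 1 ≤ l ^ D := Real.one_le_rpow hl1 hD
  have hM3 : (0 : ℝ) < (M : ℝ) ^ 3 := by positivity
  have hLle : (L : ℝ) ≤ 36 * (M : ℝ) ^ 3 * l ^ D := by
    have h1 : (M' : ℝ) ^ 3 ≤ 27 * (M : ℝ) ^ 3 := by
      have h2 : (M' : ℝ) ≤ 3 * M := by
        have h3 : (M' : ℝ) ≤ 2 * M + 1 := by exact_mod_cast hM'2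
        linarith
      calc (M' : ℝ) ^ 3 ≤ (3 * (M : ℝ)) ^ 3 := pow_le_pow_left₀ (Nat.cast_nonneg _) h2 3
        _ = 27 * (M : ℝ) ^ 3 := by ring
    have h4 : (L : ℝ) = (M' : ℝ) ^ 3 + K + X := by
      rw [hL]
      push_cast
      ring
    have h5 : (M : ℝ) ^ 3 * 1 ≤ (M : ℝ) ^ 3 * l ^ D := mul_le_mul_of_nonneg_left hlD hM3.le
    rw [h4]
    nlinarith
  have hYle : (Y : ℝ) ≤ 2 * ((M : ℝ) ^ 3 * l ^ D) := by
    have h5 : (M : ℝ) ^ 3 * 1 ≤ (M : ℝ) ^ 3 * l ^ D := mul_le_mul_of_nonneg_left hlD hM3.le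
    have h4 : (Y : ℝ) = (M : ℝ) ^ 3 + K := by
      rw [hY]
      push_cast
      ring
    rw [h4]
    linarith
  have hlA : 0 < l ^ (-A) := Real.rpow_pos_of_pos hl0 _
  have hl3 : l ^ (-A - 3) = l ^ (-A) * (l ^ 3)⁻¹ := by
    rw [sub_eq_add_neg, Real.rpow_add hl0, Real.rpow_neg hl0.le 3]
    congr 2
    have := Real.rpow_natCast l 3
    push_cast at this
    exact this
  have hl3' : 10000 ≤ l ^ 3 := by
    have : l ^ 1 ≤ l ^ 3 := pow_le_pow_right₀ hl1 (by norm_num)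
    rw [pow_one] at this
    linarith
  have hl4 : 5000 * l ^ (-A - 3) ≤ l ^ (-A) / 2 := by
    rw [hl3]
    have h1 : (l ^ 3)⁻¹ ≤ (10000 : ℝ)⁻¹ := inv_anti₀ (by norm_num) hl3'
    have h2 := mul_le_mul_of_nonneg_left h1 hlA.le
    linarith
  -- first term
  have hT1 : 96 * δ * (X / M) * ∑ n ∈ Icc 1 L, ‖a n‖ ^ 2 ≤
      X * (M : ℝ) ^ 2 * l ^ (-A) / 2 := by
    have h1 : δ * (l ^ D * l) ≤ l ^ (-A - 3) := by
      have h2 : δ = l ^ (-(((2 * k0 : ℕ)) : ℝ)) := by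
        rw [hδ, Real.rpow_neg hl0.le, Real.rpow_natCast]
      have h3 : δ * (l ^ D * l) = l ^ (-(((2 * k0 : ℕ)) : ℝ) + (D + 1)) := by
        rw [h2, Real.rpow_add hl0, Real.rpow_add hl0, Real.rpow_one]
      rw [h3]
      apply Real.rpow_le_rpow_of_exponent_le hl1
      push_cast
      linarith
    have h4 : ∑ n ∈ Icc 1 L, ‖a n‖ ^ 2 ≤ 36 * (M : ℝ) ^ 3 * l ^ D * (l / 1000) :=
      hS.trans (mul_le_mul_of_nonneg_right hLle (by positivity))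
    calc 96 * δ * (X / M) * ∑ n ∈ Icc 1 L, ‖a n‖ ^ 2
        ≤ 96 * δ * (X / M) * (36 * (M : ℝ) ^ 3 * l ^ D * (l / 1000)) :=
          mul_le_mul_of_nonneg_left h4 (by positivity)
      _ = X * (M : ℝ) ^ 2 * ((96 * 36 / 1000) * (δ * (l ^ D * l))) := by
          field_simp
      _ ≤ X * (M : ℝ) ^ 2 * (l ^ (-A) / 2) := by
          refine mul_le_mul_of_nonneg_left ?_ (by positivity)
          have h5 : 0 < l ^ (-A - 3) := Real.rpow_pos_of_pos hl0 _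
          linarith
      _ = _ := by ring
  -- second term
  have hT2 : 1536 * X * (Q : ℝ) ^ 4 * V / (M * (h : ℝ) ^ 2) ≤
      X * (M : ℝ) ^ 2 * l ^ (-A) / 2 := by
    have hlA3 : 0 < l ^ (-A3) := Real.rpow_pos_of_pos hl0 _
    have h1 : 1536 * X * (Q : ℝ) ^ 4 * V / (M * (h : ℝ) ^ 2) =
        1536 * X * (Q : ℝ) ^ 4 * (Y * l ^ (-A3)) / M := by
      rw [hV]
      field_simp
    rw [h1]
    have h2 : (Q : ℝ) ^ 4 ≤ l ^ (100 * k0) := by
      calc (Q : ℝ) ^ 4 ≤ (l ^ (25 * k0)) ^ 4 := pow_le_pow_left₀ hQR0.le hQ2 4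
        _ = l ^ (100 * k0) := by
            rw [← pow_mul]
            congr 1
            ring
    have h3 : l ^ (100 * k0) * (l ^ D * l ^ (-A3)) = l ^ (-A - 3) := by
      rw [← Real.rpow_natCast, ← Real.rpow_add hl0, ← Real.rpow_add hl0]
      congr 1
      push_cast
      rw [hA3]
      ring
    calc 1536 * X * (Q : ℝ) ^ 4 * (Y * l ^ (-A3)) / M
        ≤ 1536 * X * l ^ (100 * k0) * (2 * ((M : ℝ) ^ 3 * l ^ D) * l ^ (-A3)) / M := by
          apply div_le_div_of_nonneg_right _ hM0.le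
          refine mul_le_mul (mul_le_mul_of_nonneg_left h2 (by positivity))
            (mul_le_mul_of_nonneg_right hYle hlA3.le) (by positivity) (by positivity)
      _ = X * (M : ℝ) ^ 2 * (3072 * (l ^ (100 * k0) * (l ^ D * l ^ (-A3)))) := by
          field_simp
          ring
      _ = X * (M : ℝ) ^ 2 * (3072 * l ^ (-A - 3)) := by rw [h3]
      _ ≤ X * (M : ℝ) ^ 2 * (l ^ (-A) / 2) := by
          refine mul_le_mul_of_nonneg_left ?_ (by positivity)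
          have h5 : 0 < l ^ (-A - 3) := Real.rpow_pos_of_pos hl0 _
          linarith
      _ = _ := by ring
  rw [hleft]
  refine hcor.trans ?_
  linarith

end Pool.Agent.H12.HQ
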