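import Pool.Agent.H12.HQ.Sms
import Pool.Agent.H12.HQ.Lgn

/-!
# [H12 HQ ALN] All `M` with `X^(1/18+ε) <= M`, `M^2 (log X)^(6k0+1) <= X`; `k ∈ (K, K+X]`, `K <= M^3`

`ℓ = log X`, `s = (Ioc K (K+X)).filter (Z < ·)`, `F m k = az Q (m^3+k)`, `nrm S = (Σ_{k ∈ s} (S k)^2)^(1/2)`, `D = 3(A+4)/2 + 1`, `tr = M ℓ^(-(A+4)/2)`. Compare `H43/HY/All.lean` (`all_tri`, `all_ind`).
(1) TRIVIAL BOUND. For every `m >= 1`: `Σ_{k ∈ Ioc K (K+X)} F m k^2 <= 2X + 2(2X(1+log Q)^2 + 4Q^4) <= Xℓ` for `X` large (`az^2 <= 2 + 2 lq^2` for `n >= 3`, here `n = m^3+k >= 2`: for `n = 2` `il 2 <= 2`, or use `Z >= 2`; `l2s` on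
`(m^3+K, m^3+K+X]`; `log Q <= 25k0 log ℓ`). So for `M1 <= M`: `nrm (Σ_{m<=M1} F) <= M1 √(Xℓ)`, which is `<= E1 := √X M ℓ^(-(A+3)/2)` if `M1 <= tr`. One single `m`: `<= E2 := √(Xℓ) <= √X M ℓ^(-(A+4)/2)`.
(2) `M1 > tr`, `M1^3 <= X`: `K <= M^3 <= M1^3 ℓ^(3(A+4)/2) <= Xℓ^D`, so `s ⊆ Ioc Z X'`, `X' = ⌈2Xℓ^D⌉₊`. `HY.sm` with `(A + D + 6, ε/2, B' + D + 1, k0)` at `X'`: `2^64 (log X')^(24k0) <= 2^65 ℓ^(24k0) <= Q <= ℓ^(25k0) <= (log X')^(25k0)`
(`log X' <= ℓ + (D+1) log ℓ + 2`, `X` large), `X'(log X')^(-B'-D-1) <= 3Xℓ^(-B'-1) <= Z`, `M1^3 <= X <= X'`, and `X'^(1/18+ε/2) <= M1`: if `M^3 <= X` then only `M1 = M >= X^(1/18+ε)` is used, see (4); otherwise `M1 > tr > X^(1/3) ℓ^(-(A+4)/2)`.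
Result `<= X' M1^2 (log X')^(-A-D-6) <= X M1^2 ℓ^(-A-4) = (c M1)^2`, `c = √X ℓ^(-(A+4)/2)`.
(3) `M1 > tr`, `M1^3 > X`, `m1 = M1/2`, `X <= 8 m1^3`: `lgn` with `(A+4, D, k0)` for `(m1, M1)` (`K <= M^3 <= M1^3 ℓ^(3(A+4)/2) <= 27 m1^3 ℓ^(3(A+4)/2) <= m1^3 ℓ^D`; `k0 >= (A+4+D)/2 + 2`): `nrm (Σ_{m1<m<=M1} F) <= c m1`.
(4) CLAIM: `nrm (Σ_{m ∈ Icc 1 M1} F) <= c M1 + E1 + E2` for all `M1 <= M`, if `M^3 > X`. Strong induction: `M1 <= tr`: (1). `M1^3 <= X`: (2). Else `m1 = M1/2`; if `X <= 8m1^3`: the claim for `m1` and (3), `2 m1 <= M1`.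
If `8m1^3 < X < M1^3` then `M1 = 2m1+1`, `Icc 1 M1 = Icc 1 (2m1) ∪ {M1}`, `(2m1)^3 < X`: (1) or (2) for `2m1`, and `E2` for `m = M1`. If `M^3 <= X` use (2) for `M1 = M` directly.
(5) `(cM + E1 + E2)^2 <= X M^2 ℓ^(-A) (ℓ^(-2) + ℓ^(-3/2) + ℓ^(-2))^2 <= X M^2 ℓ^(-A)`.
-/

set_option autoImplicit false

namespace Pool.Agent.H12.HQ

open Finset Pool.Agent.H43

private theorem aln_ev (C a b : ℝ) (hb : 0 < b) : ∀ᶠ X : ℕ in Filter.atTop,
    C * (Real.log X) ^ a ≤ (X : ℝ) ^ b := by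
  have h1 := (isLittleO_log_rpow_rpow_atTop a hb).bound (show (0 : ℝ) < 1 / (|C| + 1) by positivity)
  have h2 := (tendsto_natCast_atTop_atTop (R := ℝ)).eventually h1
  have h3 : ∀ᶠ X : ℕ in Filter.atTop, 1 ≤ X := Filter.eventually_ge_atTop 1
  filter_upwards [h2, h3] with X h4 h5
  have hX : (1 : ℝ) ≤ X := by exact_mod_cast h5
  have hl : 0 ≤ Real.log X := Real.log_nonneg hX
  rw [Real.norm_eq_abs, Real.norm_eq_abs, abs_of_nonneg (Real.rpow_nonneg hl a),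
    abs_of_nonneg (Real.rpow_nonneg (by linarith) b)] at h4
  have hC : 0 < |C| + 1 := by positivity
  rw [one_div, inv_mul_eq_div, le_div_iff₀ hC] at h4
  have h6 : C ≤ |C| + 1 := by linarith [le_abs_self C]
  have h7 := mul_le_mul_of_nonneg_right h6 (Real.rpow_nonneg hl a)
  linarith

private theorem aln_log (c : ℝ) : ∀ᶠ X : ℕ in Filter.atTop, c ≤ Real.log X :=
  (Real.tendsto_log_atTop.comp tendsto_natCast_atTop_atTop).eventually_ge_atTop c

private theorem aln_loglog (c : ℝ) : ∀ᶠ X : ℕ in Filter.atTop,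
    8 * (1 + c * Real.log (Real.log X)) ^ 2 + 4 ≤ Real.log X / 2 := by
  have h1 : ∀ᶠ t : ℝ in Filter.atTop, 8 * (1 + c * Real.log t) ^ 2 + 4 ≤ t / 2 := by
    have h := (isLittleO_log_rpow_atTop (show (0 : ℝ) < 1 / 2 by norm_num)).bound
      (show (0 : ℝ) < 1 / (8 * (|c| + 1)) by positivity)
    filter_upwards [h, Filter.eventually_ge_atTop 1000] with t h2 h3
    have ht : 0 < t := by linarith
    rw [← Real.sqrt_eq_rpow, Real.norm_eq_abs, Real.norm_eq_abs,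
      abs_of_nonneg (Real.sqrt_nonneg t)] at h2
    have hs : Real.sqrt t * Real.sqrt t = t := Real.mul_self_sqrt ht.le
    have hs0 := Real.sqrt_nonneg t
    have hs31 : 31 ≤ Real.sqrt t := by
      apply Real.le_sqrt_of_sq_le
      norm_num
      linarith
    have hc1 : 0 < 8 * (|c| + 1) := by positivity
    rw [one_div, inv_mul_eq_div, le_div_iff₀ hc1] at h2
    have h4 : |c * Real.log t| ≤ Real.sqrt t / 8 := by
      rw [abs_mul]
      have : |Real.log t| * (8 * |c|) ≤ |Real.log t| * (8 * (|c| + 1)) := by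
        apply mul_le_mul_of_nonneg_left _ (abs_nonneg _)
        linarith
      nlinarith
    have h5 := abs_le.1 h4
    have h6 : (1 + c * Real.log t) ^ 2 ≤ (1 + Real.sqrt t / 8) ^ 2 := by
      apply sq_le_sq'
      · linarith [h5.1]
      · linarith [h5.2]
    nlinarith
  exact (Real.tendsto_log_atTop.comp tendsto_natCast_atTop_atTop).eventually h1

/-- slowly growing corrections of the logarithm -/
private theorem aln_pow (D : ℝ) (n : ℕ) : ∀ᶠ X : ℕ in Filter.atTop,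
    (Real.log X + 2 + D * Real.log (Real.log X)) ^ n ≤ 2 * (Real.log X) ^ n := by
  have h1 : ∀ᶠ t : ℝ in Filter.atTop, (t + 2 + D * Real.log t) ^ n ≤ 2 * t ^ n := by
    have ha : Filter.Tendsto (fun t : ℝ => 2 / t) Filter.atTop (nhds 0) :=
      tendsto_const_nhds.div_atTop Filter.tendsto_id
    have hb : Filter.Tendsto (fun t : ℝ => Real.log t / t) Filter.atTop (nhds 0) :=
      Real.isLittleO_log_id_atTop.tendsto_div_nhds_zero
    have hc : Filter.Tendsto (fun t : ℝ => (1 + (2 / t + D * (Real.log t / t))) ^ n) Filter.atTop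
        (nhds ((1 + (0 + D * 0)) ^ n)) :=
      (tendsto_const_nhds.add (ha.add (tendsto_const_nhds.mul hb))).pow n
    have hd : ∀ᶠ t : ℝ in Filter.atTop, (1 + (2 / t + D * (Real.log t / t))) ^ n ≤ 2 := by
      refine (hc.eventually_lt_const ?_).mono fun t ht => ht.le
      simp
    filter_upwards [hd, Filter.eventually_gt_atTop 0] with t h2 h3
    have h4 : t + 2 + D * Real.log t = t * (1 + (2 / t + D * (Real.log t / t))) := by
      field_simp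
      ring
    rw [h4, mul_pow]
    have h5 : 0 ≤ t ^ n := by positivity
    nlinarith
  exact (Real.tendsto_log_atTop.comp tendsto_natCast_atTop_atTop).eventually h1

private theorem aln_az (Q n : ℕ) (h : 3 ≤ n) : (HY.az Q n) ^ 2 ≤ 2 + 2 * (TP.lq Q n) ^ 2 := by
  have hn : (3 : ℝ) ≤ n := by exact_mod_cast h
  have hl : 1 ≤ Real.log n := by
    rw [← Real.log_exp 1]
    apply Real.log_le_log (Real.exp_pos 1)
    linarith [Real.exp_one_lt_d9]
  have hi0 : 0 ≤ HY.il n := by unfold HY.il; positivity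
  have hi1 : HY.il n ≤ 1 := by
    unfold HY.il
    rw [div_le_one (by linarith)]
    exact hl
  have hp0 : 0 ≤ HY.pr n := by unfold HY.pr; split_ifs <;> norm_num
  have hp1 : HY.pr n ≤ 1 := by unfold HY.pr; split_ifs <;> norm_num
  have h2 : (HY.il n * TP.lq Q n) ^ 2 ≤ (TP.lq Q n) ^ 2 := by
    rw [mul_pow]
    have : (HY.il n) ^ 2 ≤ 1 := pow_le_one₀ hi0 hi1
    nlinarith [sq_nonneg (TP.lq Q n)]
  have h3 : (HY.pr n) ^ 2 ≤ 1 := pow_le_one₀ hp0 hp1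
  unfold HY.az
  nlinarith [sq_nonneg (HY.pr n + HY.il n * TP.lq Q n)]

private theorem aln_one (X Q m K Z : ℕ) (hQ : 1 ≤ Q) (hZ : 3 ≤ Z) :
    ∑ k ∈ (Ioc K (K + X)).filter (fun k => Z < k), (HY.az Q (m ^ 3 + k)) ^ 2 ≤
      2 * X + 4 * X * (1 + Real.log Q) ^ 2 + 8 * (Q : ℝ) ^ 4 := by
  have h1 : ∀ k ∈ (Ioc K (K + X)).filter (fun k => Z < k), (HY.az Q (m ^ 3 + k)) ^ 2 ≤
      2 + 2 * (TP.lq Q (m ^ 3 + k)) ^ 2 := by
    intro k hk
    rw [mem_filter] at hk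
    exact aln_az Q _ (by omega)
  refine (sum_le_sum h1).trans ?_
  refine (sum_le_sum_of_subset_of_nonneg (filter_subset _ _) fun _ _ _ => by positivity).trans ?_
  rw [sum_add_distrib, ← mul_sum, sum_const, Nat.card_Ioc, nsmul_eq_mul, Nat.add_sub_cancel_left]
  have h2 := l2s Q (m ^ 3 + K) X hQ
  have h3 : ∑ k ∈ Ioc K (K + X), (TP.lq Q (m ^ 3 + k)) ^ 2 =
      ∑ n ∈ Ioc (m ^ 3 + K) (m ^ 3 + K + X), (TP.lq Q n) ^ 2 := by
    rw [add_assoc, ← Finset.image_add_left_Ioc, sum_image]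
    intro a _ b _ hab
    exact Nat.add_left_cancel hab
  rw [h3]
  nlinarith

private theorem aln_low (hfzs : HY.FzS) (A ε B' D : ℝ) (k0 : ℕ) (hA : 0 < A) (hε : 0 < ε) (hε1 : ε ≤ 1 / 100)
    (hB' : 0 < B') (hD : 0 ≤ D) (hk : (A + D + 2) / 2 + 1 ≤ k0) :
    ∃ X0 : ℕ, ∀ X : ℕ, X0 ≤ X → ∀ Q M Z K : ℕ, 2 ^ 65 * (Real.log X) ^ (24 * k0) ≤ Q →
    (Q : ℝ) ≤ (Real.log X) ^ (25 * k0) → (X : ℝ) ^ ((1 : ℝ) / 18 + ε) ≤ M → M ^ 3 ≤ X →
    (K : ℝ) ≤ X * (Real.log X) ^ D → (X : ℝ) * (Real.log X) ^ (-B') ≤ Z →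
    ∑ k ∈ (Ioc K (K + X)).filter (fun k => Z < k), (∑ m ∈ Icc 1 M, HY.az Q (m ^ 3 + k)) ^ 2 ≤
      X * (M : ℝ) ^ 2 * (Real.log X) ^ (-A) := by
  obtain ⟨X1, hsm⟩ := R.sm hfzs (A + D + 2) (ε / 2) (B' + D + 1) k0 (by linarith) (by linarith)
    (by linarith) hk
  have hev : ∀ᶠ X : ℕ in Filter.atTop, X1 ≤ X ∧ 3 ≤ Real.log X ∧
      3 * (Real.log X) ^ D ≤ (X : ℝ) ^ (ε / 2) ∧
      (Real.log X + 2 + D * Real.log (Real.log X)) ^ (24 * k0) ≤ 2 * (Real.log X) ^ (24 * k0) := by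
    filter_upwards [Filter.eventually_ge_atTop X1, aln_log 3, aln_ev 3 D (ε / 2) (by positivity),
      aln_pow D (24 * k0)] with X h1 h2 h3 h4
    exact ⟨h1, h2, h3, h4⟩
  obtain ⟨X0, hX0⟩ := Filter.eventually_atTop.1 hev
  refine ⟨max X0 1, fun X hX Q M Z K hQ1 hQ2 hM1 hM2 hK hZ => ?_⟩
  obtain ⟨e0, e1, e2, e3⟩ := hX0 X ((le_max_left _ _).trans hX)
  have hX1 : 1 ≤ X := (le_max_right _ _).trans hX
  have hX1R : (1 : ℝ) ≤ X := by exact_mod_cast hX1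
  have hXp : (0 : ℝ) < X := by linarith
  set l : ℝ := Real.log X with hl
  have hl0 : 0 < l := by linarith
  have hl1 : 1 ≤ l := by linarith
  have hlD : 1 ≤ l ^ D := Real.one_le_rpow hl1 hD
  have hXl : (1 : ℝ) ≤ X * l ^ D := one_le_mul_of_one_le_of_one_le hX1R hlD
  -- `X'`
  obtain ⟨X', hX'⟩ : ∃ X' : ℕ, X' = ⌈2 * X * l ^ D⌉₊ := ⟨_, rfl⟩
  have hXa : 2 * X * l ^ D ≤ X' := by rw [hX']; exact Nat.le_ceil _
  have hXb : (X' : ℝ) ≤ 3 * X * l ^ D := by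
    have h1 := Nat.ceil_lt_add_one (show (0 : ℝ) ≤ 2 * X * l ^ D by positivity)
    rw [← hX'] at h1
    nlinarith
  have hXX' : X ≤ X' := by
    have h1 : (X : ℝ) ≤ X' := by nlinarith
    exact_mod_cast h1
  have hXXR : (X : ℝ) ≤ X' := by exact_mod_cast hXX'
  have hX'p : (0 : ℝ) < X' := by linarith
  set l' : ℝ := Real.log X' with hl'
  have hll : l ≤ l' := Real.log_le_log hXp hXXR
  have hl'0 : 0 < l' := by linarith
  have hl'up : l' ≤ l + 2 + D * Real.log l := by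
    have h1 : l' ≤ Real.log (3 * X * l ^ D) := Real.log_le_log hX'p hXb
    have h2 : Real.log (3 * X * l ^ D) = Real.log 3 + l + D * Real.log l := by
      rw [Real.log_mul (by positivity) (by positivity), Real.log_mul (by norm_num) hXp.ne',
        Real.log_rpow hl0]
    have h3 : Real.log 3 ≤ 2 := by
      rw [Real.log_le_iff_le_exp (by norm_num)]
      have := Real.add_one_le_exp (2 : ℝ)
      linarith
    linarith
  have hpw : l' ^ (24 * k0) ≤ 2 * l ^ (24 * k0) :=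
    (pow_le_pow_left₀ hl'0.le hl'up _).trans e3
  have hsub : (Ioc K (K + X)).filter (fun k => Z < k) ⊆ Ioc Z X' := by
    intro k hk
    rw [mem_filter, mem_Ioc] at hk
    rw [mem_Ioc]
    refine ⟨hk.2, ?_⟩
    have h1 : (k : ℝ) ≤ X' := by
      have h2 : (k : ℝ) ≤ K + X := by exact_mod_cast hk.1.2
      nlinarith
    exact_mod_cast h1
  have h1 := hsm X' (e0.trans hXX') Q M Z ?_ ?_ ?_ (hM2.trans hXX') ?_
  · refine (sum_le_sum_of_subset_of_nonneg hsub fun _ _ _ => sq_nonneg _).trans (h1.trans ?_)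
    have h2 : l' ^ (-(A + D + 2)) ≤ l ^ (-(A + D + 2)) :=
      Real.rpow_le_rpow_of_nonpos hl0 hll (by linarith)
    calc (X' : ℝ) * (M : ℝ) ^ 2 * l' ^ (-(A + D + 2))
        ≤ (3 * X * l ^ D) * (M : ℝ) ^ 2 * l ^ (-(A + D + 2)) := by gcongr
      _ = X * (M : ℝ) ^ 2 * (3 * (l ^ D * l ^ (-(A + D + 2)))) := by ring
      _ ≤ X * (M : ℝ) ^ 2 * l ^ (-A) := by
          refine mul_le_mul_of_nonneg_left ?_ (by positivity)
          rw [← Real.rpow_add hl0]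
          have h3 : l ^ (D + -(A + D + 2)) = l ^ (-A) * (l ^ (2 : ℝ))⁻¹ := by
            rw [← Real.rpow_neg hl0.le, ← Real.rpow_add hl0]
            congr 1
            ring
          rw [h3, Real.rpow_two]
          have h4 : 3 * (l ^ 2)⁻¹ ≤ 1 := by
            rw [← div_eq_mul_inv, div_le_one (by positivity)]
            nlinarith
          have h5 : 0 ≤ l ^ (-A) := by positivity
          nlinarith
  · refine le_trans ?_ hQ1
    have h2 : (2 : ℝ) ^ 64 * l' ^ (24 * k0) ≤ 2 ^ 64 * (2 * l ^ (24 * k0)) := by gcongr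
    refine h2.trans (le_of_eq ?_)
    ring
  · exact hQ2.trans (pow_le_pow_left₀ hl0.le hll _)
  · refine le_trans ?_ hM1
    have h2 : (X' : ℝ) ^ ((1 : ℝ) / 18 + ε / 2) ≤ (3 * X * l ^ D) ^ ((1 : ℝ) / 18 + ε / 2) :=
      Real.rpow_le_rpow hX'p.le hXb (by positivity)
    refine h2.trans ?_
    have h3 : (3 * (X : ℝ) * l ^ D) = X * (3 * l ^ D) := by ring
    rw [h3, Real.mul_rpow hXp.le (by positivity)]
    have h4 : (3 * l ^ D) ^ ((1 : ℝ) / 18 + ε / 2) ≤ 3 * l ^ D := by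
      have h5 : (3 * l ^ D) ^ ((1 : ℝ) / 18 + ε / 2) ≤ (3 * l ^ D) ^ (1 : ℝ) :=
        Real.rpow_le_rpow_of_exponent_le (by linarith) (by linarith)
      rwa [Real.rpow_one] at h5
    calc (X : ℝ) ^ ((1 : ℝ) / 18 + ε / 2) * (3 * l ^ D) ^ ((1 : ℝ) / 18 + ε / 2)
        ≤ (X : ℝ) ^ ((1 : ℝ) / 18 + ε / 2) * (X : ℝ) ^ (ε / 2) :=
          mul_le_mul_of_nonneg_left (h4.trans e2) (by positivity)
      _ = (X : ℝ) ^ ((1 : ℝ) / 18 + ε) := by
          rw [← Real.rpow_add hXp]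
          congr 1
          ring
  · refine le_trans ?_ hZ
    have h2 : l' ^ (-(B' + D + 1)) ≤ l ^ (-(B' + D + 1)) :=
      Real.rpow_le_rpow_of_nonpos hl0 hll (by linarith)
    calc (X' : ℝ) * l' ^ (-(B' + D + 1)) ≤ (3 * X * l ^ D) * l ^ (-(B' + D + 1)) := by gcongr
      _ = X * (3 * (l ^ D * l ^ (-(B' + D + 1)))) := by ring
      _ ≤ X * l ^ (-B') := by
          refine mul_le_mul_of_nonneg_left ?_ hXp.le
          rw [← Real.rpow_add hl0]
          have h3 : l ^ (D + -(B' + D + 1)) = l ^ (-B') * l⁻¹ := by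
            rw [← Real.rpow_neg_one, ← Real.rpow_add hl0]
            congr 1
            ring
          rw [h3]
          have h4 : 3 * l⁻¹ ≤ 1 := by
            rw [← div_eq_mul_inv, div_le_one hl0]
            exact e1
          have h5 : 0 ≤ l ^ (-B') := by positivity
          nlinarith

private theorem aln_tri (s : Finset ℕ) (f g : ℕ → ℝ) (a b : ℝ) (ha : 0 ≤ a) (hb : 0 ≤ b)
    (hf : ∑ k ∈ s, f k ^ 2 ≤ a ^ 2) (hg : ∑ k ∈ s, g k ^ 2 ≤ b ^ 2) :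
    ∑ k ∈ s, (f k + g k) ^ 2 ≤ (a + b) ^ 2 := by
  have h1 := Finset.sum_mul_sq_le_sq_mul_sq s f g
  have h2 : (∑ k ∈ s, f k * g k) ^ 2 ≤ (a * b) ^ 2 := by
    rw [mul_pow]
    exact h1.trans (mul_le_mul hf hg (sum_nonneg fun _ _ => sq_nonneg _) (sq_nonneg _))
  have h3 : ∑ k ∈ s, f k * g k ≤ a * b := (abs_le_of_sq_le_sq' h2 (mul_nonneg ha hb)).2
  have h4 : ∑ k ∈ s, (f k + g k) ^ 2 =
      ∑ k ∈ s, f k ^ 2 + 2 * ∑ k ∈ s, f k * g k + ∑ k ∈ s, g k ^ 2 := by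
    rw [mul_sum, ← sum_add_distrib, ← sum_add_distrib]
    exact sum_congr rfl fun k _ => by ring
  rw [h4]
  nlinarith

/-- many terms, each of norm at most `E` -/
private theorem aln_many (F : ℕ → ℕ → ℝ) (s : Finset ℕ) (E : ℝ) (hE : 0 ≤ E)
    (h1 : ∀ m : ℕ, ∑ k ∈ s, (F m k) ^ 2 ≤ E ^ 2) (N : ℕ) :
    ∑ k ∈ s, (∑ m ∈ Icc 1 N, F m k) ^ 2 ≤ (N * E) ^ 2 := by
  induction N with
  | zero => simp
  | succ N ih =>
    have h4 : ∀ k, ∑ m ∈ Icc 1 (N + 1), F m k = ∑ m ∈ Icc 1 N, F m k + F (N + 1) k := by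
      intro k
      rw [sum_Icc_succ_top (by omega)]
    simp only [h4]
    refine (aln_tri s _ _ _ _ (by positivity) hE ih (h1 (N + 1))).trans (le_of_eq ?_)
    push_cast
    ring

private theorem aln_ind (F : ℕ → ℕ → ℝ) (s : Finset ℕ) (X M : ℕ) (c E1 E2 tr : ℝ) (hc : 0 ≤ c)
    (hE1 : 0 ≤ E1) (hE2 : 0 ≤ E2)
    (hlow : ∀ N : ℕ, N ≤ M → ((N : ℝ) ≤ tr ∨ N ^ 3 ≤ X) →
      ∑ k ∈ s, (∑ m ∈ Icc 1 N, F m k) ^ 2 ≤ (c * N + E1) ^ 2)
    (hlg : ∀ N : ℕ, N ≤ M → tr < N → X ≤ 8 * (N / 2) ^ 3 →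
      ∑ k ∈ s, (∑ m ∈ Ioc (N / 2) N, F m k) ^ 2 ≤ (c * (N / 2 : ℕ)) ^ 2)
    (h1 : ∀ m : ℕ, ∑ k ∈ s, (F m k) ^ 2 ≤ E2 ^ 2) :
    ∀ N : ℕ, N ≤ M → ∑ k ∈ s, (∑ m ∈ Icc 1 N, F m k) ^ 2 ≤ (c * N + E1 + E2) ^ 2 := by
  intro N
  induction N using Nat.strong_induction_on with
  | _ N ih =>
    intro hNM
    have hcN : 0 ≤ c * (N : ℝ) := by positivity
    by_cases hN : (N : ℝ) ≤ tr ∨ N ^ 3 ≤ X
    · refine (hlow N hNM hN).trans ?_
      exact pow_le_pow_left₀ (by linarith) (by linarith) 2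
    · push Not at hN
      obtain ⟨hN1, hN2⟩ := hN
      have hM0 : 1 ≤ N := by
        rcases Nat.eq_zero_or_pos N with h | h
        · subst h
          simp at hN2
        · exact h
      by_cases h8 : X ≤ 8 * (N / 2) ^ 3
      · have hlt : N / 2 < N := by omega
        have h2 := ih (N / 2) hlt (by omega)
        have h3 := hlg N hNM hN1 h8
        have h4 : ∀ k, ∑ m ∈ Icc 1 N, F m k =
            ∑ m ∈ Icc 1 (N / 2), F m k + ∑ m ∈ Ioc (N / 2) N, F m k := by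
          intro k
          rw [← sum_union]
          · refine sum_congr ?_ fun _ _ => rfl
            ext x
            simp only [mem_union, mem_Icc, mem_Ioc]
            omega
          · rw [disjoint_left]
            intro x hx hx'
            rw [mem_Icc] at hx
            rw [mem_Ioc] at hx'
            omega
        simp only [h4]
        have hcM : 0 ≤ c * ((N / 2 : ℕ) : ℝ) := by positivity
        refine (aln_tri s _ _ _ _ (by linarith) hcM h2 h3).trans ?_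
        have h5 : 2 * ((N / 2 : ℕ) : ℝ) ≤ N := by
          have : 2 * (N / 2) ≤ N := by omega
          exact_mod_cast this
        refine pow_le_pow_left₀ (by linarith) ?_ 2
        have h6 := mul_le_mul_of_nonneg_left h5 hc
        linarith
      · push Not at h8
        obtain ⟨N', rfl⟩ : ∃ N', N = N' + 1 := ⟨N - 1, by omega⟩
        have hN : N' ^ 3 ≤ X := by
          have h2 : N' ≤ 2 * ((N' + 1) / 2) := by omega
          have h3 := Nat.pow_le_pow_left h2 3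
          have h4 : (2 * ((N' + 1) / 2)) ^ 3 = 8 * ((N' + 1) / 2) ^ 3 := by ring
          omega
        have h2 := hlow N' (by omega) (Or.inr hN)
        have h3 := h1 (N' + 1)
        have h4 : ∀ k, ∑ m ∈ Icc 1 (N' + 1), F m k = ∑ m ∈ Icc 1 N', F m k + F (N' + 1) k := by
          intro k
          rw [sum_Icc_succ_top (by omega)]
        simp only [h4]
        have hcM : 0 ≤ c * (N' : ℝ) := by positivity
        refine (aln_tri s _ _ _ _ (by linarith) hE2 h2 h3).trans ?_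
        refine pow_le_pow_left₀ (by linarith) ?_ 2
        push_cast
        nlinarith

theorem aln (hfzs : HY.FzS) (A ε B' : ℝ) (k0 : ℕ) (hA : 0 < A) (hε : 0 < ε) (hε1 : ε ≤ 1 / 100) (hB' : 0 < B')
    (hk0 : 4 * A + 30 ≤ k0) :
    ∃ X0 : ℕ, ∀ X : ℕ, X0 ≤ X → ∀ Q M Z K : ℕ, 2 ^ 65 * (Real.log X) ^ (24 * k0) ≤ Q →
    (Q : ℝ) ≤ (Real.log X) ^ (25 * k0) → (X : ℝ) ^ ((1 : ℝ) / 18 + ε) ≤ M →
    (M : ℝ) ^ 2 * (Real.log X) ^ (6 * k0 + 1) ≤ X → K ≤ M ^ 3 →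
    (X : ℝ) * (Real.log X) ^ (-B') ≤ Z →
    ∑ k ∈ (Ioc K (K + X)).filter (fun k => Z < k), (∑ m ∈ Icc 1 M, HY.az Q (m ^ 3 + k)) ^ 2 ≤
      X * (M : ℝ) ^ 2 * (Real.log X) ^ (-A) := by
  obtain ⟨a, ha⟩ : ∃ a : ℝ, a = (A + 4) / 2 := ⟨_, rfl⟩
  have ha0 : 0 < a := by rw [ha]; linarith
  obtain ⟨D, hD⟩ : ∃ D : ℝ, D = 3 * a + 1 := ⟨_, rfl⟩
  have hD0 : 0 ≤ D := by rw [hD]; linarith
  obtain ⟨X1, hlowX⟩ := aln_low hfzs (A + 4) ε B' D k0 (by linarith) hε hε1 hB' hD0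
    (by rw [hD, ha]; linarith)
  obtain ⟨X2, hlgX⟩ := lgn hfzs (A + 4) D k0 (by linarith) hD0 (by rw [hD, ha]; linarith)
  have hev : ∀ᶠ X : ℕ in Filter.atTop, X1 ≤ X ∧ X2 ≤ X ∧ 27 ≤ Real.log X ∧
      1 * (Real.log X) ^ a ≤ (X : ℝ) ^ ((1 : ℝ) / 18) ∧
      3 * (Real.log X) ^ B' ≤ (X : ℝ) ^ (1 : ℝ) ∧
      8 * (1 + (25 * k0 : ℕ) * Real.log (Real.log X)) ^ 2 + 4 ≤ Real.log X / 2 ∧
      16 * (Real.log X) ^ ((100 * k0 : ℕ) : ℝ) ≤ (X : ℝ) ^ (1 : ℝ) := by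
    filter_upwards [Filter.eventually_ge_atTop X1, Filter.eventually_ge_atTop X2, aln_log 27,
      aln_ev 1 a ((1 : ℝ) / 18) (by norm_num), aln_ev 3 B' 1 one_pos,
      aln_loglog ((25 * k0 : ℕ) : ℝ), aln_ev 16 ((100 * k0 : ℕ) : ℝ) 1 one_pos]
      with X h1 h2 h3 h4 h5 h6 h7
    exact ⟨h1, h2, h3, h4, h5, h6, h7⟩
  obtain ⟨X0, hX0⟩ := Filter.eventually_atTop.1 hev
  refine ⟨max X0 1, fun X hX Q M Z K hQ1 hQ2 hM1 hM2 hK hZ => ?_⟩
  obtain ⟨e0, e0', e1, e2, e4, e5, e6⟩ := hX0 X ((le_max_left _ _).trans hX)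
  have hX1n : 1 ≤ X := (le_max_right _ _).trans hX
  have hX1 : (1 : ℝ) ≤ X := by exact_mod_cast hX1n
  have hXp : (0 : ℝ) < X := by linarith
  rw [Real.rpow_natCast] at e6
  rw [Real.rpow_one] at e4 e6
  rw [one_mul] at e2
  set l : ℝ := Real.log X with hl
  have hl0 : 0 < l := by linarith
  have hl1 : 1 ≤ l := by linarith
  have hlD : 1 ≤ l ^ D := Real.one_le_rpow hl1 hD0
  have hla : 1 ≤ l ^ a := Real.one_le_rpow hl1 ha0.le
  have hla' : 0 < l ^ (-a) := Real.rpow_pos_of_pos hl0 _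
  have hMl : (X : ℝ) ^ ((1 : ℝ) / 18) ≤ M := by
    refine le_trans ?_ hM1
    exact Real.rpow_le_rpow_of_exponent_le hX1 (by linarith)
  have haM : l ^ a ≤ M := e2.trans hMl
  have hM1' : (1 : ℝ) ≤ M := hla.trans haM
  have hQ1' : (1 : ℝ) ≤ Q := by
    refine le_trans ?_ hQ1
    have : 1 ≤ l ^ (24 * k0) := one_le_pow₀ hl1
    nlinarith
  have hQn : 1 ≤ Q := by exact_mod_cast hQ1'
  have hQp : (0 : ℝ) < Q := by linarith
  have hQ64 : 2 ^ 64 * l ^ (24 * k0) ≤ (Q : ℝ) := by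
    refine le_trans ?_ hQ1
    refine mul_le_mul_of_nonneg_right (by norm_num) (by positivity)
  have hZ3 : 3 ≤ Z := by
    have h1 : (3 : ℝ) ≤ X * l ^ (-B') := by
      rw [Real.rpow_neg hl0.le, ← div_eq_mul_inv, le_div_iff₀ (by positivity)]
      exact e4
    exact_mod_cast h1.trans hZ
  -- one value of `m`
  have hlogQ : Real.log Q ≤ (25 * k0 : ℕ) * Real.log l := by
    rw [← Real.log_pow]
    exact Real.log_le_log hQp hQ2
  have hlogQ0 : 0 ≤ Real.log Q := Real.log_nonneg hQ1'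
  have hone : ∀ m : ℕ, ∑ k ∈ (Ioc K (K + X)).filter (fun k => Z < k),
      (HY.az Q (m ^ 3 + k)) ^ 2 ≤ X * l := by
    intro m
    refine (aln_one X Q m K Z hQn hZ3).trans ?_
    have h1 : (1 + Real.log Q) ^ 2 ≤ (1 + (25 * k0 : ℕ) * Real.log l) ^ 2 := by
      apply pow_le_pow_left₀ (by linarith)
      linarith
    have h2 : (Q : ℝ) ^ 4 ≤ l ^ (100 * k0) := by
      calc (Q : ℝ) ^ 4 ≤ (l ^ (25 * k0)) ^ 4 := by gcongr
        _ = l ^ (100 * k0) := by rw [← pow_mul]; congr 1; ring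
    have h3 : 8 * (Q : ℝ) ^ 4 ≤ X / 2 := by linarith
    have h4 : (X : ℝ) / 2 ≤ X * l / 2 := by nlinarith
    have h5 : X * (8 * (1 + Real.log Q) ^ 2 + 4) ≤ X * (l / 2) := by
      apply mul_le_mul_of_nonneg_left _ hXp.le
      linarith
    nlinarith [mul_nonneg hXp.le (sq_nonneg (1 + Real.log Q))]
  -- the constants
  obtain ⟨c, hc⟩ : ∃ c : ℝ, c = √X * l ^ (-a) := ⟨_, rfl⟩
  obtain ⟨E1, hE1⟩ : ∃ E1 : ℝ, E1 = √X * M * l ^ (-a + 1 / 2) := ⟨_, rfl⟩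
  obtain ⟨E2, hE2⟩ : ∃ E2 : ℝ, E2 = √X * l ^ ((1 : ℝ) / 2) := ⟨_, rfl⟩
  obtain ⟨tr, htr⟩ : ∃ tr : ℝ, tr = M * l ^ (-a) := ⟨_, rfl⟩
  have hc0 : 0 ≤ c := by rw [hc]; positivity
  have hE10 : 0 ≤ E1 := by rw [hE1]; positivity
  have hE20 : 0 ≤ E2 := by rw [hE2]; positivity
  have hsX : √(X : ℝ) ^ 2 = X := Real.sq_sqrt hXp.le
  have hc2 : c ^ 2 = X * l ^ (-(A + 4)) := by
    rw [hc, mul_pow, hsX, ← Real.rpow_natCast, ← Real.rpow_mul hl0.le]
    congr 2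
    rw [ha]
    push_cast
    ring
  have hE22 : E2 ^ 2 = X * l := by
    rw [hE2, mul_pow, hsX, ← Real.rpow_natCast, ← Real.rpow_mul hl0.le]
    norm_num
  have hla3 : l ^ (3 * a) = (l ^ a) ^ 3 := by
    rw [← Real.rpow_natCast, ← Real.rpow_mul hl0.le]
    congr 1
    push_cast
    ring
  have htrN : ∀ N : ℕ, tr < N → (M : ℝ) ≤ N * l ^ a := by
    intro N hN
    rw [htr, Real.rpow_neg hl0.le, ← div_eq_mul_inv, div_lt_iff₀ (by positivity)] at hN
    exact hN.le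
  have hKN : ∀ N : ℕ, tr < N → (K : ℝ) ≤ (N : ℝ) ^ 3 * l ^ (3 * a) := by
    intro N hN
    have h1 : (K : ℝ) ≤ (M : ℝ) ^ 3 := by exact_mod_cast hK
    refine h1.trans ?_
    rw [hla3, ← mul_pow]
    exact pow_le_pow_left₀ (by positivity) (htrN N hN) 3
  have hlDa : l ^ D = l ^ (3 * a) * l := by
    rw [hD, Real.rpow_add hl0, Real.rpow_one]
  have hl3a : 0 < l ^ (3 * a) := Real.rpow_pos_of_pos hl0 _
  by_cases hMX : M ^ 3 ≤ X
  · have h1 := hlowX X e0 Q M Z K hQ1 hQ2 hM1 hMX (by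
      have h2 : (K : ℝ) ≤ X := by exact_mod_cast hK.trans hMX
      nlinarith) hZ
    refine h1.trans ?_
    refine mul_le_mul_of_nonneg_left ?_ (by positivity)
    exact Real.rpow_le_rpow_of_exponent_le hl1 (by linarith)
  · push Not at hMX
    have hMX' : (X : ℝ) ≤ (M : ℝ) ^ 3 := by exact_mod_cast hMX.le
    have hM13 : (X : ℝ) ^ ((1 : ℝ) / 3) ≤ M := by
      have h1 : ((X : ℝ) ^ ((1 : ℝ) / 3)) ^ 3 = X := by
        rw [← Real.rpow_natCast, ← Real.rpow_mul hXp.le]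
        norm_num
      by_contra hcon
      push Not at hcon
      have h2 := pow_lt_pow_left₀ hcon (by positivity) (by norm_num : 3 ≠ 0)
      rw [h1] at h2
      linarith
    have htrX : (X : ℝ) ^ ((1 : ℝ) / 18 + ε) ≤ tr := by
      rw [htr, Real.rpow_neg hl0.le, ← div_eq_mul_inv, le_div_iff₀ (by positivity)]
      refine le_trans ?_ hM13
      calc (X : ℝ) ^ ((1 : ℝ) / 18 + ε) * l ^ a
          ≤ (X : ℝ) ^ ((1 : ℝ) / 18 + ε) * (X : ℝ) ^ ((1 : ℝ) / 18) :=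
            mul_le_mul_of_nonneg_left e2 (by positivity)
        _ = (X : ℝ) ^ ((1 : ℝ) / 18 + ε + 1 / 18) := (Real.rpow_add hXp _ _).symm
        _ ≤ (X : ℝ) ^ ((1 : ℝ) / 3) := Real.rpow_le_rpow_of_exponent_le hX1 (by linarith)
    have key := aln_ind (fun m k => HY.az Q (m ^ 3 + k))
      ((Ioc K (K + X)).filter (fun k => Z < k)) X M c E1 E2 tr hc0 hE10 hE20 ?_ ?_ ?_ M le_rfl
    · refine key.trans ?_
      have g1 : c * M ≤ √X * M * l ^ (-a + 1 / 2) := by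
        rw [hc]
        have h1 : l ^ (-a) ≤ l ^ (-a + 1 / 2) :=
          Real.rpow_le_rpow_of_exponent_le hl1 (by linarith)
        have h2 : √(X : ℝ) * l ^ (-a) * M = √X * M * l ^ (-a) := by ring
        rw [h2]
        exact mul_le_mul_of_nonneg_left h1 (by positivity)
      have g2 : E2 ≤ √X * M * l ^ (-a + 1 / 2) := by
        rw [hE2, Real.rpow_add hl0]
        have h1 : 1 ≤ M * l ^ (-a) := by
          rw [Real.rpow_neg hl0.le, ← div_eq_mul_inv, one_le_div (by positivity)]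
          exact haM
        have h2 : √(X : ℝ) * M * (l ^ (-a) * l ^ ((1 : ℝ) / 2)) =
            √X * l ^ ((1 : ℝ) / 2) * (M * l ^ (-a)) := by ring
        rw [h2]
        exact le_mul_of_one_le_right (by positivity) h1
      have g3 : (c * M + E1 + E2) ^ 2 ≤ (3 * (√X * M * l ^ (-a + 1 / 2))) ^ 2 := by
        refine pow_le_pow_left₀ (by positivity) ?_ 2
        rw [hE1]
        linarith
      refine g3.trans ?_
      have g4 : (3 * (√X * M * l ^ (-a + 1 / 2))) ^ 2 =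
          X * (M : ℝ) ^ 2 * (9 * l ^ (-(A + 3))) := by
        rw [mul_pow, mul_pow, mul_pow, hsX, ← Real.rpow_natCast (l ^ (-a + 1 / 2)),
          ← Real.rpow_mul hl0.le]
        have h1 : (-a + 1 / 2) * ((2 : ℕ) : ℝ) = -(A + 3) := by
          rw [ha]
          push_cast
          ring
        rw [h1]
        ring
      rw [g4]
      refine mul_le_mul_of_nonneg_left ?_ (by positivity)
      have h3 : l ^ (-(A + 3)) = l ^ (-A) * (l ^ 3)⁻¹ := by
        rw [← Real.rpow_natCast, ← Real.rpow_neg hl0.le, ← Real.rpow_add hl0]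
        congr 1
        push_cast
        ring
      rw [h3]
      have h4 : 9 * (l ^ 3)⁻¹ ≤ 1 := by
        rw [← div_eq_mul_inv, div_le_one (by positivity)]
        have h5 : (27 : ℝ) ^ 3 ≤ l ^ 3 := pow_le_pow_left₀ (by norm_num) e1 3
        linarith
      have h5 : 0 ≤ l ^ (-A) := by positivity
      nlinarith
    · intro N hNM hN
      by_cases hN1 : (N : ℝ) ≤ tr
      · refine (aln_many _ _ E2 hE20 (fun m => by rw [hE22]; exact hone m) N).trans ?_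
        have h1 : (N : ℝ) * E2 ≤ E1 := by
          have h2 : (N : ℝ) * E2 ≤ tr * E2 := mul_le_mul_of_nonneg_right hN1 hE20
          refine h2.trans (le_of_eq ?_)
          rw [htr, hE2, hE1, Real.rpow_add hl0]
          ring
        refine pow_le_pow_left₀ (by positivity) ?_ 2
        have h3 : 0 ≤ c * N := by positivity
        linarith
      · have hNX : N ^ 3 ≤ X := hN.resolve_left hN1
        push Not at hN1
        have hNXR : (N : ℝ) ^ 3 ≤ X := by exact_mod_cast hNX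
        refine (hlowX X e0 Q N Z K hQ1 hQ2 (htrX.trans hN1.le) hNX ?_ hZ).trans ?_
        · refine (hKN N hN1).trans ?_
          rw [hlDa]
          calc (N : ℝ) ^ 3 * l ^ (3 * a) ≤ X * l ^ (3 * a) :=
                mul_le_mul_of_nonneg_right hNXR hl3a.le
            _ ≤ X * (l ^ (3 * a) * l) := by
                refine mul_le_mul_of_nonneg_left ?_ hXp.le
                exact le_mul_of_one_le_right hl3a.le hl1
        · have h1 : (X : ℝ) * (N : ℝ) ^ 2 * l ^ (-(A + 4)) = (c * N) ^ 2 := by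
            rw [mul_pow, hc2]
            ring
          rw [h1]
          have h3 : 0 ≤ c * N := by positivity
          exact pow_le_pow_left₀ h3 (by linarith) 2
    · intro N hNM hN1 h8
      have hN2 : 1 ≤ N / 2 := by
        rcases Nat.eq_zero_or_pos (N / 2) with h | h
        · rw [h] at h8
          simp at h8
          omega
        · exact h
      have hN3 : N ≤ 3 * (N / 2) := by omega
      have hN3R : (N : ℝ) ≤ 3 * ((N / 2 : ℕ) : ℝ) := by exact_mod_cast hN3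
      have hN2M : ((N / 2 : ℕ) : ℝ) ≤ M := by
        have : N / 2 ≤ M := by omega
        exact_mod_cast this
      refine (sum_le_sum_of_subset_of_nonneg (filter_subset _ _)
        fun _ _ _ => sq_nonneg _).trans ?_
      refine (hlgX X e0' Q (N / 2) N K hQ64 hQ2 h8 ?_ ?_ (by omega) (by omega)).trans ?_
      · refine le_trans ?_ hM2
        refine mul_le_mul_of_nonneg_right ?_ (by positivity)
        exact pow_le_pow_left₀ (by positivity) hN2M 2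
      · refine (hKN N hN1).trans ?_
        rw [hlDa]
        have h1 : (N : ℝ) ^ 3 ≤ 27 * ((N / 2 : ℕ) : ℝ) ^ 3 := by
          calc (N : ℝ) ^ 3 ≤ (3 * ((N / 2 : ℕ) : ℝ)) ^ 3 :=
                pow_le_pow_left₀ (by positivity) hN3R 3
            _ = 27 * ((N / 2 : ℕ) : ℝ) ^ 3 := by ring
        calc (N : ℝ) ^ 3 * l ^ (3 * a) ≤ (27 * ((N / 2 : ℕ) : ℝ) ^ 3) * l ^ (3 * a) :=
              mul_le_mul_of_nonneg_right h1 hl3a.le
          _ = ((N / 2 : ℕ) : ℝ) ^ 3 * (l ^ (3 * a) * 27) := by ring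
          _ ≤ ((N / 2 : ℕ) : ℝ) ^ 3 * (l ^ (3 * a) * l) := by
              refine mul_le_mul_of_nonneg_left ?_ (by positivity)
              exact mul_le_mul_of_nonneg_left e1 hl3a.le
      · refine le_of_eq ?_
        rw [mul_pow, hc2]
        ring
    · intro m
      rw [hE22]
      exact hone m

end Pool.Agent.H12.HQ
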