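import Pool.Agent.H12.HQ.Defs
import Pool.Agent.H43.TP.Gal

/-!
# [H12 HQ EBD] Gallagher's lemma for the Weyl sum

PROOF. `TP.gal` for `a n = Σ_{m ∈ (Ioc M M').filter (m^3 = n)} e(m^3 x)`, with `L`, `N`, `q = 1`, `b = 0`, `h := H` and `E` = the image of `range T` under
`Nat.cast : ℕ → ZMod N` (injective on `range T`, `T <= N`): `al N (j : ZMod N) = j/N` for `j < T <= N` (`ZMod.val_cast_of_lt`, `j < N`; for `T = N`
still `j < N`), `|j/N - 0/1 - 0| <= 1/(6H)` (`6HT <= N`). `Ex a L β = Σ_{n ∈ Icc 1 L} a n e(nβ) = Σ_{m ∈ Ioc M M'} e(m^3 x) e(m^3 β) = Cq M M' (x+β)` (`1 <= m^3 <= L`;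
`sum_fiberwise_of_maps_to`). The right side of `gal` at `y`: `Σ_{n ∈ (y-H,y], n<=L} a n e(n (0/1)) = Σ_{m : y-H < m^3 <= y} e(m^3 x)`, so it is `Wq`.
-/

namespace Pool.Agent.H12.HQ

open Finset Pool.Agent.H26.LDP Pool.Agent.H43.TP

theorem ebd (M M' L H T N : ℕ) [NeZero N] (hL : M' ^ 3 ≤ L) (hH : 1 ≤ H) (hTN : T ≤ N)
    (hN : L + H + 1 ≤ N) (hHT : 6 * H * T ≤ N) (x : ℝ) :
    (H : ℝ) ^ 2 * ∑ j ∈ range T, ‖Cq M M' (x + (j : ℝ) / N)‖ ^ 2 ≤ 4 * N * Wq M M' L H x := by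
  classical
  let a : ℕ → ℂ := fun n => ∑ m ∈ (Ioc M M').filter (fun m => m ^ 3 = n), e ((m : ℝ) ^ 3 * x)
  have hN0 : (0 : ℝ) < N := by
    have : 0 < N := Nat.pos_of_ne_zero (NeZero.ne N)
    exact_mod_cast this
  have hinj : Set.InjOn (fun j : ℕ => (j : ZMod N)) (range T : Set ℕ) := by
    intro j hj j' hj' h
    rw [mem_coe, mem_range] at hj hj'
    have h1 := congrArg ZMod.val h
    simp only at h1
    rwa [ZMod.val_cast_of_lt (by omega), ZMod.val_cast_of_lt (by omega)] at h1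
  have hal : ∀ j ∈ range T, al N (j : ZMod N) = (j : ℝ) / N := by
    intro j hj
    rw [mem_range] at hj
    unfold al
    rw [ZMod.val_cast_of_lt (by omega)]
  have hmem : ∀ m ∈ Ioc M M', m ^ 3 ∈ Icc 1 L := by
    intro m hm
    rw [mem_Ioc] at hm
    rw [mem_Icc]
    exact ⟨Nat.one_le_pow _ _ (by omega), (Nat.pow_le_pow_left hm.2 3).trans hL⟩
  have hEx : ∀ β : ℝ, Ex a L β = Cq M M' (x + β) := by
    intro β
    unfold Ex Cq
    have h1 : ∀ n ∈ Icc 1 L, a n * e ((n : ℝ) * β) =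
        ∑ m ∈ (Ioc M M').filter (fun m => m ^ 3 = n), e ((m : ℝ) ^ 3 * (x + β)) := by
      intro n _
      show (∑ m ∈ (Ioc M M').filter (fun m => m ^ 3 = n), e ((m : ℝ) ^ 3 * x)) * _ = _
      rw [sum_mul]
      refine sum_congr rfl fun m hm => ?_
      rw [mem_filter] at hm
      rw [← e_add, ← hm.2]
      congr 1
      push_cast
      ring
    rw [sum_congr rfl h1]
    exact sum_fiberwise_of_maps_to hmem _
  have hmain := gal a L N 1 0 H le_rfl hH hN ((range T).image (fun j : ℕ => (j : ZMod N))) (by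
    intro t ht
    rw [mem_image] at ht
    obtain ⟨j, hj, rfl⟩ := ht
    refine ⟨0, ?_⟩
    rw [hal j hj]
    rw [mem_range] at hj
    have h1 : (j : ℝ) / N - ((0 : ℕ) : ℝ) / ((1 : ℕ) : ℝ) - ((0 : ℤ) : ℝ) = (j : ℝ) / N := by
      push_cast
      ring
    rw [h1, abs_of_nonneg (by positivity)]
    have hH0 : (0 : ℝ) < H := by exact_mod_cast hH
    rw [div_le_div_iff₀ hN0 (by positivity), one_mul]
    have h2 : 6 * H * j ≤ N := by
      have h3 : 6 * H * j ≤ 6 * H * T := Nat.mul_le_mul_left _ hj.le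
      omega
    have h3 : (6 : ℝ) * H * j ≤ N := by exact_mod_cast h2
    linarith)
  rw [sum_image hinj] at hmain
  have h1 : ∑ j ∈ range T, ‖Ex a L (al N (j : ZMod N))‖ ^ 2 =
      ∑ j ∈ range T, ‖Cq M M' (x + (j : ℝ) / N)‖ ^ 2 :=
    sum_congr rfl fun j hj => by rw [hal j hj, hEx]
  rw [h1] at hmain
  refine hmain.trans (le_of_eq ?_)
  unfold Wq
  congr 1
  refine sum_congr rfl fun y _ => ?_
  congr 2
  have h2 : ∀ n ∈ (Ioc (y - H) y).filter (fun n => n ≤ L),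
      a n * e ((n : ℝ) * (((0 : ℕ) : ℝ) / ((1 : ℕ) : ℝ))) = a n := by
    intro n _
    have h3 : (n : ℝ) * (((0 : ℕ) : ℝ) / ((1 : ℕ) : ℝ)) = 0 := by
      push_cast
      ring
    rw [h3, e_zero, mul_one]
  rw [sum_congr rfl h2]
  show ∑ n ∈ (Ioc (y - H) y).filter (fun n => n ≤ L),
    ∑ m ∈ (Ioc M M').filter (fun m => m ^ 3 = n), e ((m : ℝ) ^ 3 * x) = _
  rw [sum_fiberwise_eq_sum_filter]
  refine sum_congr ?_ fun _ _ => rfl
  ext m
  rw [mem_filter, mem_filter, mem_filter, mem_Ioc (a := y - H)]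
  constructor
  · rintro ⟨h3, ⟨h4, -⟩⟩
    exact ⟨h3, h4⟩
  · rintro ⟨h3, h4⟩
    exact ⟨h3, h4, (mem_Icc.1 (hmem m h3)).2⟩

end Pool.Agent.H12.HQ
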