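import Pool.Agent.H43.LR.Weyl

/-!
# Many large quadratic sums force a rational approximation

If for many `h <= H` some sum `Σ_{m<=n_h} e(((b+m+h)^3-(b+m)^3) x)` of length `n_h <= M` has modulus `>= κ M`, then
`x` is within about `1/(M^2 H)` of a rational number with small denominator: Weyl's inequality for each `h`
(`LR/Weyl.lean`, `inner`), then a pigeonhole argument and the recurrence lemma `recur` over `h <= H`.
-/

namespace Pool.Agent.H12.HQ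

open Finset Pool.Agent.H26.LDP

/-- Many of the summands are large. -/
private theorem popular (M n : ℕ) (hn : n ≤ M) (B : ℕ → ℝ) (hB : ∀ h ∈ Icc 1 n, B h ≤ M) (κ : ℝ)
    (hκ : 0 < κ) (hM : 2 ≤ κ ^ 2 * (M : ℝ))
    (h : κ ^ 2 * (M : ℝ) ^ 2 ≤ M + 2 * ∑ h ∈ Icc 1 n, B h) :
    κ ^ 2 / 8 * (M : ℝ) ≤ (((Icc 1 n).filter (fun h => κ ^ 2 / 8 * (M : ℝ) ≤ B h)).card : ℝ) := by
  have hM0 : (0 : ℝ) < M := by
    by_contra hcon
    have : (M : ℝ) = 0 := le_antisymm (not_lt.mp hcon) (Nat.cast_nonneg M)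
    rw [this] at hM
    linarith
  have h1 : ∑ h ∈ Icc 1 n, B h ≤
      (((Icc 1 n).filter (fun h => κ ^ 2 / 8 * (M : ℝ) ≤ B h)).card : ℝ) * M
        + (n : ℝ) * (κ ^ 2 / 8 * M) := by
    rw [← sum_filter_add_sum_filter_not (Icc 1 n) (fun h => κ ^ 2 / 8 * (M : ℝ) ≤ B h)]
    apply add_le_add
    · calc ∑ h ∈ (Icc 1 n).filter (fun h => κ ^ 2 / 8 * (M : ℝ) ≤ B h), B h
          ≤ ∑ _h ∈ (Icc 1 n).filter (fun h => κ ^ 2 / 8 * (M : ℝ) ≤ B h), (M : ℝ) :=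
            sum_le_sum fun h hh => hB h (mem_filter.mp hh).1
        _ = _ := by rw [sum_const, nsmul_eq_mul]
    · calc ∑ h ∈ (Icc 1 n).filter (fun h => ¬ κ ^ 2 / 8 * (M : ℝ) ≤ B h), B h
          ≤ ∑ _h ∈ (Icc 1 n).filter (fun h => ¬ κ ^ 2 / 8 * (M : ℝ) ≤ B h), (κ ^ 2 / 8 * M) :=
            sum_le_sum fun h hh => (not_le.mp (mem_filter.mp hh).2).le
        _ = (((Icc 1 n).filter (fun h => ¬ κ ^ 2 / 8 * (M : ℝ) ≤ B h)).card : ℝ)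
              * (κ ^ 2 / 8 * M) := by rw [sum_const, nsmul_eq_mul]
        _ ≤ (n : ℝ) * (κ ^ 2 / 8 * M) := by
            apply mul_le_mul_of_nonneg_right _ (by positivity)
            have := card_filter_le (Icc 1 n) (fun h => ¬ κ ^ 2 / 8 * (M : ℝ) ≤ B h)
            rw [Nat.card_Icc, Nat.add_sub_cancel] at this
            exact_mod_cast this
  have h2 : (n : ℝ) * (κ ^ 2 / 8 * M) ≤ (M : ℝ) * (κ ^ 2 / 8 * M) := by
    apply mul_le_mul_of_nonneg_right _ (by positivity)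
    exact_mod_cast hn
  have h3 : 2 * (M : ℝ) ≤ κ ^ 2 * M * M := mul_le_mul_of_nonneg_right hM hM0.le
  have h4 : κ ^ 2 / 8 * (M : ℝ) * M ≤
      (((Icc 1 n).filter (fun h => κ ^ 2 / 8 * (M : ℝ) ≤ B h)).card : ℝ) * M := by
    nlinarith
  exact le_of_mul_le_mul_right h4 hM0

/-- A large sum of a quadratic phase. -/
private theorem qinner (b n M : ℕ) (hn : n ≤ M) (x k1 k2 : ℝ) (hk1 : 0 < k1) (hk2 : k2 = k1 ^ 2 / 8)
    (c1 : 2 ≤ k1 ^ 2 * (M : ℝ)) (c2 : 8 ≤ k2 ^ 2 * (M : ℝ)) (c3 : 2 ≤ k2 * (M : ℝ)) (h : ℕ)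
    (hh : k1 * M ≤ ‖∑ m ∈ Icc 1 n, e (((b + (m + h) : ℕ) : ℝ) ^ 3 * x - ((b + m : ℕ) : ℝ) ^ 3 * x)‖) :
    ∃ q : ℕ, 1 ≤ q ∧ (q : ℝ) ≤ 2 / k2 ∧
      nn ((q : ℝ) * (6 * h * x)) ≤ 16 / (k2 ^ 3 * (M : ℝ) ^ 2) := by
  have hk2p : 0 < k2 := by rw [hk2]; positivity
  have hM0 : (0 : ℝ) < M := by
    by_contra hcon
    have : (M : ℝ) = 0 := le_antisymm (not_lt.mp hcon) (Nat.cast_nonneg M)
    rw [this] at c1
    linarith
  set f2 : ℕ → ℝ := fun m => ((b + (m + h) : ℕ) : ℝ) ^ 3 * x - ((b + m : ℕ) : ℝ) ^ 3 * x with hf2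
  set B : ℕ → ℝ := fun l => ‖∑ m ∈ Icc 1 (n - l), e (f2 (m + l) - f2 m)‖ with hB
  have h1 := weyl_diff f2 n
  have h2 : k1 ^ 2 * (M : ℝ) ^ 2 ≤ M + 2 * ∑ l ∈ Icc 1 (n - 1), B l := by
    have h3 : (k1 * M) ^ 2 ≤ ‖∑ m ∈ Icc 1 n, e (f2 m)‖ ^ 2 :=
      pow_le_pow_left₀ (by positivity) hh 2
    have h4 : (n : ℝ) ≤ M := by exact_mod_cast hn
    calc k1 ^ 2 * (M : ℝ) ^ 2 = (k1 * M) ^ 2 := by ring
      _ ≤ _ := h3
      _ ≤ _ := h1
      _ ≤ _ := by linarith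
  have hBM : ∀ l ∈ Icc 1 (n - 1), B l ≤ M := by
    intro l _
    refine (norm_sum_e_le (fun m => f2 (m + l) - f2 m) (n - l)).trans ?_
    exact_mod_cast (Nat.sub_le _ _).trans hn
  have h5 := popular M (n - 1) ((Nat.sub_le _ _).trans hn) B hBM k1 hk1 c1 h2
  rw [← hk2] at h5
  have hrec : ∀ l ∈ (Icc 1 (n - 1)).filter (fun l => k2 * (M : ℝ) ≤ B l),
      nn ((l : ℝ) * (6 * h * x)) ≤ 1 / (2 * k2 * M) := by
    intro l hl
    rw [mem_filter] at hl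
    have h6 : B l * (2 * nn ((l : ℝ) * (6 * h * x))) ≤ 1 := by
      have h7 := geom ((l : ℝ) * (6 * h * x)) ((6 * (b : ℝ) * h * l + 3 * (h : ℝ) ^ 2 * l + 3 * h * (l : ℝ) ^ 2) * x)
        (n - l)
      have h8 : ∑ m ∈ Icc 1 (n - l), e (f2 (m + l) - f2 m) = ∑ m ∈ Icc 1 (n - l),
          e ((l : ℝ) * (6 * h * x) * m + (6 * (b : ℝ) * h * l + 3 * (h : ℝ) ^ 2 * l + 3 * h * (l : ℝ) ^ 2) * x) := by
        apply sum_congr rfl
        intro m _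
        congr 1
        simp only [hf2]
        push_cast
        ring
      simp only [hB]
      rw [h8]
      exact h7
    rw [le_div_iff₀ (by positivity)]
    have h9 : k2 * M * (2 * nn ((l : ℝ) * (6 * h * x))) ≤ B l * (2 * nn ((l : ℝ) * (6 * h * x))) :=
      mul_le_mul_of_nonneg_right hl.2 (by have := nn_nonneg ((l : ℝ) * (6 * h * x)); linarith)
    linarith
  have hsub : (Icc 1 (n - 1)).filter (fun l => k2 * (M : ℝ) ≤ B l) ⊆ Icc 1 M := by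
    intro l hl
    rw [mem_filter, mem_Icc] at hl
    rw [mem_Icc]
    omega
  obtain ⟨q, hq1, hq2, hq3⟩ := recur M _ hsub (6 * h * x) (1 / (2 * k2 * M)) k2 hk2p h5 c3 (by
    rw [mul_one_div, div_le_iff₀ (by positivity)]
    nlinarith) hrec
  refine ⟨q, hq1, hq2, hq3.trans (le_of_eq ?_)⟩
  field_simp
  norm_num

/-- Many large quadratic sums force a rational approximation. -/
theorem qrec (b M H : ℕ) (x κ ν : ℝ) (n : ℕ → ℕ) (S : Finset ℕ) (hS : S ⊆ Icc 1 H)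
    (hκ : 0 < κ) (hκ1 : κ ≤ 1) (hν : 0 < ν)
    (hn : ∀ h ∈ S, n h ≤ M)
    (hl : ∀ h ∈ S, κ * M ≤
      ‖∑ m ∈ Icc 1 (n h), e (((b + (m + h) : ℕ) : ℝ) ^ 3 * x - ((b + m : ℕ) : ℝ) ^ 3 * x)‖)
    (hcard : ν * H ≤ (S.card : ℝ)) (hM : 2 ^ 9 ≤ κ ^ 4 * (M : ℝ))
    (hM2 : 2 ^ 21 ≤ ν * κ ^ 8 * (M : ℝ) ^ 2) (hH : 32 ≤ ν * κ ^ 2 * (H : ℝ)) :
    ∃ r : ℕ, 1 ≤ r ∧ (r : ℝ) ≤ 2 ^ 12 / (ν * κ ^ 4) ∧
      nn ((r : ℝ) * x) ≤ 2 ^ 26 / (ν ^ 2 * κ ^ 10 * ((M : ℝ) ^ 2 * H)) := by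
  have hM0 : (0 : ℝ) < M := by
    by_contra hcon
    have : (M : ℝ) = 0 := le_antisymm (not_lt.mp hcon) (Nat.cast_nonneg M)
    rw [this] at hM
    norm_num at hM
  have hH0 : (0 : ℝ) < H := by
    by_contra hcon
    have : (H : ℝ) = 0 := le_antisymm (not_lt.mp hcon) (Nat.cast_nonneg H)
    rw [this] at hH
    norm_num at hH
  obtain ⟨k2, hk2⟩ : ∃ k2 : ℝ, k2 = κ ^ 2 / 8 := ⟨_, rfl⟩
  have hk2p : 0 < k2 := by rw [hk2]; positivity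
  have c1 : 2 ≤ κ ^ 2 * (M : ℝ) := by
    have h1 : κ ^ 4 * (M : ℝ) ≤ κ ^ 2 * M :=
      mul_le_mul_of_nonneg_right (pow_le_pow_of_le_one hκ.le hκ1 (by norm_num)) hM0.le
    linarith
  have c2 : 8 ≤ k2 ^ 2 * (M : ℝ) := by
    have e1 : k2 ^ 2 * (M : ℝ) = κ ^ 4 * M / 64 := by rw [hk2]; ring
    rw [e1]
    linarith
  have c3 : 2 ≤ k2 * (M : ℝ) := by
    have h1 : κ ^ 4 * (M : ℝ) ≤ κ ^ 2 * M :=
      mul_le_mul_of_nonneg_right (pow_le_pow_of_le_one hκ.le hκ1 (by norm_num)) hM0.le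
    have e1 : k2 * (M : ℝ) = κ ^ 2 * M / 8 := by rw [hk2]; ring
    rw [e1]
    linarith
  have hq : ∀ h ∈ S, ∃ q : ℕ, 1 ≤ q ∧ (q : ℝ) ≤ 2 / k2 ∧
      nn ((q : ℝ) * (6 * h * x)) ≤ 16 / (k2 ^ 3 * (M : ℝ) ^ 2) := by
    intro h hh
    exact qinner b (n h) M (hn h hh) x κ k2 hκ hk2 c1 c2 c3 h (hl h hh)
  choose! qf hqf1 hqf2 hqf3 using hq
  have hk2le : k2 ≤ 2 := by
    rw [hk2]
    have : κ ^ 2 ≤ 1 := pow_le_one₀ hκ.le hκ1
    linarith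
  obtain ⟨q1, hq1t, hq1c⟩ := exists_le_card_fiber_of_nsmul_le_card_of_maps_to (s := S)
    (t := Icc 1 ⌊2 / k2⌋₊) (f := qf) (b := ν * k2 / 2 * (H : ℝ)) (by
      intro h hh
      rw [mem_Icc]
      exact ⟨hqf1 h hh, Nat.le_floor (hqf2 h hh)⟩) (by
      refine ⟨1, mem_Icc.mpr ⟨le_rfl, Nat.le_floor ?_⟩⟩
      rw [Nat.cast_one, le_div_iff₀ hk2p]
      linarith) (by
      rw [Nat.card_Icc, Nat.add_sub_cancel, nsmul_eq_mul]
      have h6 : (⌊2 / k2⌋₊ : ℝ) ≤ 2 / k2 := Nat.floor_le (by positivity)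
      calc (⌊2 / k2⌋₊ : ℝ) * (ν * k2 / 2 * H) ≤ 2 / k2 * (ν * k2 / 2 * H) :=
            mul_le_mul_of_nonneg_right h6 (by positivity)
        _ = ν * H := by field_simp
        _ ≤ _ := hcard)
  rw [mem_Icc] at hq1t
  have hq1r : (q1 : ℝ) ≤ 2 / k2 := (Nat.le_floor_iff (by positivity)).mp hq1t.2
  have hsub : S.filter (fun h => qf h = q1) ⊆ Icc 1 H := (filter_subset _ _).trans hS
  obtain ⟨q2, hq21, hq22, hq23⟩ := recur H _ hsub (6 * q1 * x) (16 / (k2 ^ 3 * (M : ℝ) ^ 2))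
    (ν * k2 / 2) (by positivity) hq1c (by
      have e1 : ν * k2 / 2 * (H : ℝ) = ν * κ ^ 2 * H / 16 := by rw [hk2]; ring
      rw [e1]
      linarith) (by
      rw [mul_div_assoc', div_le_iff₀ (by positivity)]
      have e1 : ν * k2 / 2 * (k2 ^ 3 * (M : ℝ) ^ 2) = ν * κ ^ 8 * (M : ℝ) ^ 2 / 2 ^ 13 := by
        rw [hk2]
        ring
      rw [e1, le_div_iff₀ (by positivity)]
      linarith) (by
      intro l hl
      rw [mem_filter] at hl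
      have h7 := hqf3 l hl.1
      rw [hl.2] at h7
      have e1 : (l : ℝ) * (6 * q1 * x) = (q1 : ℝ) * (6 * l * x) := by ring
      rw [e1]
      exact h7)
  refine ⟨6 * q1 * q2, ?_, ?_, ?_⟩
  · have : 1 ≤ q1 * q2 := Nat.mul_pos hq1t.1 hq21
    nlinarith
  · push_cast
    have h8 : 2 / (ν * k2 / 2) = 4 / (ν * k2) := by field_simp; norm_num
    rw [h8] at hq22
    calc 6 * (q1 : ℝ) * q2 ≤ 6 * (2 / k2) * (4 / (ν * k2)) := by
          apply mul_le_mul _ hq22 (Nat.cast_nonneg _) (by positivity)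
          linarith
      _ = 3072 / (ν * κ ^ 4) := by
          rw [hk2]
          field_simp
          norm_num
      _ ≤ 2 ^ 12 / (ν * κ ^ 4) := by
          apply div_le_div_of_nonneg_right _ (by positivity)
          norm_num
  · have e1 : ((6 * q1 * q2 : ℕ) : ℝ) * x = (q2 : ℝ) * (6 * q1 * x) := by
      push_cast
      ring
    rw [e1]
    refine hq23.trans (le_of_eq ?_)
    rw [hk2]
    field_simp
    norm_num

end Pool.Agent.H12.HQ
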