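import Pool.Agent.H12.HQ.Wex
import Pool.Agent.H12.HQ.Rec

/-!
# [H12 HQ WMN] A large square sum gives a rational approximation

PROOF. `H0 = H/(3M^2)` (natural division), `M'-M <= M+1 <= 2M`.
`wtriv`: `‖Dq M h n x‖ <= n <= M+1 <= 2M` (`norm_sum_e_le`), so by `wex` with `B h = 2M`: `Wq <= H (M+1) + 2H H0 2M <= 2HM + (4/3) H^2/M <= 4H^2/M`
(`H0 <= H/(3M^2)`, `2HM <= 2H^2/M` as `M^2 <= H`).
`wmin`: for every `h` let `n h <= M'-M` be such that `‖Dq M h n x‖` is maximal over `n ∈ range (M'-M+1)` (`exists_max_image`) and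
`B h = ‖Dq M h (n h) x‖ <= 2M`. By `wex` and `hW`: `δH^2/M <= 2HM + 2H Σ_{h<=H0} B h`, `2HM <= (δ/4)H^2/M` (`8M^2 <= δH`), so
`Σ_{h<=H0} B h >= (3δ/8) H/M`. With `S = {h ∈ Icc 1 H0 : (δ/8)(2M) <= B h}`: `Σ B h <= |S| 2M + H0 (δ/8) 2M <= |S| 2M + δH/(12M)`, so
`|S| >= (7/48) δ H/M^2 >= (δ/4) H0`. `qrec` (file `Rec`) with `b = M`, `M := 2M`, `H := H0`, `κ = δ/8`, `ν = δ/4`, `n`, `S` (unfold `Dq`). Conditions:
`2^9 <= κ^4 2M = δ^4 M/2^11` from `2^23 <= δ^5 M`; `2^21 <= ν κ^8 4M^2 = δ^9 M^2/2^24` from `(δ^5 M)^2 >= 2^46`, `δ <= 1`;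
`32 <= ν κ^2 H0 = δ^3 H0/256`: `H0 >= H/(6M^2)` (`H >= 3M^2`, so the floor is at least half of `H/(3M^2)`) and `H >= 2^16 M^2/δ^3`.
Result: `r <= 2^12/(ν κ^4) = 2^26/δ^5 <= 2^64/δ^12`, `nn (r x) <= 2^26/(ν^2 κ^10 4M^2 H0) = 2^58/(δ^12 M^2 H0) <= 6·2^58/(δ^12 H) <= 2^64/δ^12/H`.
-/

namespace Pool.Agent.H12.HQ

open Finset Pool.Agent.H26.LDP

theorem wtriv (M M' L H : ℕ) (x : ℝ) (hM : 1 ≤ M) (hM' : M' ≤ 2 * M + 1) (hL : M' ^ 3 ≤ L)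
    (hH : M ^ 2 ≤ H) : Wq M M' L H x ≤ 4 * (H : ℝ) ^ 2 / M := by
  have hM0 : (0 : ℝ) < M := by exact_mod_cast hM
  have hH' : (M : ℝ) ^ 2 ≤ H := by exact_mod_cast hH
  have hH0 : (0 : ℝ) < H := lt_of_lt_of_le (by positivity) hH'
  have hn0 : ((M' - M : ℕ) : ℝ) ≤ 2 * M := by
    have h1 : M' - M ≤ 2 * M := by omega
    exact_mod_cast h1
  have h1 := wex M M' L H x (fun _ => 2 * (M : ℝ)) hM hL (by
    intro h _ n hn
    refine (norm_sum_e_le (fun m => ((M + (m + h) : ℕ) : ℝ) ^ 3 * x -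
      ((M + m : ℕ) : ℝ) ^ 3 * x) n).trans ?_
    have h2 : (n : ℝ) ≤ ((M' - M : ℕ) : ℝ) := by exact_mod_cast hn
    exact h2.trans hn0)
  rw [sum_const, Nat.card_Icc, nsmul_eq_mul, Nat.add_sub_cancel] at h1
  have h2 : ((H / (3 * M ^ 2) : ℕ) : ℝ) ≤ H / (3 * (M : ℝ) ^ 2) := by
    have h3 := Nat.cast_div_le (α := ℝ) (m := H) (n := 3 * M ^ 2)
    push_cast at h3
    exact h3
  have h3 : (H : ℝ) * ((M' - M : ℕ) : ℝ) ≤ H * (2 * M) :=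
    mul_le_mul_of_nonneg_left hn0 hH0.le
  have h4 : 2 * (H : ℝ) * (((H / (3 * M ^ 2) : ℕ) : ℝ) * (2 * M)) ≤
      2 * H * (H / (3 * (M : ℝ) ^ 2) * (2 * M)) := by gcongr
  have h5 : 2 * (H : ℝ) * (H / (3 * (M : ℝ) ^ 2) * (2 * M)) = (4 / 3) * ((H : ℝ) ^ 2 / M) := by
    field_simp
    ring
  have h6 : (H : ℝ) * (2 * M) ≤ 2 * ((H : ℝ) ^ 2 / M) := by
    have h7 : (H : ℝ) * (2 * M) = 2 * (H * (M : ℝ) ^ 2 / M) := by
      field_simp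
    rw [h7]
    have h8 : (H : ℝ) * (M : ℝ) ^ 2 / M ≤ (H : ℝ) ^ 2 / M := by
      rw [sq (H : ℝ)]
      gcongr
    linarith
  have h7 : 4 * (H : ℝ) ^ 2 / M = 4 * ((H : ℝ) ^ 2 / M) := by ring
  have h8 : 0 ≤ (H : ℝ) ^ 2 / M := by positivity
  rw [h7]
  linarith

theorem wmin (M M' L H : ℕ) (x δ : ℝ) (hδ : 0 < δ) (hδ1 : δ ≤ 1) (hM' : M' ≤ 2 * M + 1)
    (hL : M' ^ 3 ≤ L) (hM : 2 ^ 23 ≤ δ ^ 5 * (M : ℝ)) (hH : 2 ^ 16 * (M : ℝ) ^ 2 ≤ δ ^ 3 * H)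
    (hW : δ * (H : ℝ) ^ 2 / M ≤ Wq M M' L H x) :
    ∃ r : ℕ, 1 ≤ r ∧ (r : ℝ) ≤ 2 ^ 64 / δ ^ 12 ∧ nn ((r : ℝ) * x) ≤ 2 ^ 64 / δ ^ 12 / H := by
  classical
  have hδ5 : δ ^ 5 ≤ 1 := pow_le_one₀ hδ.le hδ1
  have hM1 : (1 : ℝ) ≤ M := by
    have h1 : δ ^ 5 * (M : ℝ) ≤ 1 * M := mul_le_mul_of_nonneg_right hδ5 (Nat.cast_nonneg M)
    have h2 : (1 : ℝ) ≤ 2 ^ 23 := by norm_num
    linarith
  have hM0 : (0 : ℝ) < M := by linarith
  have hM1' : 1 ≤ M := by exact_mod_cast hM1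
  have hδ3 : δ ^ 3 ≤ δ := by
    have h1 := pow_le_one₀ (n := 2) hδ.le hδ1
    have h2 := mul_le_mul_of_nonneg_left h1 hδ.le
    have h3 : δ ^ 3 = δ * δ ^ 2 := by ring
    linarith
  have hδH : 2 ^ 16 * (M : ℝ) ^ 2 ≤ δ * H :=
    hH.trans (mul_le_mul_of_nonneg_right hδ3 (Nat.cast_nonneg H))
  have hHM : 2 ^ 16 * (M : ℝ) ^ 2 ≤ H := by
    have h1 : δ * (H : ℝ) ≤ 1 * H := mul_le_mul_of_nonneg_right hδ1 (Nat.cast_nonneg H)
    linarith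
  have hH0 : (0 : ℝ) < H := lt_of_lt_of_le (by positivity) hHM
  obtain ⟨n0, hn0⟩ : ∃ n0, n0 = M' - M := ⟨_, rfl⟩
  obtain ⟨H0, hH0e⟩ : ∃ H0, H0 = H / (3 * M ^ 2) := ⟨_, rfl⟩
  have hn02 : (n0 : ℝ) ≤ 2 * M := by
    have h1 : n0 ≤ 2 * M := by omega
    exact_mod_cast h1
  -- the maximal length
  have hex : ∀ h : ℕ, ∃ n ∈ range (n0 + 1), ∀ n' ∈ range (n0 + 1),
      ‖Dq M h n' x‖ ≤ ‖Dq M h n x‖ := fun h =>
    exists_max_image (range (n0 + 1)) (fun n => ‖Dq M h n x‖) ⟨0, mem_range.2 (Nat.succ_pos _)⟩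
  choose n hn1 hn2 using hex
  have hnle : ∀ h, n h ≤ n0 := fun h => Nat.lt_succ_iff.1 (mem_range.1 (hn1 h))
  have hBle : ∀ h, ‖Dq M h (n h) x‖ ≤ 2 * M := by
    intro h
    refine (norm_sum_e_le (fun m => ((M + (m + h) : ℕ) : ℝ) ^ 3 * x -
      ((M + m : ℕ) : ℝ) ^ 3 * x) (n h)).trans ?_
    have h2 : (n h : ℝ) ≤ n0 := by exact_mod_cast hnle h
    exact h2.trans hn02
  have hwex := wex M M' L H x (fun h => ‖Dq M h (n h) x‖) hM1' hL (by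
    intro h _ n' hn'
    exact hn2 h n' (mem_range.2 (by omega)))
  rw [← hn0, ← hH0e] at hwex
  have hH0up : (H0 : ℝ) ≤ H / (3 * (M : ℝ) ^ 2) := by
    have h3 := Nat.cast_div_le (α := ℝ) (m := H) (n := 3 * M ^ 2)
    push_cast at h3
    rw [hH0e]
    exact h3
  have hHd : (0 : ℝ) < H / M := by positivity
  have hsumB : 3 / 8 * (δ * (H / M)) ≤ ∑ h ∈ Icc 1 H0, ‖Dq M h (n h) x‖ := by
    have h1 : δ * (H : ℝ) ^ 2 / M = H * (δ * (H / M)) := by ring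
    have h2 : (H : ℝ) * n0 ≤ H * (1 / 4 * (δ * (H / M))) := by
      refine mul_le_mul_of_nonneg_left (hn02.trans ?_) hH0.le
      rw [show (1 : ℝ) / 4 * (δ * (H / M)) = (1 / 4 * (δ * H)) / M by ring, le_div_iff₀ hM0]
      nlinarith
    rw [h1] at hW
    have h3 : (H : ℝ) * (3 / 8 * (δ * (H / M))) ≤ H * ∑ h ∈ Icc 1 H0, ‖Dq M h (n h) x‖ := by
      linarith
    exact le_of_mul_le_mul_left h3 hH0
  obtain ⟨S, hS⟩ : ∃ S, S = (Icc 1 H0).filter (fun h => δ / 8 * (2 * (M : ℝ)) ≤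
    ‖Dq M h (n h) x‖) := ⟨_, rfl⟩
  have hsplit : ∑ h ∈ Icc 1 H0, ‖Dq M h (n h) x‖ ≤ (S.card : ℝ) * (2 * M) +
      (H0 : ℝ) * (δ / 8 * (2 * M)) := by
    rw [← sum_filter_add_sum_filter_not (Icc 1 H0) (fun h => δ / 8 * (2 * (M : ℝ)) ≤
      ‖Dq M h (n h) x‖), ← hS]
    refine add_le_add ?_ ?_
    · have h1 := sum_le_card_nsmul S (fun h => ‖Dq M h (n h) x‖) (2 * (M : ℝ))
        (fun h _ => hBle h)
      rwa [nsmul_eq_mul] at h1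
    · have h1 := sum_le_card_nsmul ((Icc 1 H0).filter (fun h => ¬ δ / 8 * (2 * (M : ℝ)) ≤
        ‖Dq M h (n h) x‖)) (fun h => ‖Dq M h (n h) x‖) (δ / 8 * (2 * (M : ℝ)))
        (fun h hh => (not_le.1 (mem_filter.1 hh).2).le)
      rw [nsmul_eq_mul] at h1
      refine h1.trans (mul_le_mul_of_nonneg_right ?_ (by positivity))
      have h2 := card_filter_le (Icc 1 H0) (fun h => ¬ δ / 8 * (2 * (M : ℝ)) ≤
        ‖Dq M h (n h) x‖)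
      rw [Nat.card_Icc, Nat.add_sub_cancel] at h2
      exact_mod_cast h2
  have hHM2 : (0 : ℝ) < H / (M : ℝ) ^ 2 := by positivity
  have hcard : 7 / 48 * (δ * (H / (M : ℝ) ^ 2)) ≤ S.card := by
    have h1 : (H0 : ℝ) * (δ / 8 * (2 * M)) ≤ H / (3 * (M : ℝ) ^ 2) * (δ / 8 * (2 * M)) :=
      mul_le_mul_of_nonneg_right hH0up (by positivity)
    have h2 : H / (3 * (M : ℝ) ^ 2) * (δ / 8 * (2 * M)) = 1 / 12 * (δ * (H / M)) := by
      field_simp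
      ring
    have h3 : 7 / 24 * (δ * (H / M)) ≤ (S.card : ℝ) * (2 * M) := by linarith
    have h4 : 7 / 48 * (δ * (H / (M : ℝ) ^ 2)) * (2 * M) = 7 / 24 * (δ * (H / M)) := by
      field_simp
      ring
    rw [← h4] at h3
    exact le_of_mul_le_mul_right h3 (by positivity)
  have hH0low : (H : ℝ) / (M : ℝ) ^ 2 ≤ 6 * H0 := by
    have h1 : (H : ℝ) / (3 * (M : ℝ) ^ 2) < H0 + 1 := by
      have h2 := Nat.lt_succ_floor ((H : ℝ) / (3 * (M : ℝ) ^ 2))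
      have h3 : ⌊(H : ℝ) / (3 * (M : ℝ) ^ 2)⌋₊ = H0 := by
        have h4 := Nat.floor_div_eq_div (K := ℝ) H (3 * M ^ 2)
        push_cast at h4
        rw [h4, hH0e]
      rw [h3] at h2
      push_cast at h2
      exact h2
    have h2 : (H : ℝ) / (3 * (M : ℝ) ^ 2) = 1 / 3 * (H / (M : ℝ) ^ 2) := by
      field_simp
    rw [h2] at h1
    have h3 : (2 : ℝ) ^ 16 ≤ H / (M : ℝ) ^ 2 := by
      rw [le_div_iff₀ (by positivity)]
      exact hHM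
    have h4 : (0 : ℝ) < 1 := one_pos
    linarith
  have hδ4 : 2 ^ 23 ≤ δ ^ 4 * (M : ℝ) := by
    have h1 : δ ^ 5 * (M : ℝ) ≤ δ ^ 4 * M := by
      refine mul_le_mul_of_nonneg_right ?_ hM0.le
      exact pow_le_pow_of_le_one hδ.le hδ1 (by norm_num)
    linarith
  obtain ⟨r, hr1, hr2, hr3⟩ := qrec M (2 * M) H0 x (δ / 8) (δ / 4) n S
    (by rw [hS]; exact filter_subset _ _) (by positivity) (by linarith) (by positivity)
    (fun h _ => (hnle h).trans (by omega))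
    (by
      intro h hh
      rw [hS, mem_filter] at hh
      have h1 := hh.2
      push_cast
      unfold Dq at h1
      push_cast at h1
      exact h1)
    (by
      have h1 : δ * (3 * (H0 : ℝ)) ≤ δ * (H / (M : ℝ) ^ 2) := by
        refine mul_le_mul_of_nonneg_left ?_ hδ.le
        have h2 : (H : ℝ) / (3 * (M : ℝ) ^ 2) = 1 / 3 * (H / (M : ℝ) ^ 2) := by
          field_simp
        rw [h2] at hH0up
        linarith
      have h2 : 0 ≤ δ * (H0 : ℝ) := by positivity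
      linarith)
    (by
      push_cast
      have h1 : (δ / 8) ^ 4 * (2 * (M : ℝ)) = δ ^ 4 * M / 2 ^ 11 := by ring
      rw [h1, le_div_iff₀ (by positivity)]
      refine le_trans ?_ hδ4
      norm_num)
    (by
      push_cast
      have h1 : δ / 4 * (δ / 8) ^ 8 * (2 * (M : ℝ)) ^ 2 = δ ^ 9 * M ^ 2 / 2 ^ 24 := by ring
      rw [h1, le_div_iff₀ (by positivity)]
      have h2 : δ ^ 10 ≤ δ ^ 9 := pow_le_pow_of_le_one hδ.le hδ1 (by norm_num)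
      have h3 := mul_le_mul_of_nonneg_right h2 (by positivity : (0 : ℝ) ≤ (M : ℝ) ^ 2)
      have h4 : ((2 : ℝ) ^ 23) ^ 2 ≤ (δ ^ 5 * (M : ℝ)) ^ 2 :=
        pow_le_pow_left₀ (by positivity) hM 2
      have h5 : (δ ^ 5 * (M : ℝ)) ^ 2 = δ ^ 10 * (M : ℝ) ^ 2 := by ring
      rw [h5] at h4
      refine le_trans ?_ (h4.trans h3)
      norm_num)
    (by
      have h1 : δ / 4 * (δ / 8) ^ 2 * (H0 : ℝ) = δ ^ 3 * H0 / 256 := by ring
      rw [h1, le_div_iff₀ (by positivity)]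
      have h2 : (2 : ℝ) ^ 16 ≤ δ ^ 3 * (H / (M : ℝ) ^ 2) := by
        rw [← mul_div_assoc, le_div_iff₀ (by positivity)]
        exact hH
      have h3 := mul_le_mul_of_nonneg_left hH0low (by positivity : (0 : ℝ) ≤ δ ^ 3)
      norm_num at h2 ⊢
      linarith)
  have hδ12 : 0 < δ ^ 12 := by positivity
  refine ⟨r, hr1, hr2.trans ?_, hr3.trans ?_⟩
  · have h1 : (2 : ℝ) ^ 12 / (δ / 4 * (δ / 8) ^ 4) = 2 ^ 26 / δ ^ 5 := by
      field_simp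
      norm_num
    rw [h1, div_le_div_iff₀ (by positivity) hδ12]
    have h2 : δ ^ 12 ≤ δ ^ 5 := pow_le_pow_of_le_one hδ.le hδ1 (by norm_num)
    have h3 : 0 < δ ^ 5 := by positivity
    nlinarith
  · push_cast
    have hH0p : (0 : ℝ) < H0 := by linarith
    have h1 : (2 : ℝ) ^ 26 / ((δ / 4) ^ 2 * (δ / 8) ^ 10 * ((2 * (M : ℝ)) ^ 2 * H0)) =
        2 ^ 58 / (δ ^ 12 * ((M : ℝ) ^ 2 * H0)) := by
      field_simp
      norm_num
    have h2 : (H : ℝ) / 6 ≤ (M : ℝ) ^ 2 * H0 := by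
      rw [div_le_iff₀ (by positivity)] at hH0low
      linarith
    rw [h1, div_div, div_le_div_iff₀ (by positivity) (by positivity)]
    have h3 : δ ^ 12 * ((H : ℝ) / 6) ≤ δ ^ 12 * ((M : ℝ) ^ 2 * H0) :=
      mul_le_mul_of_nonneg_left h2 hδ12.le
    have h4 : 0 < δ ^ 12 * (H : ℝ) := by positivity
    norm_num at h3 ⊢
    linarith

end Pool.Agent.H12.HQ
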