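import Pool.Agent.H12.HQ.Tf
import Pool.Agent.H12.HQ.Ebd
import Pool.Agent.H12.HQ.Wmn
import Pool.Agent.H43.TP.Tra

/-!
# [H12 HQ COR] Transfer theorem for the long range

PROOF. `T = L+1`, `N = 6 X T` (so `N/T = 6X` exactly; `2L+1 <= N`, `L+X+1 <= N`, `T <= N`, `6XT <= N`; `X >= 1` by `hX`, `M >= 1` by `hM`). `S2 = Σ_{n<=L} ‖a n‖^2`.
`P(t)`, `E(t)` the two sums of `tf`. By `ebd` (`H := X`): `E(t) <= (4N/X^2) W(t)`, `W(t) = Wq M M' L X (al N t)`.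
(1) `t` with `W(t) < δX^2/M`: `E(t) <= 4Nδ/M`. `Σ_t P(t) = T N S2`: for each `j`, `Σ_t ‖Ex a L (al N t + j/N)‖^2 = N S2` by `TP.plsq` for `n ↦ a n e(n j/N)`.
(2) the other `t`: `W(t) <= 4X^2/M` (`wtriv`; `M^2 <= X`), `E(t) <= 16N/M`, and `wmin` (`H := X`) gives `r <= 2^64/δ^12 <= Q` with `nn (r al N t) <= Q/X`, so
`|al N t - b/r - i| <= Q/X` for some `b < r`, `i ∈ ℤ` (as in `H43/HY/Trb.lean`, `hmaj`). For `j < T`: `al N (t + (j : ZMod N)) = al N t + j/N + n`, `n ∈ ℤ` (`LDP.al_shift` with `r := N`, `c := j`,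
`j*(N/N) = j`), so `‖Ex a L (al N t + j/N)‖ = ‖Ex a L (al N (t+j))‖` (`Ex a L` has period `1`), and `t + j` lies in
`Eq r b = {t : ∃ i : ℤ, |al N t - b/r - i| <= 1/(6h)}`, because `Q/X + T/N = Q/X + 1/(6X) <= 2Q/X <= 1/(6h)` (`12hQ <= X`). Hence
`Σ_{t as in (2)} P(t) <= T Σ_{q<=Q} Σ_{b<q} Σ_{t ∈ Eq q b} ‖Ex a L (al N t)‖^2 <= T (4N/h^2) Q^4 V` by `TP.gal` and `TP.tra_split` (exactly as `hgal`, `hEsum`, `hEbd` in `Trb.lean`, with `L` in place of `2X`).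
Total: `T^2 N Σ_k <= 4 (4Nδ/M · T N S2 + (16N/M) T (4N/h^2) Q^4 V)`, i.e. `Σ_k <= 16 (N/T)(δ/M) S2 + 256 (N/T) Q^4 V/(M h^2) = 96 δ X/M S2 + 1536 X Q^4 V/(M h^2)`.
-/

namespace Pool.Agent.H12.HQ

open Finset Pool.Agent.H26.LDP Pool.Agent.H43.TP

private theorem ex_int (a : ℕ → ℂ) (L : ℕ) (x : ℝ) (n : ℤ) : Ex a L (x + n) = Ex a L x := by
  unfold Ex
  refine sum_congr rfl fun m _ => ?_
  congr 1
  have h1 : (m : ℝ) * (x + n) = (m : ℝ) * x + ((m * n : ℤ) : ℝ) := by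
    push_cast
    ring
  rw [h1, e_add_int]

private theorem al_add (N j : ℕ) [NeZero N] (t : ZMod N) :
    ∃ n : ℤ, al N (t + (j : ZMod N)) = al N t + (j : ℝ) / N + n := by
  obtain ⟨n, hn⟩ := al_shift N N j dvd_rfl t
  have hN0 : N / N = 1 := Nat.div_self (Nat.pos_of_ne_zero (NeZero.ne N))
  rw [hN0, mul_one] at hn
  exact ⟨n, hn⟩

private theorem ex_shift (a : ℕ → ℂ) (L N j : ℕ) [NeZero N] (t : ZMod N) :
    Ex a L (al N t + (j : ℝ) / N) = Ex a L (al N (t + (j : ZMod N))) := by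
  obtain ⟨n, hn⟩ := al_add N j t
  rw [hn, ex_int]

private theorem sumP (a : ℕ → ℂ) (L N T : ℕ) [NeZero N] (hN : L + 1 ≤ N) :
    ∑ t : ZMod N, ∑ j ∈ range T, ‖Ex a L (al N t + (j : ℝ) / N)‖ ^ 2 =
      T * (N * ∑ n ∈ Icc 1 L, ‖a n‖ ^ 2) := by
  rw [sum_comm]
  have h1 : ∀ j ∈ range T, ∑ t : ZMod N, ‖Ex a L (al N t + (j : ℝ) / N)‖ ^ 2 =
      N * ∑ n ∈ Icc 1 L, ‖a n‖ ^ 2 := by
    intro j _
    rw [← plsq a L N hN]
    simp only [ex_shift]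
    exact Equiv.sum_comp (Equiv.addRight (j : ZMod N)) (fun t => ‖Ex a L (al N t)‖ ^ 2)
  rw [sum_congr rfl h1, sum_const, card_range, nsmul_eq_mul]

/-- the sum over all major arcs -/
private theorem arcs (a : ℕ → ℂ) (L N Q h : ℕ) [NeZero N] (V : ℝ) (hh : 1 ≤ h)
    (hN : L + h + 1 ≤ N) (hV0 : 0 ≤ V) (A : Finset (ZMod N))
    (hA : ∀ t ∈ A, ∃ q ∈ Icc 1 Q, ∃ b ∈ range q, ∃ i : ℤ,
      |al N t - (b : ℝ) / q - i| ≤ 1 / (6 * h))
    (hV : ∀ q c : ℕ, 1 ≤ q → q ≤ Q → c < q →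
      ∑ x ∈ Icc 1 (L + h), ‖∑ n ∈ (Ioc (x - h) x).filter (fun n => n ≤ L ∧ n % q = c),
        a n‖ ^ 2 ≤ V) :
    (h : ℝ) ^ 2 * ∑ t ∈ A, ‖Ex a L (al N t)‖ ^ 2 ≤ 4 * N * (Q : ℝ) ^ 4 * V := by
  classical
  obtain ⟨w, hw⟩ : ∃ w : ZMod N → ℝ, w = fun t => ‖Ex a L (al N t)‖ ^ 2 := ⟨_, rfl⟩
  have hw0 : ∀ t, 0 ≤ w t := by
    intro t
    rw [hw]
    positivity
  have hwE : ∀ t, ‖Ex a L (al N t)‖ ^ 2 = w t := fun t => by rw [hw]
  simp only [hwE]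
  obtain ⟨Eq, hEq⟩ : ∃ Eq : ℕ → ℕ → Finset (ZMod N), ∀ q b t, t ∈ Eq q b ↔
      ∃ i : ℤ, |al N t - (b : ℝ) / q - i| ≤ 1 / (6 * h) := by
    refine ⟨fun q b => univ.filter fun t => ∃ i : ℤ, |al N t - (b : ℝ) / q - i| ≤ 1 / (6 * h),
      fun q b t => ?_⟩
    rw [mem_filter]
    exact ⟨fun h => h.2, fun h => ⟨mem_univ _, h⟩⟩
  have hgal : ∀ q b : ℕ, 1 ≤ q → q ≤ Q →
      (h : ℝ) ^ 2 * ∑ t ∈ Eq q b, w t ≤ 4 * N * ((Q : ℝ) ^ 2 * V) := by
    intro q b hq hqQ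
    have h1 := gal a L N q b h hq hh hN (Eq q b) (fun t ht => (hEq q b t).1 ht)
    simp only [hwE] at h1
    refine h1.trans ?_
    refine mul_le_mul_of_nonneg_left ?_ (by positivity)
    have hqR : (q : ℝ) ≤ Q := by exact_mod_cast hqQ
    calc ∑ x ∈ Icc 1 (L + h), ‖∑ n ∈ (Ioc (x - h) x).filter (fun n => n ≤ L),
          a n * e ((n : ℝ) * ((b : ℝ) / q))‖ ^ 2
        ≤ ∑ x ∈ Icc 1 (L + h), q * ∑ c ∈ range q,
          ‖∑ n ∈ (Ioc (x - h) x).filter (fun n => n ≤ L ∧ n % q = c), a n‖ ^ 2 := by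
          refine sum_le_sum fun x _ => ?_
          have h2 := tra_split a ((Ioc (x - h) x).filter (fun n => n ≤ L)) q b hq
          simp only [filter_filter] at h2
          exact h2
      _ = q * ∑ c ∈ range q, ∑ x ∈ Icc 1 (L + h),
          ‖∑ n ∈ (Ioc (x - h) x).filter (fun n => n ≤ L ∧ n % q = c), a n‖ ^ 2 := by
          rw [← mul_sum, sum_comm]
      _ ≤ q * ∑ _c ∈ range q, V := by
          refine mul_le_mul_of_nonneg_left ?_ (Nat.cast_nonneg q)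
          exact sum_le_sum fun c hc => hV q c hq hqQ (mem_range.1 hc)
      _ = (q : ℝ) * q * V := by
          rw [sum_const, card_range, nsmul_eq_mul]
          ring
      _ ≤ (Q : ℝ) ^ 2 * V := by
          refine mul_le_mul_of_nonneg_right ?_ hV0
          rw [sq]
          exact mul_le_mul hqR hqR (Nat.cast_nonneg q) (by positivity)
  have hEsum : ∑ t ∈ A, w t ≤ ∑ q ∈ Icc 1 Q, ∑ b ∈ range q, ∑ t ∈ Eq q b, w t := by
    have h1 : ∀ t ∈ A, w t ≤ ∑ q ∈ Icc 1 Q, ∑ b ∈ range q, if t ∈ Eq q b then w t else 0 := by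
      intro t ht
      obtain ⟨q, hq, b, hb, htb⟩ := hA t ht
      have htb' : t ∈ Eq q b := (hEq q b t).2 htb
      have h2 : ∑ b ∈ range q, (if t ∈ Eq q b then w t else 0) ≤
          ∑ q ∈ Icc 1 Q, ∑ b ∈ range q, if t ∈ Eq q b then w t else 0 := by
        refine single_le_sum (f := fun q => ∑ b ∈ range q, if t ∈ Eq q b then w t else 0) ?_ hq
        intro q _
        refine sum_nonneg fun b _ => ?_
        split_ifs
        · exact hw0 t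
        · exact le_rfl
      have h3 : (if t ∈ Eq q b then w t else 0) ≤ ∑ b ∈ range q, if t ∈ Eq q b then w t else 0 := by
        refine single_le_sum (f := fun b => if t ∈ Eq q b then w t else 0) ?_ hb
        intro b _
        split_ifs
        · exact hw0 t
        · exact le_rfl
      rw [if_pos htb'] at h3
      exact h3.trans h2
    refine (sum_le_sum h1).trans ?_
    rw [sum_comm]
    refine sum_le_sum fun q _ => ?_
    rw [sum_comm]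
    refine sum_le_sum fun b _ => ?_
    rw [← sum_filter]
    refine sum_le_sum_of_subset_of_nonneg ?_ fun t _ _ => hw0 t
    intro t ht
    exact (mem_filter.1 ht).2
  refine (mul_le_mul_of_nonneg_left hEsum (by positivity)).trans ?_
  rw [mul_sum]
  simp only [mul_sum (range _)]
  calc ∑ q ∈ Icc 1 Q, ∑ b ∈ range q, (h : ℝ) ^ 2 * ∑ t ∈ Eq q b, w t
      ≤ ∑ q ∈ Icc 1 Q, ∑ b ∈ range q, 4 * N * ((Q : ℝ) ^ 2 * V) := by
        refine sum_le_sum fun q hq => sum_le_sum fun b _ => ?_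
        rw [mem_Icc] at hq
        exact hgal q b hq.1 hq.2
    _ ≤ ∑ q ∈ Icc 1 Q, (Q : ℝ) * (4 * N * ((Q : ℝ) ^ 2 * V)) := by
        refine sum_le_sum fun q hq => ?_
        rw [sum_const, card_range, nsmul_eq_mul]
        rw [mem_Icc] at hq
        refine mul_le_mul_of_nonneg_right ?_ (by positivity)
        exact_mod_cast hq.2
    _ = 4 * N * (Q : ℝ) ^ 4 * V := by
        rw [sum_const, Nat.card_Icc, Nat.add_sub_cancel, nsmul_eq_mul]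
        ring

/-- rational approximation with a reduced residue -/
private theorem approx (x : ℝ) (q : ℕ) (hq : 1 ≤ q) (η : ℝ) (h : nn ((q : ℝ) * x) ≤ η) :
    ∃ b ∈ range q, ∃ i : ℤ, |x - (b : ℝ) / q - i| ≤ η := by
  have hqR : (1 : ℝ) ≤ q := by exact_mod_cast hq
  obtain ⟨c, hc⟩ : ∃ c : ℤ, c = round ((q : ℝ) * x) := ⟨_, rfl⟩
  have hqz : (q : ℤ) ≠ 0 := by omega
  have hq0 : (0 : ℤ) < q := by omega
  have hmod0 : 0 ≤ c % q := Int.emod_nonneg _ hqz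
  have hmod1 : c % q < q := Int.emod_lt_of_pos _ hq0
  refine ⟨(c % q).toNat, mem_range.2 (by omega), c / q, ?_⟩
  have hnn : |(q : ℝ) * x - c| ≤ η := by
    rw [hc]
    exact h
  have hcast : (((c % q).toNat : ℕ) : ℝ) = ((c % q : ℤ) : ℝ) := by
    have : (((c % q).toNat : ℕ) : ℤ) = c % q := Int.toNat_of_nonneg hmod0
    exact_mod_cast congrArg (Int.cast : ℤ → ℝ) this
  have hdm : ((c % q : ℤ) : ℝ) = (c : ℝ) - q * ((c / q : ℤ) : ℝ) := by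
    have : c % q = c - q * (c / q) := by
      have := Int.emod_add_mul_ediv c q
      linarith
    rw [this]
    push_cast
    ring
  have heq : x - (((c % q).toNat : ℕ) : ℝ) / q - ((c / q : ℤ) : ℝ) = ((q : ℝ) * x - c) / q := by
    rw [hcast, hdm]
    field_simp
    ring
  rw [heq, abs_div, abs_of_pos (by linarith : (0 : ℝ) < q)]
  exact (div_le_self (abs_nonneg _) hqR).trans hnn

theorem cor (a : ℕ → ℂ) (M M' K X L Q h : ℕ) (δ V : ℝ) (hM' : M' ≤ 2 * M + 1)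
    (hL : M' ^ 3 + K + X ≤ L) (hδ : 0 < δ) (hδ1 : δ ≤ 1) (hM : 2 ^ 23 ≤ δ ^ 5 * (M : ℝ))
    (hX : 2 ^ 16 * (M : ℝ) ^ 2 ≤ δ ^ 3 * X) (hQ : 2 ^ 64 / δ ^ 12 ≤ (Q : ℝ)) (hh : 1 ≤ h)
    (hhQ : 12 * h * Q ≤ X)
    (hV : ∀ q c : ℕ, 1 ≤ q → q ≤ Q → c < q →
      ∑ x ∈ Icc 1 (L + h), ‖∑ n ∈ (Ioc (x - h) x).filter (fun n => n ≤ L ∧ n % q = c),
        a n‖ ^ 2 ≤ V) :
    ∑ k ∈ Ioc K (K + X), ‖∑ m ∈ Ioc M M', a (m ^ 3 + k)‖ ^ 2 ≤
      96 * δ * (X / M) * ∑ n ∈ Icc 1 L, ‖a n‖ ^ 2 +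
        1536 * X * (Q : ℝ) ^ 4 * V / (M * (h : ℝ) ^ 2) := by
  classical
  have hQ1 : (1 : ℝ) ≤ Q := by
    refine le_trans ?_ hQ
    rw [le_div_iff₀ (by positivity), one_mul]
    calc δ ^ 12 ≤ 1 := pow_le_one₀ hδ.le hδ1
      _ ≤ 2 ^ 64 := by norm_num
  have hQ1' : 1 ≤ Q := by exact_mod_cast hQ1
  have hV0 : 0 ≤ V := by
    refine le_trans ?_ (hV 1 0 le_rfl hQ1' one_pos)
    exact sum_nonneg fun _ _ => by positivity
  have hM0 : (0 : ℝ) < M := by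
    by_contra hcon
    have : (M : ℝ) = 0 := le_antisymm (not_lt.mp hcon) (Nat.cast_nonneg M)
    rw [this] at hM
    norm_num at hM
  have hM1 : 1 ≤ M := by exact_mod_cast hM0
  have hX12 : 12 ≤ X := by
    refine le_trans ?_ hhQ
    calc 12 = 12 * 1 * 1 := rfl
      _ ≤ 12 * h * Q := Nat.mul_le_mul (Nat.mul_le_mul_left _ hh) hQ1'
  have hXR : (12 : ℝ) ≤ X := by exact_mod_cast hX12
  have hX0 : (0 : ℝ) < X := by linarith
  have hhR : (1 : ℝ) ≤ h := by exact_mod_cast hh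
  have hM2X : M ^ 2 ≤ X := by
    have h1 : (M : ℝ) ^ 2 ≤ X := by
      have h2 : δ ^ 3 * X ≤ 1 * X :=
        mul_le_mul_of_nonneg_right (pow_le_one₀ hδ.le hδ1) hX0.le
      nlinarith [sq_nonneg (M : ℝ)]
    exact_mod_cast h1
  -- parameters
  obtain ⟨T, hT⟩ : ∃ T : ℕ, T = L + 1 := ⟨_, rfl⟩
  obtain ⟨N, hN⟩ : ∃ N : ℕ, N = 6 * X * T := ⟨_, rfl⟩
  have hT1 : 1 ≤ T := by omega
  have hNT : 72 * T ≤ N := by
    rw [hN]
    exact Nat.mul_le_mul_right _ (by omega)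
  have hXT : 6 * X ≤ N := by
    rw [hN]
    exact Nat.le_mul_of_pos_right _ hT1
  have hXL : X ≤ L := by omega
  have hhX : h ≤ X := by
    have h1 : h * 1 ≤ h * (12 * Q) := Nat.mul_le_mul_left _ (by omega)
    have h2 : h * (12 * Q) = 12 * h * Q := by ring
    omega
  have hNz : NeZero N := ⟨by omega⟩
  have hTR : (0 : ℝ) < T := by exact_mod_cast hT1
  have hNR : (N : ℝ) = 6 * X * T := by
    rw [hN]
    push_cast
    ring
  have hN0 : (0 : ℝ) < N := by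
    rw [hNR]
    positivity
  have htf := tf a M M' K X L T N hL hT1 (le_of_eq hN.symm) (by omega)
  have hebd : ∀ t : ZMod N, (X : ℝ) ^ 2 * ∑ j ∈ range T, ‖Cq M M' (al N t + (j : ℝ) / N)‖ ^ 2 ≤
      4 * N * Wq M M' L X (al N t) := fun t =>
    ebd M M' L X T N (by omega) (by omega) (by omega) (by omega) (le_of_eq hN.symm) (al N t)
  obtain ⟨P, hP⟩ : ∃ P : ZMod N → ℝ, P = fun t =>
    ∑ j ∈ range T, ‖Ex a L (al N t + (j : ℝ) / N)‖ ^ 2 := ⟨_, rfl⟩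
  obtain ⟨E, hE⟩ : ∃ E : ZMod N → ℝ, E = fun t =>
    ∑ j ∈ range T, ‖Cq M M' (al N t + (j : ℝ) / N)‖ ^ 2 := ⟨_, rfl⟩
  obtain ⟨W, hW⟩ : ∃ W : ZMod N → ℝ, W = fun t => Wq M M' L X (al N t) := ⟨_, rfl⟩
  have hP0 : ∀ t, 0 ≤ P t := by
    intro t
    rw [hP]
    exact sum_nonneg fun _ _ => by positivity
  have hPE : ∀ t, (∑ j ∈ range T, ‖Ex a L (al N t + (j : ℝ) / N)‖ ^ 2) *
      ∑ j ∈ range T, ‖Cq M M' (al N t + (j : ℝ) / N)‖ ^ 2 = P t * E t := by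
    intro t
    rw [hP, hE]
  simp only [hPE] at htf
  have hEW : ∀ t, (X : ℝ) ^ 2 * E t ≤ 4 * N * W t := by
    intro t
    rw [hE, hW]
    exact hebd t
  obtain ⟨S2, hS2⟩ : ∃ S2 : ℝ, S2 = ∑ n ∈ Icc 1 L, ‖a n‖ ^ 2 := ⟨_, rfl⟩
  have hS20 : 0 ≤ S2 := by
    rw [hS2]
    exact sum_nonneg fun _ _ => by positivity
  have hsumP : ∑ t : ZMod N, P t = T * (N * S2) := by
    rw [hP, hS2]
    exact sumP a L N T (by omega)
  -- the set of the large values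
  obtain ⟨G, hG⟩ : ∃ G : Finset (ZMod N), G =
      univ.filter (fun t : ZMod N => δ * (X : ℝ) ^ 2 / M ≤ W t) := ⟨_, rfl⟩
  obtain ⟨A, hA⟩ : ∃ A : Finset (ZMod N), ∀ t, t ∈ A ↔
      ∃ q ∈ Icc 1 Q, ∃ b ∈ range q, ∃ i : ℤ, |al N t - (b : ℝ) / q - i| ≤ 1 / (6 * h) := by
    refine ⟨(Set.toFinite {t : ZMod N | ∃ q ∈ Icc 1 Q, ∃ b ∈ range q, ∃ i : ℤ,
      |al N t - (b : ℝ) / q - i| ≤ 1 / (6 * h)}).toFinset, fun t => ?_⟩
    rw [Set.Finite.mem_toFinset]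
    exact Iff.rfl
  have hGA : ∀ t ∈ G, ∀ j ∈ range T, t + (j : ZMod N) ∈ A := by
    intro t ht j hj
    rw [hG, mem_filter] at ht
    rw [mem_range] at hj
    have hW' : δ * (X : ℝ) ^ 2 / M ≤ Wq M M' L X (al N t) := by
      have := ht.2
      rw [hW] at this
      exact this
    obtain ⟨r, hr1, hr2, hr3⟩ := wmin M M' L X (al N t) δ hδ hδ1 hM' (by omega) hM hX hW'
    have hrQ : r ≤ Q := by exact_mod_cast hr2.trans hQ
    obtain ⟨b, hb, i, hi⟩ := approx (al N t) r hr1 ((Q : ℝ) / X)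
      (hr3.trans (div_le_div_of_nonneg_right hQ hX0.le))
    obtain ⟨n, hn⟩ := al_add N j t
    rw [hA]
    refine ⟨r, mem_Icc.2 ⟨hr1, hrQ⟩, b, hb, i + n, ?_⟩
    have e1 : al N (t + (j : ZMod N)) - (b : ℝ) / r - ((i + n : ℤ) : ℝ) =
        (al N t - (b : ℝ) / r - i) + (j : ℝ) / N := by
      rw [hn]
      push_cast
      ring
    rw [e1]
    have h1 : |(j : ℝ) / N| ≤ 1 / (6 * X) := by
      rw [abs_of_nonneg (by positivity), hNR, div_le_div_iff₀ (by positivity) (by positivity)]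
      have h2 : (j : ℝ) ≤ T := by exact_mod_cast hj.le
      have h3 : (j : ℝ) * (6 * X) ≤ T * (6 * X) := mul_le_mul_of_nonneg_right h2 (by positivity)
      linarith
    refine (abs_add_le _ _).trans ((add_le_add hi h1).trans ?_)
    have h2 : (12 * h * Q : ℝ) ≤ X := by exact_mod_cast hhQ
    have h3 : (1 : ℝ) / (6 * X) ≤ Q / X := by
      rw [div_le_div_iff₀ (by positivity) hX0]
      nlinarith
    have h4 : (Q : ℝ) / X + Q / X ≤ 1 / (6 * h) := by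
      rw [← two_mul, mul_div_assoc', div_le_div_iff₀ hX0 (by positivity)]
      linarith
    linarith
  have harcs : (h : ℝ) ^ 2 * ∑ t ∈ A, ‖Ex a L (al N t)‖ ^ 2 ≤ 4 * N * (Q : ℝ) ^ 4 * V :=
    arcs a L N Q h V hh (by omega) hV0 A (fun t ht => (hA t).1 ht) hV
  have hGP : ∑ t ∈ G, P t ≤ T * ∑ t ∈ A, ‖Ex a L (al N t)‖ ^ 2 := by
    rw [hP, sum_comm]
    have h1 : ∀ j ∈ range T, ∑ t ∈ G, ‖Ex a L (al N t + (j : ℝ) / N)‖ ^ 2 ≤
        ∑ t ∈ A, ‖Ex a L (al N t)‖ ^ 2 := by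
      intro j hj
      simp only [ex_shift]
      have h2 : ∑ t ∈ G, ‖Ex a L (al N (t + (j : ZMod N)))‖ ^ 2 =
          ∑ t ∈ G.image (fun t => t + (j : ZMod N)), ‖Ex a L (al N t)‖ ^ 2 := by
        rw [sum_image]
        intro x _ y _ hxy
        exact add_right_cancel hxy
      rw [h2]
      refine sum_le_sum_of_subset_of_nonneg ?_ fun _ _ _ => by positivity
      intro t ht
      rw [mem_image] at ht
      obtain ⟨t', ht', rfl⟩ := ht
      exact hGA t' ht' j hj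
    calc ∑ j ∈ range T, ∑ t ∈ G, ‖Ex a L (al N t + (j : ℝ) / N)‖ ^ 2
        ≤ ∑ _j ∈ range T, ∑ t ∈ A, ‖Ex a L (al N t)‖ ^ 2 := sum_le_sum h1
      _ = T * ∑ t ∈ A, ‖Ex a L (al N t)‖ ^ 2 := by
          rw [sum_const, card_range, nsmul_eq_mul]
  have hh2 : (0 : ℝ) < (h : ℝ) ^ 2 := by positivity
  have hGP2 : ∑ t ∈ G, P t ≤ T * (4 * N * (Q : ℝ) ^ 4 * V / (h : ℝ) ^ 2) := by
    refine hGP.trans (mul_le_mul_of_nonneg_left ?_ hTR.le)
    rw [le_div_iff₀ hh2]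
    linarith
  -- the two ranges
  have hEmin : ∀ t, t ∉ G → E t ≤ 4 * N * δ / M := by
    intro t ht
    have h1 : W t < δ * (X : ℝ) ^ 2 / M := by
      by_contra hcon
      exact ht (by rw [hG, mem_filter]; exact ⟨mem_univ _, not_lt.1 hcon⟩)
    have h2 := hEW t
    have h3 : (X : ℝ) ^ 2 * E t ≤ (X : ℝ) ^ 2 * (4 * N * δ / M) := by
      refine h2.trans ?_
      calc 4 * (N : ℝ) * W t ≤ 4 * N * (δ * (X : ℝ) ^ 2 / M) :=
            mul_le_mul_of_nonneg_left h1.le (by positivity)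
        _ = _ := by ring
    exact le_of_mul_le_mul_left h3 (by positivity)
  have hEmaj : ∀ t, E t ≤ 16 * N / M := by
    intro t
    have h1 : W t ≤ 4 * (X : ℝ) ^ 2 / M := by
      rw [hW]
      exact wtriv M M' L X (al N t) hM1 hM' (by omega) hM2X
    have h3 : (X : ℝ) ^ 2 * E t ≤ (X : ℝ) ^ 2 * (16 * N / M) := by
      refine (hEW t).trans ?_
      calc 4 * (N : ℝ) * W t ≤ 4 * N * (4 * (X : ℝ) ^ 2 / M) :=
            mul_le_mul_of_nonneg_left h1 (by positivity)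
        _ = _ := by ring
    exact le_of_mul_le_mul_left h3 (by positivity)
  have hsum : ∑ t : ZMod N, P t * E t ≤
      (T * (N * S2)) * (4 * N * δ / M) +
        (T * (4 * N * (Q : ℝ) ^ 4 * V / (h : ℝ) ^ 2)) * (16 * N / M) := by
    have h1 : ∀ t ∈ (univ : Finset (ZMod N)), P t * E t ≤
        P t * (4 * N * δ / M) + (if t ∈ G then P t * (16 * N / M) else 0) := by
      intro t _
      split_ifs with ht
      · have h2 := mul_le_mul_of_nonneg_left (hEmaj t) (hP0 t)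
        have h3 : 0 ≤ P t * (4 * N * δ / M) := by
          have := hP0 t
          positivity
        linarith
      · have h2 := mul_le_mul_of_nonneg_left (hEmin t ht) (hP0 t)
        linarith
    refine (sum_le_sum h1).trans ?_
    rw [sum_add_distrib, ← sum_mul, hsumP]
    refine add_le_add le_rfl ?_
    rw [sum_ite_mem, univ_inter, ← sum_mul]
    exact mul_le_mul_of_nonneg_right hGP2 (by positivity)
  -- conclusion
  rw [← hS2]
  have hfin : (T : ℝ) ^ 2 * N * ∑ k ∈ Ioc K (K + X), ‖∑ m ∈ Ioc M M', a (m ^ 3 + k)‖ ^ 2 ≤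
      (T : ℝ) ^ 2 * N * (96 * δ * (X / M) * S2 +
        1536 * X * (Q : ℝ) ^ 4 * V / (M * (h : ℝ) ^ 2)) := by
    calc (T : ℝ) ^ 2 * N * ∑ k ∈ Ioc K (K + X), ‖∑ m ∈ Ioc M M', a (m ^ 3 + k)‖ ^ 2
        = (T : ℝ) ^ 2 * (N * ∑ k ∈ Ioc K (K + X), ‖∑ m ∈ Ioc M M', a (m ^ 3 + k)‖ ^ 2) := by ring
      _ ≤ 4 * ∑ t : ZMod N, P t * E t := htf
      _ ≤ 4 * ((T * (N * S2)) * (4 * N * δ / M) +
        (T * (4 * N * (Q : ℝ) ^ 4 * V / (h : ℝ) ^ 2)) * (16 * N / M)) :=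
          mul_le_mul_of_nonneg_left hsum (by norm_num)
      _ = _ := by
          rw [hNR]
          field_simp
          ring
  exact le_of_mul_le_mul_left hfin (by positivity)

end Pool.Agent.H12.HQ
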