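import Pool.Agent.H43.TP.Defs
import Pool.Agent.H43.HY.Defs

/-!
# Hardy-Littlewood for `m^3+k`, almost all `k` of an interval `(K, K+X]`, `X^(1/18+ε) <= M <= X^(1/2) (log X)^(-C)`

MP_4d57ea_nt (think 834). The new range is `M >= X^(1/3)`: there the Fourier transform is localised to arcs of
length about `1/X`; on such an arc the mean square of the cubic Weyl sum is bounded by the short sums over the
cubes in the windows of length `X` (`Wq`), and these by the differenced (quadratic) sums of full length.

* `Rec` (many large quadratic sums give a rational approximation), `Wex` (expansion of `Wq`), `Wmn` (minor arcs).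
* `Tf` (localisation), `Ebd` (Gallagher's lemma for the Weyl sum), `Cor` (transfer theorem), `Win` (windows of the primes).
* `L2s`, `Ors` (model in short intervals), `Lgn` (dyadic range), `Aln` (all `M`), `Msn`, `Fin` (main term, theorem).
-/

namespace Pool.Agent.H12.HQ

open Finset Pool.Agent.H26.LDP

/-- the cubic Weyl sum over `(M, M']` -/
noncomputable def Cq (M M' : ℕ) (x : ℝ) : ℂ := ∑ m ∈ Ioc M M', e ((m : ℝ) ^ 3 * x)

/-- the square sum of the cubic sums over the windows of length `H` -/
noncomputable def Wq (M M' L H : ℕ) (x : ℝ) : ℝ :=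
  ∑ y ∈ Icc 1 (L + H), ‖∑ m ∈ (Ioc M M').filter (fun m => y - H < m ^ 3 ∧ m ^ 3 ≤ y),
    e ((m : ℝ) ^ 3 * x)‖ ^ 2

/-- the differenced (quadratic) sum of length `n` -/
noncomputable def Dq (M h n : ℕ) (x : ℝ) : ℂ :=
  ∑ m ∈ Icc 1 n, e (((M + (m + h) : ℕ) : ℝ) ^ 3 * x - ((M + m : ℕ) : ℝ) ^ 3 * x)

end Pool.Agent.H12.HQ
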