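import Pool.Agent.H43.TQ.Or2

/-!
# [H12 HQ ORS] Orthogonality of the singular series in a short interval

PROOF. As `H43/TQ/Or2.lean` (theorem `orth2`), with `TP.or_off` and `TP.or_diag` (file `H43/TP/Or.lean`) for shifted intervals. `TP.or_main` for the shifted function: if `f (m+N) = f m` and
`|f m| <= 1` then `|Σ_{k ∈ Ioc K (K+X)} f k - (X/N) Σ_{k ∈ range N} f k| <= N`: apply `or_main` to `m ↦ f (K+m)` (`Σ_{k ∈ Icc 1 X} f (K+k) = Σ_{k ∈ Ioc K (K+X)} f k`, and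
`Σ_{k ∈ range N} f (K+k) = Σ_{Ico K (K+N)} f = Σ_{range N} f` by `TP.or_shift`). Then repeat the proofs of `or_off`, `or_diag` (a few lines each) and of `orth2` with `Ioc K (K+X)` in
place of `Icc 1 X`.
-/

namespace Pool.Agent.H12.HQ

open Finset Pool.Agent.H43

private theorem ors_ioc (f : ℕ → ℝ) (K X : ℕ) :
    ∑ k ∈ Ioc K (K + X), f k = ∑ k ∈ Icc 1 X, f (K + k) := by
  refine sum_bij' (fun n _ => n - K) (fun n _ => K + n) ?_ ?_ ?_ ?_ ?_
  · intro n hn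
    rw [mem_Ioc] at hn
    rw [mem_Icc]
    omega
  · intro n hn
    rw [mem_Icc] at hn
    rw [mem_Ioc]
    omega
  · intro n hn
    rw [mem_Ioc] at hn
    show K + (n - K) = n
    omega
  · intro n _
    show K + n - K = n
    omega
  · intro n hn
    rw [mem_Ioc] at hn
    show f n = f (K + (n - K))
    rw [show K + (n - K) = n by omega]

open TP in
private theorem ors_main (f : ℕ → ℝ) (N : ℕ) (hN : 0 < N) (hf : ∀ m, f (m + N) = f m)
    (hb : ∀ m, |f m| ≤ 1) (X K : ℕ) :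
    |∑ k ∈ Icc 1 X, f (K + k) - ((X / N : ℕ) : ℝ) * ∑ k ∈ range N, f k| ≤ N := by
  have h := or_main (fun m => f (K + m)) N hN (fun m => by
    show f (K + (m + N)) = f (K + m)
    rw [← add_assoc, hf]) (fun m => hb _) X
  have h2 : ∑ k ∈ range N, f (K + k) = ∑ k ∈ range N, f k := by
    rw [← or_shift f N hf K, Finset.sum_Ico_eq_sum_range, Nat.add_sub_cancel_left]
  rw [h2] at h
  exact h

open TP in
private theorem ors_off (r r' X K : ℕ) (hr : Squarefree r) (hr' : Squarefree r') (hne : r ≠ r') :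
    ∑ k ∈ Icc 1 X, ar r (K + k) * ar r' (K + k) ≤ (r : ℝ) * r' := by
  have hr0 : 0 < r := Nat.pos_of_ne_zero hr.ne_zero
  have hr0' : 0 < r' := Nat.pos_of_ne_zero hr'.ne_zero
  have h := ors_main (fun k => ar r k * ar r' k) (r * r') (Nat.mul_pos hr0 hr0')
    (fun m => by
      simp only [or_ar_per r (r * r') m (dvd_mul_right _ _),
        or_ar_per r' (r * r') m (dvd_mul_left _ _)])
    (fun m => by
      have h1 := ar_abs r m
      have h2 := ar_abs r' m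
      rw [abs_mul]
      exact mul_le_one₀ h1 (abs_nonneg _) h2) X K
  rw [or_orth r r' hr hr' hne, mul_zero, sub_zero] at h
  have := (abs_le.1 h).2
  push_cast at this
  exact this

open TP in
private theorem ors_diag (r X K : ℕ) (hr : Squarefree r) :
    ∑ k ∈ Icc 1 X, ar r (K + k) * ar r (K + k) ≤ 4 * X * (1 / ((r : ℝ) * √(r : ℝ))) + r := by
  have hr0 : 0 < r := Nat.pos_of_ne_zero hr.ne_zero
  have hr1 : (0 : ℝ) < r := by exact_mod_cast hr0
  have hs : 0 < √(r : ℝ) := Real.sqrt_pos.2 hr1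
  have h := ors_main (fun k => ar r k * ar r k) r hr0
    (fun m => by simp only [or_ar_per r r m dvd_rfl])
    (fun m => by
      have := ar_abs r m
      rw [abs_mul]
      nlinarith [abs_nonneg (ar r m)]) X K
  have h1 := (abs_le.1 h).2
  have h2 : ∑ k ∈ range r, ar r k * ar r k = oD r :=
    sum_congr rfl fun k _ => (sq (ar r k)).symm
  simp only [h2] at h1
  have h3 : oD r ≤ 4 / √(r : ℝ) := by
    rw [le_div_iff₀ hs, mul_comm]
    exact oF_le r hr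
  have h4 : ((X / r : ℕ) : ℝ) ≤ X / r := Nat.cast_div_le
  have h5 : ((X / r : ℕ) : ℝ) * oD r ≤ X / r * (4 / √(r : ℝ)) :=
    mul_le_mul h4 h3 (oD_nonneg r) (by positivity)
  have h6 : (X : ℝ) / r * (4 / √(r : ℝ)) = 4 * X * (1 / ((r : ℝ) * √(r : ℝ))) := by
    field_simp
  linarith

open TP in
theorem ors (Q0 Q X K : ℕ) (hQ0 : 1 ≤ Q0) (s : Finset ℕ) (hs : ∀ r ∈ s, Q0 < r ∧ r ≤ Q) :
    ∑ k ∈ Ioc K (K + X), (∑ r ∈ s, TP.ar r k) ^ 2 ≤
      50 * X * (Q0 : ℝ) ^ (-(1 : ℝ) / 2) + 2 * (Q : ℝ) ^ 4 := by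
  classical
  rw [ors_ioc (fun k => (∑ r ∈ s, TP.ar r k) ^ 2) K X]
  rcases s.eq_empty_or_nonempty with hse | hse
  · subst hse
    simp only [sum_empty, ne_eq, OfNat.ofNat_ne_zero, not_false_eq_true, zero_pow,
      sum_const_zero]
    positivity
  obtain ⟨r0, hr0⟩ := hse
  have hQ : 1 ≤ Q := by
    have := hs r0 hr0
    omega
  set R := s.filter Squarefree with hR
  have hRQ : ∀ r ∈ R, r ≤ Q := fun r hr => (hs r (mem_filter.1 hr).1).2
  have hRs : ∀ r ∈ R, Squarefree r := fun r hr => (mem_filter.1 hr).2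
  have hRy : ∀ r ∈ R, Q0 < r := fun r hr => (hs r (mem_filter.1 hr).1).1
  have hcard : (R.card : ℝ) ≤ Q := by
    have h1 : R.card ≤ (Icc 1 Q).card := by
      refine card_le_card fun r hr => mem_Icc.2 ⟨?_, hRQ r hr⟩
      have := hRy r hr
      omega
    rw [Nat.card_Icc, Nat.add_sub_cancel] at h1
    exact_mod_cast h1
  have hQ1 : (1 : ℝ) ≤ Q := by exact_mod_cast hQ
  have hy1 : (1 : ℝ) ≤ Q0 := by exact_mod_cast hQ0
  have e1 : ∀ k, ∑ r ∈ s, ar r k = ∑ r ∈ R, ar r k := by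
    intro k
    refine (sum_filter_of_ne fun r _ hne => ?_).symm
    by_contra hns
    exact hne (ar_sqf r k hns)
  have e2 : ∑ k ∈ Icc 1 X, (∑ r ∈ s, ar r (K + k)) ^ 2 =
      ∑ r ∈ R, ∑ r' ∈ R, ∑ k ∈ Icc 1 X, ar r (K + k) * ar r' (K + k) := by
    rw [sum_congr rfl fun k _ => by rw [e1 (K + k), sq, sum_mul_sum], sum_comm]
    refine sum_congr rfl fun r _ => ?_
    rw [sum_comm]
  rw [e2]
  have h1 : ∀ r ∈ R, ∑ r' ∈ R, ∑ k ∈ Icc 1 X, ar r (K + k) * ar r' (K + k) ≤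
      4 * X * (1 / ((r : ℝ) * √(r : ℝ))) + Q + (Q : ℝ) ^ 3 := by
    intro r hr
    rw [← add_sum_erase R _ hr]
    have hrQ : (r : ℝ) ≤ Q := by exact_mod_cast hRQ r hr
    have h2 : ∑ r' ∈ R.erase r, ∑ k ∈ Icc 1 X, ar r (K + k) * ar r' (K + k) ≤ (Q : ℝ) ^ 3 := by
      calc ∑ r' ∈ R.erase r, ∑ k ∈ Icc 1 X, ar r (K + k) * ar r' (K + k)
          ≤ ∑ r' ∈ R.erase r, (Q : ℝ) * Q := by
            refine sum_le_sum fun r' hr' => ?_
            have h3 := mem_erase.1 hr'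
            have hr'Q : (r' : ℝ) ≤ Q := by exact_mod_cast hRQ r' h3.2
            refine (ors_off r r' X K (hRs r hr) (hRs r' h3.2) h3.1.symm).trans ?_
            gcongr
        _ = ((R.erase r).card : ℝ) * (Q * Q) := by rw [sum_const, nsmul_eq_mul]
        _ ≤ Q * (Q * Q) := by
            have h4 : ((R.erase r).card : ℝ) ≤ Q :=
              le_trans (by exact_mod_cast card_erase_le) hcard
            gcongr
        _ = (Q : ℝ) ^ 3 := by ring
    have h5 := ors_diag r X K (hRs r hr)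
    linarith
  refine (sum_le_sum h1).trans ?_
  rw [sum_add_distrib, sum_add_distrib, sum_const, sum_const, nsmul_eq_mul, nsmul_eq_mul,
    ← mul_sum]
  have h6 : ∑ r ∈ R, 1 / ((r : ℝ) * √(r : ℝ)) ≤ 2 * (1 / √(Q0 : ℝ)) := by
    have hge : Q0 ≤ Q := by
      have := hs r0 hr0
      omega
    have hsub : R ⊆ Ioc Q0 Q := fun r hr => mem_Ioc.2 ⟨hRy r hr, hRQ r hr⟩
    refine (sum_le_sum_of_subset_of_nonneg hsub fun r _ _ => by positivity).trans ?_
    refine (or_tail Q0 Q hQ0 hge).trans ?_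
    have : 0 ≤ 1 / √(Q : ℝ) := by positivity
    linarith
  have h7 : (Q0 : ℝ) ^ (-(1 : ℝ) / 2) = 1 / √(Q0 : ℝ) := by
    rw [Real.sqrt_eq_rpow, neg_div, Real.rpow_neg (by linarith), one_div ((Q0 : ℝ) ^ _)]
  rw [h7]
  have hX : (0 : ℝ) ≤ X := Nat.cast_nonneg _
  have h8 : 0 ≤ 1 / √(Q0 : ℝ) := by positivity
  have h9 : 4 * (X : ℝ) * ∑ r ∈ R, 1 / ((r : ℝ) * √(r : ℝ)) ≤ 50 * X * (1 / √(Q0 : ℝ)) := by
    have := mul_le_mul_of_nonneg_left h6 (by positivity : (0 : ℝ) ≤ 4 * X)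
    nlinarith [mul_nonneg hX h8]
  have h10 : (R.card : ℝ) * Q ≤ (Q : ℝ) ^ 4 := by
    calc (R.card : ℝ) * Q ≤ Q * Q := by gcongr
      _ = (Q : ℝ) ^ 2 := by ring
      _ ≤ (Q : ℝ) ^ 4 := pow_le_pow_right₀ hQ1 (by norm_num)
  have h11 : (R.card : ℝ) * (Q : ℝ) ^ 3 ≤ (Q : ℝ) ^ 4 := by
    calc (R.card : ℝ) * (Q : ℝ) ^ 3 ≤ Q * (Q : ℝ) ^ 3 := by gcongr
      _ = (Q : ℝ) ^ 4 := by ring
  linarith

end Pool.Agent.H12.HQ
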