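import Pool.Agent.H43.TQ.Ran
import Pool.Agent.H43.TQ.Mt2
import Pool.Agent.H12.HQ.Ors
import Pool.Agent.H12.HQ.Aln

/-!
# [H12 HQ MSN] The mean square theorem

PROOF. As `H43/HY/Msy.lean` (copy its private lemmas) with `Ioc K (K+X)` in place of `Icc 1 X`: `ors` instead of `TQ.orth2`, `aln` instead of `all`; `TQ.mt2` and `TQ.ran` are for every `k`.
`ℓ = log X`, `k0 = ⌈4A⌉₊ + 40`, `Q = ⌈2^65 ℓ^(24k0)⌉₊ <= ℓ^(25k0)`, `C1 = 3k0 + 1` (`M <= X^(1/2) ℓ^(-C1)` gives `M^2 ℓ^(6k0+1) <= X ℓ^(-1) <= X`). `aln` with `(A+2, ε, B', k0)` (`4(A+2)+30 <= k0`). For `k > Z >= 2`: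
`Σ_m az(m^3+k) = Σ_m pr(m^3+k) - Σ_m il(m^3+k) lq(m^3+k)`; `TQ.mt2` with `w m = il(m^3+k)` (decreasing, `<= 1`): `= Σ pr - V(k) Σ_{r<=Q} ar r k + O(2Q^2)`, `0 <= V(k) = Σ_m il(m^3+k) <= M`.
`C0 = 2A + 2k0 + 40`, `y = ⌊ℓ^C⌋₊`, `R = ⌈X^(1/10)⌉₊`: `Σ_{k ∈ Ioc K (K+X)} (Σ_{r<=Q} ar r k - S y k)^2 <= X ℓ^(-A-5)` exactly as in `Msy.lean` (`msy_split`, `msy_sing`; `TQ.ran` at `X`).
Total `<= 3 X M^2 ℓ^(-A-2) + 3X(2Q^2)^2 + 3 M^2 X ℓ^(-A-5) <= X M^2 ℓ^(-A)` (`M >= X^(1/18)`).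
-/

namespace Pool.Agent.H12.HQ

open Finset Pool.Agent.H43

private theorem msy_sq3 (a b c : ℝ) : (a + b + c) ^ 2 ≤ 3 * a ^ 2 + 3 * b ^ 2 + 3 * c ^ 2 := by
  nlinarith [sq_nonneg (a - b), sq_nonneg (b - c), sq_nonneg (a - c)]

private theorem msy_dvd (y r : ℕ) (hr : Squarefree r) (hy : r ≤ y) : r ∣ TP.Wy y := by
  rw [← Nat.prod_primeFactors_of_squarefree hr]
  unfold TP.Wy
  refine prod_dvd_prod_of_subset _ _ _ ?_
  intro p hp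
  rw [mem_filter, mem_Icc]
  have h1 := Nat.prime_of_mem_primeFactors hp
  have h0 : r ≠ 0 := hr.ne_zero
  have h2 := Nat.le_of_dvd (Nat.pos_of_ne_zero h0) (Nat.dvd_of_mem_primeFactors hp)
  exact ⟨⟨h1.one_lt.le, h2.trans hy⟩, h1⟩

private theorem msy_split (y Q R k : ℕ) (hQR : Q ≤ R) :
    ∑ r ∈ Icc 1 Q, TP.ar r k =
      ∑ r ∈ (Icc 1 Q).filter (fun r => Squarefree r ∧ ¬ r ∣ TP.Wy y), TP.ar r k +
      (∑ r ∈ (TP.Wy y).divisors.filter (fun r => r ≤ R), TP.ar r k -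
        ∑ r ∈ (TP.Wy y).divisors.filter (fun r => Q < r ∧ r ≤ R), TP.ar r k) := by
  have hW : TP.Wy y ≠ 0 := by
    unfold TP.Wy
    refine prod_ne_zero_iff.2 fun p hp => ?_
    exact (mem_filter.1 hp).2.ne_zero
  have h1 : ∑ r ∈ (TP.Wy y).divisors.filter (fun r => r ≤ R), TP.ar r k =
      ∑ r ∈ (TP.Wy y).divisors.filter (fun r => r ≤ Q), TP.ar r k +
        ∑ r ∈ (TP.Wy y).divisors.filter (fun r => Q < r ∧ r ≤ R), TP.ar r k := by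
    rw [← sum_filter_add_sum_filter_not ((TP.Wy y).divisors.filter (fun r => r ≤ R)) (fun r => r ≤ Q)]
    congr 1
    · refine sum_congr ?_ fun _ _ => rfl
      ext r
      simp only [mem_filter]
      constructor
      · rintro ⟨⟨h1, h2⟩, h3⟩
        exact ⟨h1, h3⟩
      · rintro ⟨h1, h2⟩
        exact ⟨⟨h1, h2.trans hQR⟩, h2⟩
    · refine sum_congr ?_ fun _ _ => rfl
      ext r
      simp only [mem_filter, not_le]
      constructor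
      · rintro ⟨⟨h1, h2⟩, h3⟩
        exact ⟨h1, h3, h2⟩
      · rintro ⟨h1, h2, h3⟩
        exact ⟨⟨h1, h3⟩, h2⟩
  have h2 : ∑ r ∈ Icc 1 Q, TP.ar r k =
      ∑ r ∈ (Icc 1 Q).filter (fun r => Squarefree r ∧ ¬ r ∣ TP.Wy y), TP.ar r k +
        ∑ r ∈ (TP.Wy y).divisors.filter (fun r => r ≤ Q), TP.ar r k := by
    rw [← sum_filter_add_sum_filter_not (Icc 1 Q) (fun r => r ∣ TP.Wy y), add_comm]
    congr 1
    · symm
      refine sum_subset_zero_on_sdiff ?_ ?_ fun _ _ => rfl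
      · intro r hr
        rw [mem_filter] at hr ⊢
        exact ⟨hr.1, hr.2.2⟩
      · intro r hr
        rw [mem_sdiff, mem_filter, mem_filter] at hr
        refine TP.ar_sqf r k fun hs => hr.2 ⟨hr.1.1, hs, hr.1.2⟩
    · refine sum_congr ?_ fun _ _ => rfl
      ext r
      simp only [mem_filter, mem_Icc, Nat.mem_divisors]
      constructor
      · rintro ⟨⟨h1, h2⟩, h3⟩
        exact ⟨⟨h3, hW⟩, h2⟩
      · rintro ⟨⟨h1, h2⟩, h3⟩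
        exact ⟨⟨Nat.pos_of_dvd_of_pos h1 (Nat.pos_of_ne_zero hW), h3⟩, h1⟩
  rw [h2, h1]
  ring

private theorem msy_sing (y Q R X K : ℕ) (ρ : ℝ) (hy : 1 ≤ y) (hQ : 1 ≤ Q) (hQR : Q ≤ R)
    (hρ : ∀ k, |HL.S y k - ∑ r ∈ (TP.Wy y).divisors.filter (fun r => r ≤ R), TP.ar r k| ≤ ρ) :
    ∑ k ∈ Ioc K (K + X), (∑ r ∈ Icc 1 Q, TP.ar r k - HL.S y k) ^ 2 ≤
      3 * (50 * X * (y : ℝ) ^ (-(1 : ℝ) / 2) + 2 * (Q : ℝ) ^ 4) +
      3 * (50 * X * (Q : ℝ) ^ (-(1 : ℝ) / 2) + 2 * (R : ℝ) ^ 4) + 3 * (X * ρ ^ 2) := by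
  have h1 := ors y Q X K hy ((Icc 1 Q).filter (fun r => Squarefree r ∧ ¬ r ∣ TP.Wy y)) (by
    intro r hr
    rw [mem_filter, mem_Icc] at hr
    refine ⟨?_, hr.1.2⟩
    by_contra hcon
    exact hr.2.2 (msy_dvd y r hr.2.1 (not_lt.1 hcon)))
  have h2 := ors Q R X K hQ ((TP.Wy y).divisors.filter (fun r => Q < r ∧ r ≤ R)) (by
    intro r hr
    rw [mem_filter] at hr
    exact hr.2)
  have h3 : ∀ k ∈ Ioc K (K + X), (∑ r ∈ Icc 1 Q, TP.ar r k - HL.S y k) ^ 2 ≤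
      3 * (∑ r ∈ (Icc 1 Q).filter (fun r => Squarefree r ∧ ¬ r ∣ TP.Wy y), TP.ar r k) ^ 2 +
      3 * (∑ r ∈ (TP.Wy y).divisors.filter (fun r => Q < r ∧ r ≤ R), TP.ar r k) ^ 2 +
      3 * ρ ^ 2 := by
    intro k _
    have h4 := hρ k
    have h5 : (HL.S y k - ∑ r ∈ (TP.Wy y).divisors.filter (fun r => r ≤ R), TP.ar r k) ^ 2 ≤
        ρ ^ 2 := by
      rw [← sq_abs]
      exact pow_le_pow_left₀ (abs_nonneg _) h4 2
    rw [msy_split y Q R k hQR]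
    have h6 := msy_sq3
      (∑ r ∈ (Icc 1 Q).filter (fun r => Squarefree r ∧ ¬ r ∣ TP.Wy y), TP.ar r k)
      (-∑ r ∈ (TP.Wy y).divisors.filter (fun r => Q < r ∧ r ≤ R), TP.ar r k)
      (-(HL.S y k - ∑ r ∈ (TP.Wy y).divisors.filter (fun r => r ≤ R), TP.ar r k))
    rw [neg_sq, neg_sq] at h6
    refine le_trans (le_of_eq ?_) (h6.trans (by linarith))
    ring
  refine (sum_le_sum h3).trans ?_
  rw [sum_add_distrib, sum_add_distrib, ← mul_sum, ← mul_sum, sum_const, Nat.card_Ioc,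
    nsmul_eq_mul, Nat.add_sub_cancel_left]
  linarith

private theorem msy_large (E T : ℝ) : ∃ X0 : ℕ, ∀ X : ℕ, X0 ≤ X →
    T ≤ Real.log X ∧ (Real.log X) ^ E ≤ (X : ℝ) ^ ((1 : ℝ) / 20) := by
  have h1 : ∀ᶠ X : ℕ in Filter.atTop, T ≤ Real.log X :=
    (Real.tendsto_log_atTop.comp tendsto_natCast_atTop_atTop).eventually_ge_atTop T
  have h2 : ∀ᶠ X : ℕ in Filter.atTop, 0 ≤ Real.log X :=
    (Real.tendsto_log_atTop.comp tendsto_natCast_atTop_atTop).eventually_ge_atTop 0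
  have h3 := ((isLittleO_log_rpow_rpow_atTop E (by norm_num : (0 : ℝ) < 1 / 20)).comp_tendsto
    (tendsto_natCast_atTop_atTop (R := ℝ))).bound (c := 1) one_pos
  obtain ⟨X0, h⟩ := Filter.eventually_atTop.1 (h1.and (h2.and h3))
  refine ⟨X0, fun X hX => ?_⟩
  obtain ⟨a, b, c⟩ := h X hX
  refine ⟨a, ?_⟩
  simp only [Function.comp, one_mul, Real.norm_eq_abs] at c
  rw [abs_of_nonneg (Real.rpow_nonneg b _), abs_of_nonneg (by positivity)] at c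
  exact c

private theorem msy_il (n n' : ℕ) (hn : 3 ≤ n) (h : n ≤ n') : HY.il n' ≤ HY.il n ∧ 0 ≤ HY.il n ∧ HY.il n ≤ 1 := by
  have h3 : (3 : ℝ) ≤ n := by exact_mod_cast hn
  have h1 : 1 ≤ Real.log n := by
    rw [Real.le_log_iff_exp_le (by linarith)]
    have := Real.exp_one_lt_d9
    linarith
  have h2 : Real.log n ≤ Real.log n' := Real.log_le_log (by linarith) (by exact_mod_cast h)
  unfold HY.il
  refine ⟨one_div_le_one_div_of_le (by linarith) h2, by positivity, ?_⟩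
  rw [div_le_one (by linarith)]
  exact h1

private theorem msy_core (Q X Z M K y R : ℕ) (ρ : ℝ) (hQ : 1 ≤ Q) (hZ : 3 ≤ Z) (hy : 1 ≤ y)
    (hQR : Q ≤ R)
    (hρ : ∀ k, |HL.S y k - ∑ r ∈ (TP.Wy y).divisors.filter (fun r => r ≤ R), TP.ar r k| ≤ ρ) :
    ∑ k ∈ (Ioc K (K + X)).filter (fun k => Z < k), (∑ m ∈ Icc 1 M, HY.pr (m ^ 3 + k) -
        HL.S y k * ∑ m ∈ Icc 1 M, HY.il (m ^ 3 + k)) ^ 2 ≤
      3 * ∑ k ∈ (Ioc K (K + X)).filter (fun k => Z < k), (∑ m ∈ Icc 1 M, HY.az Q (m ^ 3 + k)) ^ 2 +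
      3 * (X * (2 * (Q : ℝ) ^ 2) ^ 2) +
      3 * ((M : ℝ) ^ 2 * (3 * (50 * X * (y : ℝ) ^ (-(1 : ℝ) / 2) + 2 * (Q : ℝ) ^ 4) +
        3 * (50 * X * (Q : ℝ) ^ (-(1 : ℝ) / 2) + 2 * (R : ℝ) ^ 4) + 3 * (X * ρ ^ 2))) := by
  have hsing := msy_sing y Q R X K ρ hy hQ hQR hρ
  have hsub : (Ioc K (K + X)).filter (fun k => Z < k) ⊆ Ioc K (K + X) := filter_subset _ _
  have h1 : ∀ k ∈ (Ioc K (K + X)).filter (fun k => Z < k), (∑ m ∈ Icc 1 M, HY.pr (m ^ 3 + k) -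
        HL.S y k * ∑ m ∈ Icc 1 M, HY.il (m ^ 3 + k)) ^ 2 ≤
      3 * (∑ m ∈ Icc 1 M, HY.az Q (m ^ 3 + k)) ^ 2 + 3 * (2 * (Q : ℝ) ^ 2) ^ 2 +
      3 * ((M : ℝ) ^ 2 * (∑ r ∈ Icc 1 Q, TP.ar r k - HL.S y k) ^ 2) := by
    intro k hk
    have hk2 : Z < k := (mem_filter.1 hk).2
    have hn : ∀ m : ℕ, 3 ≤ m ^ 3 + k := fun m => by omega
    have haz : ∑ m ∈ Icc 1 M, HY.az Q (m ^ 3 + k) = ∑ m ∈ Icc 1 M, HY.pr (m ^ 3 + k) -
        ∑ m ∈ Icc 1 M, HY.il (m ^ 3 + k) * TP.lq Q (m ^ 3 + k) := by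
      unfold HY.az
      rw [sum_sub_distrib]
    have h2 := TQ.mt2 Q M k (fun m => HY.il (m ^ 3 + k))
      (fun m _ => (msy_il (m ^ 3 + k) ((m + 1) ^ 3 + k) (hn m) (by
        have : m ^ 3 ≤ (m + 1) ^ 3 := Nat.pow_le_pow_left (by omega) 3
        omega)).1)
      (fun m _ => (msy_il (m ^ 3 + k) (m ^ 3 + k) (hn m) le_rfl).2.1)
    have h3 : |∑ m ∈ Icc 1 M, HY.il (m ^ 3 + k) * TP.lq Q (m ^ 3 + k) -
        (∑ m ∈ Icc 1 M, HY.il (m ^ 3 + k)) * ∑ r ∈ Icc 1 Q, TP.ar r k| ≤ 2 * (Q : ℝ) ^ 2 := by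
      refine h2.trans ?_
      have h4 : HY.il (1 ^ 3 + k) ≤ 1 := (msy_il (1 ^ 3 + k) (1 ^ 3 + k) (hn 1) le_rfl).2.2
      have h5 := mul_le_mul_of_nonneg_left h4 (by positivity : (0 : ℝ) ≤ 2 * (Q : ℝ) ^ 2)
      rw [mul_one] at h5
      exact h5
    have h5 : (∑ m ∈ Icc 1 M, HY.il (m ^ 3 + k) * TP.lq Q (m ^ 3 + k) -
        (∑ m ∈ Icc 1 M, HY.il (m ^ 3 + k)) * ∑ r ∈ Icc 1 Q, TP.ar r k) ^ 2 ≤
        (2 * (Q : ℝ) ^ 2) ^ 2 := by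
      rw [← sq_abs]
      exact pow_le_pow_left₀ (abs_nonneg _) h3 2
    have h6 : 0 ≤ ∑ m ∈ Icc 1 M, HY.il (m ^ 3 + k) :=
      sum_nonneg fun m _ => (msy_il (m ^ 3 + k) (m ^ 3 + k) (hn m) le_rfl).2.1
    have h7 : ∑ m ∈ Icc 1 M, HY.il (m ^ 3 + k) ≤ M := by
      have h8 := sum_le_card_nsmul (Icc 1 M) (fun m => HY.il (m ^ 3 + k)) 1
        (fun m _ => (msy_il (m ^ 3 + k) (m ^ 3 + k) (hn m) le_rfl).2.2)
      rw [Nat.card_Icc, nsmul_eq_mul, Nat.add_sub_cancel, mul_one] at h8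
      exact h8
    have h9 : (∑ m ∈ Icc 1 M, HY.il (m ^ 3 + k)) ^ 2 *
        (∑ r ∈ Icc 1 Q, TP.ar r k - HL.S y k) ^ 2 ≤
        (M : ℝ) ^ 2 * (∑ r ∈ Icc 1 Q, TP.ar r k - HL.S y k) ^ 2 :=
      mul_le_mul_of_nonneg_right (pow_le_pow_left₀ h6 h7 2) (sq_nonneg _)
    have h10 := msy_sq3
      (∑ m ∈ Icc 1 M, HY.pr (m ^ 3 + k) -
        ∑ m ∈ Icc 1 M, HY.il (m ^ 3 + k) * TP.lq Q (m ^ 3 + k))
      (∑ m ∈ Icc 1 M, HY.il (m ^ 3 + k) * TP.lq Q (m ^ 3 + k) -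
        (∑ m ∈ Icc 1 M, HY.il (m ^ 3 + k)) * ∑ r ∈ Icc 1 Q, TP.ar r k)
      ((∑ m ∈ Icc 1 M, HY.il (m ^ 3 + k)) * (∑ r ∈ Icc 1 Q, TP.ar r k - HL.S y k))
    rw [mul_pow (∑ m ∈ Icc 1 M, HY.il (m ^ 3 + k))] at h10
    rw [haz]
    refine le_trans (le_of_eq ?_) (h10.trans (by linarith))
    ring
  refine (sum_le_sum h1).trans ?_
  rw [sum_add_distrib, sum_add_distrib, ← mul_sum, ← mul_sum, ← mul_sum, sum_const,
    nsmul_eq_mul]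
  have h3 : ∑ k ∈ (Ioc K (K + X)).filter (fun k => Z < k), (∑ r ∈ Icc 1 Q, TP.ar r k - HL.S y k) ^ 2 ≤
      3 * (50 * X * (y : ℝ) ^ (-(1 : ℝ) / 2) + 2 * (Q : ℝ) ^ 4) +
      3 * (50 * X * (Q : ℝ) ^ (-(1 : ℝ) / 2) + 2 * (R : ℝ) ^ 4) + 3 * (X * ρ ^ 2) :=
    (sum_le_sum_of_subset_of_nonneg hsub fun _ _ _ => sq_nonneg _).trans hsing
  have h4 := mul_le_mul_of_nonneg_left h3 (by positivity : (0 : ℝ) ≤ (M : ℝ) ^ 2)
  have h5 : ((((Ioc K (K + X)).filter (fun k => Z < k)).card : ℕ) : ℝ) *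
      (3 * (2 * (Q : ℝ) ^ 2) ^ 2) ≤ 3 * (X * (2 * (Q : ℝ) ^ 2) ^ 2) := by
    have h6 : ((((Ioc K (K + X)).filter (fun k => Z < k)).card : ℕ) : ℝ) ≤ X := by
      have h61 : ((Ioc K (K + X)).filter (fun k => Z < k)).card ≤ X := by
        refine (card_filter_le _ _).trans ?_
        rw [Nat.card_Ioc, Nat.add_sub_cancel_left]
      exact_mod_cast h61
    have h7 := mul_le_mul_of_nonneg_right h6
      (by positivity : (0 : ℝ) ≤ 3 * (2 * (Q : ℝ) ^ 2) ^ 2)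
    linarith
  rw [← mul_sum]
  linarith

private theorem msy_fin (W U F X M q yy qq R ρ T : ℝ) (hX : 0 ≤ X)
    (h1 : T ≤ X * M ^ 2 * W) (h5 : q ^ 4 ≤ M ^ 2 * W) (h6 : yy ≤ U)
    (h7 : q ^ 4 ≤ X * U) (h8 : qq ≤ U) (h9 : R ^ 4 ≤ X * U) (h10 : ρ ^ 2 ≤ U)
    (h11 : U ≤ W) (h12 : 2000 * W ≤ F) (hW : 0 ≤ W) :
    3 * T + 3 * (X * (2 * q ^ 2) ^ 2) +
      3 * (M ^ 2 * (3 * (50 * X * yy + 2 * q ^ 4) +
        3 * (50 * X * qq + 2 * R ^ 4) + 3 * (X * ρ ^ 2))) ≤ X * M ^ 2 * F := by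
  have hM2 : 0 ≤ M ^ 2 := sq_nonneg M
  have hXM : 0 ≤ X * M ^ 2 := mul_nonneg hX hM2
  have t4 : X * (2 * q ^ 2) ^ 2 ≤ 4 * (X * M ^ 2 * W) := by
    have a1 := mul_le_mul_of_nonneg_left h5 hX
    have a2 : X * (2 * q ^ 2) ^ 2 = 4 * (X * q ^ 4) := by ring
    rw [a2]
    linarith
  have t5 : 3 * (50 * X * yy + 2 * q ^ 4) + 3 * (50 * X * qq + 2 * R ^ 4) + 3 * (X * ρ ^ 2) ≤
      400 * (X * U) := by
    have a1 := mul_le_mul_of_nonneg_left h6 hX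
    have a2 := mul_le_mul_of_nonneg_left h8 hX
    have a3 := mul_le_mul_of_nonneg_left h10 hX
    have a4 : 0 ≤ X * U := mul_nonneg hX (le_trans (sq_nonneg ρ) h10)
    linarith
  have t6 : M ^ 2 * (3 * (50 * X * yy + 2 * q ^ 4) +
      3 * (50 * X * qq + 2 * R ^ 4) + 3 * (X * ρ ^ 2)) ≤ 400 * (X * M ^ 2 * W) := by
    have a1 := mul_le_mul_of_nonneg_left t5 hM2
    have a2 := mul_le_mul_of_nonneg_left h11 hXM
    linarith
  have t7 := mul_le_mul_of_nonneg_left h12 hXM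
  have t8 : 0 ≤ X * M ^ 2 * W := mul_nonneg hXM hW
  linarith

theorem msn (hfzs : HY.FzS) (A ε B' : ℝ) (hA : 0 < A) (hε : 0 < ε) (hε1 : ε ≤ 1 / 100) (hB' : 0 < B') :
    ∃ C0 C1 : ℝ, 0 < C0 ∧ 0 < C1 ∧ ∀ C : ℝ, C0 ≤ C → ∃ X0 : ℕ, ∀ X : ℕ, X0 ≤ X →
    ∀ M Z K : ℕ, (X : ℝ) ^ ((1 : ℝ) / 18 + ε) ≤ M →
    (M : ℝ) ≤ (X : ℝ) ^ ((1 : ℝ) / 2) * (Real.log X) ^ (-C1) → K ≤ M ^ 3 →
    (X : ℝ) * (Real.log X) ^ (-B') ≤ Z →
    ∑ k ∈ (Ioc K (K + X)).filter (fun k => Z < k), (∑ m ∈ Icc 1 M, HY.pr (m ^ 3 + k) -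
        HL.S ⌊(Real.log X) ^ C⌋₊ k * ∑ m ∈ Icc 1 M, HY.il (m ^ 3 + k)) ^ 2 ≤
      X * (M : ℝ) ^ 2 * (Real.log X) ^ (-A) := by
  obtain ⟨k0, hk0⟩ : ∃ k0 : ℕ, k0 = ⌈4 * A⌉₊ + 40 := ⟨_, rfl⟩
  obtain ⟨KK, hKK⟩ : ∃ KK : ℝ, KK = (k0 : ℝ) := ⟨_, rfl⟩
  have hKKA' : 4 * A + 40 ≤ KK := by
    rw [hKK, hk0]
    push_cast
    linarith [Nat.le_ceil (4 * A)]
  have hKKA : A + 10 ≤ KK := by linarith
  have hKK0 : 0 < KK := by linarith
  obtain ⟨X1, hall⟩ := aln hfzs (A + 2) ε B' k0 (by linarith) hε hε1 hB' (by rw [← hKK]; linarith)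
  refine ⟨2 * A + 2 * KK + 40, 3 * KK + 1, by positivity, by positivity, fun C hC => ?_⟩
  have hC0 : 0 < C := by linarith
  obtain ⟨X2, hran⟩ := TQ.ran C (A + 10) hC0 (by linarith)
  obtain ⟨X3, hlarge⟩ := msy_large (100 * KK + B' + A + 20) (2 ^ 66)
  refine ⟨max X1 (max X2 (max X3 10)), fun X hX M Z K hM hMup hKM hZ => ?_⟩
  have hXX1 : X1 ≤ X := (le_max_left _ _).trans hX
  have hXX2 : X2 ≤ X := ((le_max_left _ _).trans (le_max_right _ _)).trans hX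
  have hXX3 : X3 ≤ X :=
    ((le_max_left _ _).trans ((le_max_right _ _).trans (le_max_right _ _))).trans hX
  have hXX4 : 10 ≤ X :=
    ((le_max_right _ _).trans ((le_max_right _ _).trans (le_max_right _ _))).trans hX
  obtain ⟨hl0, hY0⟩ := hlarge X hXX3
  have hran' := hran X hXX2
  have hall' := hall X hXX1
  obtain ⟨l, hl⟩ : ∃ l, l = Real.log X := ⟨_, rfl⟩
  obtain ⟨Y, hY⟩ : ∃ Y, Y = (X : ℝ) ^ ((1 : ℝ) / 20) := ⟨_, rfl⟩
  rw [← hl] at hZ hMup hl0 hY0 hran' hall' ⊢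
  rw [← hY] at hY0
  have hl1 : 1 ≤ l := le_trans (by norm_num) hl0
  have hlp : 0 < l := by linarith
  have hX10 : (10 : ℝ) ≤ X := by exact_mod_cast hXX4
  have hXp : (0 : ℝ) < X := by linarith
  have hYX : Y ^ 20 = X := by
    rw [hY, ← Real.rpow_natCast, ← Real.rpow_mul hXp.le]
    norm_num
  have hYX2 : (X : ℝ) ^ ((1 : ℝ) / 10) = Y ^ 2 := by
    rw [hY, ← Real.rpow_natCast, ← Real.rpow_mul hXp.le]
    norm_num
  rw [hYX2] at hran'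
  have hYM : Y ≤ M := by
    refine le_trans ?_ hM
    rw [hY]
    refine Real.rpow_le_rpow_of_exponent_le (by linarith) ?_
    have : (1 : ℝ) / 20 ≤ 1 / 18 := by norm_num
    linarith
  have hE : ∀ s : ℝ, s ≤ 100 * KK + B' + A + 20 → l ^ s ≤ Y := fun s hs =>
    (Real.rpow_le_rpow_of_exponent_le hl1 hs).trans hY0
  have hlY : l ≤ Y := by
    have := hE 1 (by linarith)
    rwa [Real.rpow_one] at this
  have hY1 : 1 ≤ Y := hl1.trans hlY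
  have hYX1 : Y ≤ X := by
    rw [← hYX]
    exact le_self_pow₀ hY1 (by norm_num)
  have hM1 : (1 : ℝ) ≤ M := hY1.trans hYM
  -- the modulus bound
  obtain ⟨Q, hQ⟩ : ∃ Q : ℕ, Q = ⌈(2 : ℝ) ^ 65 * l ^ (24 * k0)⌉₊ := ⟨_, rfl⟩
  have hQlow : (2 : ℝ) ^ 65 * l ^ (24 * k0) ≤ Q := by
    rw [hQ]
    exact Nat.le_ceil _
  have h24 : 1 ≤ l ^ (24 * k0) := one_le_pow₀ hl1
  have hQup : (Q : ℝ) ≤ l ^ (25 * k0) := by
    have h1 : (Q : ℝ) < (2 : ℝ) ^ 65 * l ^ (24 * k0) + 1 := by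
      rw [hQ]
      exact Nat.ceil_lt_add_one (by positivity)
    have h2 : l ^ (25 * k0) = l ^ k0 * l ^ (24 * k0) := by
      rw [← pow_add]
      congr 1
      ring
    have h3 : (2 : ℝ) ^ 66 ≤ l ^ k0 := hl0.trans (le_self_pow₀ hl1 (by omega))
    have h4 := mul_le_mul_of_nonneg_right h3 (by linarith : (0 : ℝ) ≤ l ^ (24 * k0))
    rw [h2]
    have h5 : (2 : ℝ) ^ 66 * l ^ (24 * k0) = (2 : ℝ) ^ 65 * l ^ (24 * k0) +
        (2 : ℝ) ^ 65 * l ^ (24 * k0) := by ring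
    have h6 : (1 : ℝ) ≤ (2 : ℝ) ^ 65 * l ^ (24 * k0) :=
      one_le_mul_of_one_le_of_one_le (by norm_num) h24
    linarith
  have hcv : ∀ n : ℕ, l ^ (n * k0) = l ^ ((n : ℝ) * KK) := by
    intro n
    rw [hKK, ← Real.rpow_natCast]
    push_cast
    rfl
  have hQ1 : (1 : ℝ) ≤ Q :=
    (one_le_mul_of_one_le_of_one_le (by norm_num : (1 : ℝ) ≤ 2 ^ 65) h24).trans hQlow
  have hQ1' : 1 ≤ Q := by exact_mod_cast hQ1
  have hQ4 : (Q : ℝ) ^ 4 ≤ l ^ (100 * KK) := by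
    refine (pow_le_pow_left₀ (by linarith) hQup 4).trans (le_of_eq ?_)
    rw [← pow_mul, mul_comm 25 k0, mul_assoc, mul_comm k0, hcv]
    norm_num
  have hQY : (Q : ℝ) ≤ Y := by
    refine hQup.trans ?_
    rw [hcv]
    exact hE _ (by push_cast; linarith)
  have hQ0 : 0 < (Q : ℝ) := by linarith
  have hMsq : (M : ℝ) ^ 2 * l ^ (6 * k0 + 1) ≤ X := by
    have h1 : (M : ℝ) ^ 2 ≤ ((X : ℝ) ^ ((1 : ℝ) / 2) * l ^ (-(3 * KK + 1))) ^ 2 :=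
      pow_le_pow_left₀ (Nat.cast_nonneg M) hMup 2
    have h2 : ((X : ℝ) ^ ((1 : ℝ) / 2)) ^ 2 = X := by
      rw [← Real.rpow_natCast, ← Real.rpow_mul hXp.le]
      norm_num
    have h3 : (l ^ (-(3 * KK + 1))) ^ 2 = l ^ (-(6 * KK + 2)) := by
      rw [← Real.rpow_natCast, ← Real.rpow_mul hlp.le]
      congr 1
      push_cast
      ring
    rw [mul_pow, h2, h3] at h1
    have h4 : l ^ (6 * k0 + 1) = l ^ (6 * KK + 1) := by
      rw [hKK, ← Real.rpow_natCast]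
      push_cast
      rfl
    rw [h4]
    have h5 := mul_le_mul_of_nonneg_right h1 (by positivity : (0 : ℝ) ≤ l ^ (6 * KK + 1))
    refine h5.trans ?_
    rw [mul_assoc, ← Real.rpow_add hlp]
    have h6 : -(6 * KK + 2) + (6 * KK + 1) = -1 := by ring
    rw [h6]
    have h7 : l ^ (-1 : ℝ) ≤ 1 := Real.rpow_le_one_of_one_le_of_nonpos hl1 (by norm_num)
    have h8 := mul_le_mul_of_nonneg_left h7 hXp.le
    linarith
  have hmain := hall' Q M Z K hQlow hQup hM hMsq hKM hZ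
  have hZ3 : 3 ≤ Z := by
    have h1 : (3 : ℝ) ≤ Z := by
      refine le_trans ?_ hZ
      have h2 : l ^ (1 + B') ≤ X := (hE _ (by linarith)).trans hYX1
      have h3 := mul_le_mul_of_nonneg_right h2 (by positivity : (0 : ℝ) ≤ l ^ (-B'))
      rw [← Real.rpow_add hlp] at h3
      have h4 : 1 + B' + -B' = 1 := by ring
      rw [h4, Real.rpow_one] at h3
      exact (le_trans (by norm_num) hl0).trans h3
    exact_mod_cast h1
  -- the local factors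
  obtain ⟨R, hR⟩ : ∃ R : ℕ, R = ⌈Y ^ 2⌉₊ := ⟨_, rfl⟩
  have hRlow : Y ^ 2 ≤ R := by
    rw [hR]
    exact Nat.le_ceil _
  have hY21 : 1 ≤ Y ^ 2 := one_le_pow₀ hY1
  have hRup : (R : ℝ) ≤ 2 * Y ^ 2 := by
    have h1 : (R : ℝ) < Y ^ 2 + 1 := by
      rw [hR]
      exact Nat.ceil_lt_add_one (by positivity)
    linarith
  have hQR : Q ≤ R := by
    have h1 : Y ≤ Y ^ 2 := le_self_pow₀ hY1 (by norm_num)
    exact_mod_cast hQY.trans (h1.trans hRlow)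
  obtain ⟨y, hy⟩ : ∃ y : ℕ, y = ⌊l ^ C⌋₊ := ⟨_, rfl⟩
  have hyup : (y : ℝ) ≤ l ^ C := by
    rw [hy]
    exact Nat.floor_le (by positivity)
  have hylow : l ^ (C - 1) ≤ y := by
    have h1 : l ^ C < (y : ℝ) + 1 := by
      rw [hy]
      exact Nat.lt_floor_add_one _
    have h2 : l ^ C = l ^ (C - 1) * l := by
      nth_rewrite 3 [← Real.rpow_one l]
      rw [← Real.rpow_add hlp]
      congr 1
      ring
    have h3 : 1 ≤ l ^ (C - 1) := Real.one_le_rpow hl1 (by linarith)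
    have h4 : (2 : ℝ) ≤ l := le_trans (by norm_num) hl0
    nlinarith
  have hy2 : 2 ≤ y := by
    have h1 : l ^ (1 : ℝ) ≤ l ^ (C - 1) := Real.rpow_le_rpow_of_exponent_le hl1 (by linarith)
    rw [Real.rpow_one] at h1
    have h2 : ((2 : ℕ) : ℝ) ≤ y := by
      push_cast
      exact (le_trans (by norm_num) hl0).trans (h1.trans hylow)
    exact_mod_cast h2
  have hρ : ∀ k, |HL.S y k - ∑ r ∈ (TP.Wy y).divisors.filter (fun r => r ≤ R), TP.ar r k| ≤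
      l ^ (-(A + 10)) := fun k => hran' y k R hy2 hyup hRlow
  rw [← hy]
  refine (msy_core Q X Z M K y R (l ^ (-(A + 10))) hQ1' hZ3 (by omega) hQR hρ).trans ?_
  have hU : l ^ (A + 10) * l ^ (-(A + 10)) = 1 := by
    rw [← Real.rpow_add hlp, add_neg_cancel, Real.rpow_zero]
  have hU0 : 0 < l ^ (-(A + 10)) := by positivity
  refine msy_fin (l ^ (-(A + 1))) (l ^ (-(A + 10))) (l ^ (-A)) X M Q _ _ R _ _
    hXp.le ?_ ?_ ?_ ?_ ?_ ?_ ?_ ?_ ?_ (by positivity)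
  · refine hmain.trans ?_
    refine mul_le_mul_of_nonneg_left ?_ (by positivity)
    exact Real.rpow_le_rpow_of_exponent_le hl1 (by linarith)
  · have h1 : l ^ (100 * KK) * l ^ (A + 1) ≤ M := by
      rw [← Real.rpow_add hlp]
      exact (hE _ (by linarith)).trans hYM
    have h2 : l ^ (A + 1) * l ^ (-(A + 1)) = 1 := by
      rw [← Real.rpow_add hlp, add_neg_cancel, Real.rpow_zero]
    have h3 : (M : ℝ) ≤ (M : ℝ) ^ 2 := by nlinarith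
    have h4 := mul_le_mul_of_nonneg_right (h1.trans h3)
      (by positivity : (0 : ℝ) ≤ l ^ (-(A + 1)))
    rw [mul_assoc, h2, mul_one] at h4
    exact hQ4.trans h4
  · have h1 : (y : ℝ) ^ (-(1 : ℝ) / 2) ≤ (l ^ (C - 1)) ^ (-(1 : ℝ) / 2) :=
      Real.rpow_le_rpow_of_nonpos (by positivity) hylow (by norm_num)
    refine h1.trans ?_
    rw [← Real.rpow_mul hlp.le]
    exact Real.rpow_le_rpow_of_exponent_le hl1 (by linarith)
  · have h1 : l ^ (100 * KK + A + 10) ≤ X := (hE _ (by linarith)).trans hYX1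
    have h2 := mul_le_mul_of_nonneg_right h1 hU0.le
    rw [← Real.rpow_add hlp] at h2
    have h3 : 100 * KK + A + 10 + -(A + 10) = 100 * KK := by ring
    rw [h3] at h2
    exact hQ4.trans h2
  · have h0 : l ^ (24 * KK) ≤ Q := by
      have h01 := hcv 24
      push_cast at h01
      rw [← h01]
      refine le_trans ?_ hQlow
      have h00 : (1 : ℝ) ≤ 2 ^ 65 := by norm_num
      nlinarith
    have h1 : (Q : ℝ) ^ (-(1 : ℝ) / 2) ≤ (l ^ (24 * KK)) ^ (-(1 : ℝ) / 2) :=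
      Real.rpow_le_rpow_of_nonpos (by positivity) h0 (by norm_num)
    refine h1.trans ?_
    rw [← Real.rpow_mul hlp.le]
    exact Real.rpow_le_rpow_of_exponent_le hl1 (by linarith)
  · have h1 : (R : ℝ) ^ 4 ≤ (2 * Y ^ 2) ^ 4 := pow_le_pow_left₀ (Nat.cast_nonneg R) hRup 4
    refine h1.trans ?_
    have h2 : l ^ (A + 10) ≤ Y := hE _ (by linarith)
    have h3 : 1 ≤ Y * l ^ (-(A + 10)) := by
      rw [← hU]
      exact mul_le_mul_of_nonneg_right h2 hU0.le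
    have h4 : (16 : ℝ) ≤ Y := (le_trans (by norm_num) hl0).trans hlY
    have h5 : Y ≤ Y ^ 11 := le_self_pow₀ hY1 (by norm_num)
    have h6 : (X : ℝ) * l ^ (-(A + 10)) = Y ^ 8 * Y ^ 11 * (Y * l ^ (-(A + 10))) := by
      rw [← hYX]
      ring
    rw [h6]
    have h7 : (2 * Y ^ 2) ^ 4 = Y ^ 8 * 16 * 1 := by ring
    rw [h7]
    have h8 : (16 : ℝ) ≤ Y ^ 11 := h4.trans h5
    gcongr
  · rw [← Real.rpow_mul_natCast hlp.le]
    refine Real.rpow_le_rpow_of_exponent_le hl1 ?_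
    push_cast
    linarith
  · exact Real.rpow_le_rpow_of_exponent_le hl1 (by linarith)
  · have h1 : l ^ (-A) = l * l ^ (-(A + 1)) := by
      nth_rewrite 2 [← Real.rpow_one l]
      rw [← Real.rpow_add hlp]
      congr 1
      ring
    rw [h1]
    exact mul_le_mul_of_nonneg_right (le_trans (by norm_num) hl0) (by positivity)

end Pool.Agent.H12.HQ
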