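import Pool.Agent.H43.HY.Fz0

/-!
# Copy of `H43/HY/Rgz.lean` with `fz` as a hypothesis (shorter import chain): windows of `az` restricted to `(Z, 2X]`

PROOF. `ℓ = log X`, `B' > 0`, `Z >= X ℓ^(-B')`. `azr n = az Q n` for `Z < n <= 2X`, `0` otherwise. `x <= Z`: the inner sum is `0`. `Z + h < x <= 2X`: the window `(x-h, x]` is inside
`(Z, 2X]`, start `x' = x - h ∈ (Z, 2X]`; `Ioc Z (2X)` is covered by the `Ioc ⌊Y_j⌋ ⌊2Y_j⌋`, `Y_j = 2^(-j) X`, `j = 0..J`, `J` minimal with `Y_J <= Z` (`Y_j >= Xℓ^(-B')/2`; if `Z >= X`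
take `J = 0`); `fz` with `(B+1, A+2, ε)` at `Y_j` (`ℓ/2 <= log Y_j <= ℓ`, `Q <= ℓ^B <= (log Y_j)^(B+1)`, `h >= X^(1/6+ε) >= Y_j^(1/6+ε)`,
`h <= X ℓ^(-A1) <= Y_j (log Y_j)^(-A1')`, `A1 = A1' + B' + 1`): `Σ_j Y_j h^2 (ℓ/2)^(-A-2) <= 2X h^2 2^(A+2) ℓ^(-A-2)`. The other `x` (at most `2h`): `|azr| <= 1 + Q <= 2Q`, so
`<= 2h (2Qh)^2 <= 8 h^3 ℓ^(2B) <= X h^2 ℓ^(-A-1)` if `A1 >= 2B + A + 3`.
-/

namespace Pool.Agent.H12.HQ.R

open Finset Pool.Agent.H43 Pool.Agent.H43.HY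

/-- `az` on `(Z, 2X]` -/
noncomputable def azr (Q X Z n : ℕ) : ℂ := if Z < n ∧ n ≤ 2 * X then ((az Q n : ℝ) : ℂ) else 0

private theorem rgz_lq (Q n : ℕ) : |TP.lq Q n| ≤ Q := by
  unfold TP.lq
  refine (abs_sum_le_sum_abs _ _).trans ?_
  have h : ∀ r ∈ Icc 1 Q, |((ArithmeticFunction.moebius r : ℤ) : ℝ) / (r.totient : ℝ) *
      (TP.crd r n : ℝ)| ≤ 1 := by
    intro r hr
    rw [mem_Icc] at hr
    have htot : (0 : ℝ) < r.totient := by exact_mod_cast Nat.totient_pos.2 hr.1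
    have hmu : |((ArithmeticFunction.moebius r : ℤ) : ℝ)| ≤ 1 := by
      exact_mod_cast ArithmeticFunction.abs_moebius_le_one
    rw [abs_mul, abs_div, abs_of_pos htot]
    calc |((ArithmeticFunction.moebius r : ℤ) : ℝ)| / r.totient * |(TP.crd r n : ℝ)|
        ≤ 1 / r.totient * r.totient :=
          mul_le_mul (div_le_div_of_nonneg_right hmu htot.le) (TP.ram_abs r n hr.1)
            (abs_nonneg _) (by positivity)
      _ = 1 := by field_simp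
  refine (Finset.sum_le_sum h).trans ?_
  rw [Finset.sum_const, nsmul_eq_mul, Nat.card_Icc]
  simp

private theorem rgz_card (a b h : ℕ) (hb : b ≤ a + h) (s : Finset ℕ)
    (hs : s ⊆ Ioc a b) : (s.card : ℝ) ≤ h := by
  have h1 := Finset.card_le_card hs
  rw [Nat.card_Ioc] at h1
  have h2 : s.card ≤ h := by omega
  exact_mod_cast h2

/-- the sum over the windows -/
private theorem rgz_sum (T : ℕ → ℝ) (U : ℕ → ℝ) (X Z h : ℕ) (K K3 : ℝ) (hK : 0 ≤ K)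
    (hK3 : 0 ≤ K3)
    (h0 : ∀ x, x ≤ Z → T x = 0)
    (h1 : ∀ x', Z < x' → x' + h ≤ 2 * X → T (x' + h) ≤ 3 * U x' ^ 2 + K)
    (h2 : ∀ x, T x ≤ K3) :
    ∑ x ∈ Icc 1 (2 * X + h), T x ≤
      3 * ∑ x' ∈ Ioc Z (2 * X), U x' ^ 2 + 2 * X * K + 2 * h * K3 := by
  have hpt : ∀ x ∈ Icc 1 (2 * X + h), T x ≤
      (if Z + h < x ∧ x ≤ 2 * X then 3 * U (x - h) ^ 2 else 0) +
      (if x ≤ 2 * X then K else 0) +
      (if x ∈ Ioc Z (Z + h) ∪ Ioc (2 * X) (2 * X + h) then K3 else 0) := by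
    intro x hx
    rw [mem_Icc] at hx
    have k1 : 0 ≤ (if x ≤ 2 * X then K else 0) := by
      split_ifs
      · exact hK
      · exact le_rfl
    have k2 : 0 ≤ (if x ∈ Ioc Z (Z + h) ∪ Ioc (2 * X) (2 * X + h) then K3 else 0) := by
      split_ifs
      · exact hK3
      · exact le_rfl
    have k3 : 0 ≤ (if Z + h < x ∧ x ≤ 2 * X then 3 * U (x - h) ^ 2 else 0) := by
      split_ifs
      · positivity
      · exact le_rfl
    by_cases c1 : x ≤ Z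
    · rw [h0 x c1]
      linarith
    · by_cases c2 : x ∈ Ioc Z (Z + h) ∪ Ioc (2 * X) (2 * X + h)
      · rw [if_pos c2]
        have := h2 x
        linarith
      · rw [Finset.mem_union, mem_Ioc, mem_Ioc] at c2
        have c3 : Z + h < x ∧ x ≤ 2 * X := by omega
        rw [if_pos c3, if_pos c3.2]
        have h3 := h1 (x - h) (by omega) (by omega)
        rw [Nat.sub_add_cancel (by omega)] at h3
        linarith
  refine (Finset.sum_le_sum hpt).trans ?_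
  rw [Finset.sum_add_distrib, Finset.sum_add_distrib]
  have s1 : ∑ x ∈ Icc 1 (2 * X + h), (if Z + h < x ∧ x ≤ 2 * X then 3 * U (x - h) ^ 2 else 0) ≤
      3 * ∑ x' ∈ Ioc Z (2 * X), U x' ^ 2 := by
    rw [← Finset.sum_filter, Finset.mul_sum]
    have e1 : ∑ x ∈ (Icc 1 (2 * X + h)).filter (fun x => Z + h < x ∧ x ≤ 2 * X),
        3 * U (x - h) ^ 2 =
        ∑ y ∈ ((Icc 1 (2 * X + h)).filter (fun x => Z + h < x ∧ x ≤ 2 * X)).image
          (fun x => x - h), 3 * U y ^ 2 := by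
      rw [Finset.sum_image]
      intro a ha b hb hab
      rw [Finset.mem_coe, mem_filter] at ha hb
      dsimp only at hab
      omega
    rw [e1]
    refine Finset.sum_le_sum_of_subset_of_nonneg ?_ fun y _ _ => by positivity
    intro y hy
    rw [Finset.mem_image] at hy
    obtain ⟨x, hx, rfl⟩ := hy
    rw [mem_filter] at hx
    rw [mem_Ioc]
    omega
  have s2 : ∑ x ∈ Icc 1 (2 * X + h), (if x ≤ 2 * X then K else 0) ≤ 2 * X * K := by
    rw [← Finset.sum_filter, Finset.sum_const, nsmul_eq_mul]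
    have h3 : (((Icc 1 (2 * X + h)).filter (fun x => x ≤ 2 * X)).card : ℝ) ≤ 2 * X := by
      have h4 : ((Icc 1 (2 * X + h)).filter (fun x => x ≤ 2 * X)).card ≤ 2 * X := by
        have h5 : (Icc 1 (2 * X + h)).filter (fun x => x ≤ 2 * X) ⊆ Icc 1 (2 * X) := by
          intro x hx
          rw [mem_filter, mem_Icc] at hx
          rw [mem_Icc]
          omega
        have h6 := Finset.card_le_card h5
        rw [Nat.card_Icc] at h6
        omega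
      exact_mod_cast h4
    exact mul_le_mul_of_nonneg_right h3 hK
  have s3 : ∑ x ∈ Icc 1 (2 * X + h),
      (if x ∈ Ioc Z (Z + h) ∪ Ioc (2 * X) (2 * X + h) then K3 else 0) ≤ 2 * h * K3 := by
    rw [← Finset.sum_filter, Finset.sum_const, nsmul_eq_mul]
    have h3 : (((Icc 1 (2 * X + h)).filter
        (fun x => x ∈ Ioc Z (Z + h) ∪ Ioc (2 * X) (2 * X + h))).card : ℝ) ≤ 2 * h := by
      have h4 : ((Icc 1 (2 * X + h)).filter
          (fun x => x ∈ Ioc Z (Z + h) ∪ Ioc (2 * X) (2 * X + h))).card ≤ 2 * h := by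
        have h5 : (Icc 1 (2 * X + h)).filter
            (fun x => x ∈ Ioc Z (Z + h) ∪ Ioc (2 * X) (2 * X + h)) ⊆
            Ioc Z (Z + h) ∪ Ioc (2 * X) (2 * X + h) := by
          intro x hx
          rw [mem_filter] at hx
          exact hx.2
        have h6 := (Finset.card_le_card h5).trans (Finset.card_union_le _ _)
        rw [Nat.card_Ioc, Nat.card_Ioc] at h6
        omega
      exact_mod_cast h4
    exact mul_le_mul_of_nonneg_right h3 hK3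
  linarith


private theorem rgz_il (n : ℕ) : 0 ≤ il n ∧ il n ≤ 2 := by
  unfold il
  have hn0 : 0 ≤ Real.log (n : ℝ) := Real.log_natCast_nonneg n
  refine ⟨by positivity, ?_⟩
  rcases Nat.lt_or_ge n 2 with h | h
  · have h1 : Real.log (n : ℝ) = 0 := by
      interval_cases n <;> simp
    rw [h1]
    norm_num
  · have h1 : Real.log 2 ≤ Real.log n := Real.log_le_log (by norm_num) (by exact_mod_cast h)
    have h2 := Real.log_two_gt_d9
    rw [div_le_iff₀ (by linarith)]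
    linarith

private theorem rgz_az (Q n : ℕ) : |az Q n| ≤ 1 + 2 * Q := by
  unfold az
  have h3 : |pr n - il n * TP.lq Q n| ≤ |pr n| + |il n * TP.lq Q n| := abs_sub _ _
  have h4 : |pr n| ≤ 1 := by
    unfold pr
    split_ifs <;> simp
  have h5 : |il n * TP.lq Q n| ≤ 2 * Q := by
    obtain ⟨h6, h7⟩ := rgz_il n
    rw [abs_mul, abs_of_nonneg h6]
    exact mul_le_mul h7 (rgz_lq Q n) (abs_nonneg _) (by norm_num)
  linarith

private theorem rgz_c (Q X Z q c h x : ℕ) :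
    ‖∑ n ∈ (Ioc (x - h) x).filter (fun n => n ≤ 2 * X ∧ n % q = c), azr Q X Z n‖ ≤
      h * (1 + 2 * Q) := by
  have h0 : 0 ≤ 1 + 2 * (Q : ℝ) := by positivity
  refine (norm_sum_le _ _).trans ?_
  have h1 : ∀ n ∈ (Ioc (x - h) x).filter (fun n => n ≤ 2 * X ∧ n % q = c),
      ‖azr Q X Z n‖ ≤ 1 + 2 * Q := by
    intro n _
    unfold azr
    split_ifs with h2
    · rw [Complex.norm_real, Real.norm_eq_abs]
      exact rgz_az Q n
    · rw [norm_zero]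
      exact h0
  refine (Finset.sum_le_sum h1).trans ?_
  rw [Finset.sum_const, nsmul_eq_mul]
  exact mul_le_mul_of_nonneg_right (rgz_card (x - h) x h (by omega) _
    (Finset.filter_subset _ _)) h0

private theorem rgz_zero (Q X Z q c h x : ℕ) (hx : x ≤ Z) :
    ∑ n ∈ (Ioc (x - h) x).filter (fun n => n ≤ 2 * X ∧ n % q = c), azr Q X Z n = 0 := by
  refine Finset.sum_eq_zero fun n hn => ?_
  rw [mem_filter, mem_Ioc] at hn
  unfold azr
  rw [if_neg]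
  intro h1
  omega

private theorem rgz_b (Q X Z q c h x' : ℕ) (hx1 : Z < x') (hx2 : x' + h ≤ 2 * X) :
    ‖∑ n ∈ (Ioc x' (x' + h)).filter (fun n => n ≤ 2 * X ∧ n % q = c), azr Q X Z n‖ ^ 2 =
      (∑ m ∈ (Ioc x' (x' + h)).filter (fun m => m % q = c), az Q m) ^ 2 := by
  have hWe : (Ioc x' (x' + h)).filter (fun n => n ≤ 2 * X ∧ n % q = c) =
      (Ioc x' (x' + h)).filter (fun m => m % q = c) := by
    refine Finset.filter_congr fun n hn => ?_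
    rw [mem_Ioc] at hn
    exact ⟨fun h1 => h1.2, fun h1 => ⟨by omega, h1⟩⟩
  rw [hWe]
  have e1 : ∑ n ∈ (Ioc x' (x' + h)).filter (fun m => m % q = c), azr Q X Z n =
      ((∑ n ∈ (Ioc x' (x' + h)).filter (fun m => m % q = c), az Q n : ℝ) : ℂ) := by
    rw [Complex.ofReal_sum]
    refine Finset.sum_congr rfl fun n hn => ?_
    rw [mem_filter, mem_Ioc] at hn
    unfold azr
    rw [if_pos ⟨by omega, by omega⟩]
  rw [e1, Complex.norm_real, Real.norm_eq_abs, sq_abs]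

/-- dyadic covering -/
private theorem rgz_dy (f : ℕ → ℝ) (hf : ∀ n, 0 ≤ f n) (X : ℕ) (J : ℕ) :
    ∑ n ∈ Ioc ⌊(X : ℝ) / 2 ^ J⌋₊ (2 * X), f n ≤
      ∑ j ∈ range (J + 1), ∑ n ∈ Ioc ⌊(X : ℝ) / 2 ^ j⌋₊ ⌊2 * ((X : ℝ) / 2 ^ j)⌋₊, f n := by
  induction J with
  | zero =>
    rw [sum_range_one]
    have h1 : ⌊2 * ((X : ℝ) / 2 ^ 0)⌋₊ = 2 * X := by
      rw [pow_zero, div_one]
      exact_mod_cast Nat.floor_natCast (2 * X)
    rw [h1]
  | succ J ih =>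
    rw [sum_range_succ]
    refine le_trans ?_ (add_le_add_left ih _)
    have h1 : ⌊2 * ((X : ℝ) / 2 ^ (J + 1))⌋₊ = ⌊(X : ℝ) / 2 ^ J⌋₊ := by
      congr 1
      rw [pow_succ]
      field_simp
    rw [h1]
    have h2 : Ioc ⌊(X : ℝ) / 2 ^ (J + 1)⌋₊ (2 * X) ⊆
        Ioc ⌊(X : ℝ) / 2 ^ J⌋₊ (2 * X) ∪ Ioc ⌊(X : ℝ) / 2 ^ (J + 1)⌋₊ ⌊(X : ℝ) / 2 ^ J⌋₊ := by
      intro n hn
      rw [mem_union, mem_Ioc, mem_Ioc]
      rw [mem_Ioc] at hn
      omega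
    refine (sum_le_sum_of_subset_of_nonneg h2 fun n _ _ => hf n).trans ?_
    have h3 := sum_union_inter (s₁ := Ioc ⌊(X : ℝ) / 2 ^ J⌋₊ (2 * X))
      (s₂ := Ioc ⌊(X : ℝ) / 2 ^ (J + 1)⌋₊ ⌊(X : ℝ) / 2 ^ J⌋₊) (f := f)
    have h4 : 0 ≤ ∑ n ∈ Ioc ⌊(X : ℝ) / 2 ^ J⌋₊ (2 * X) ∩
        Ioc ⌊(X : ℝ) / 2 ^ (J + 1)⌋₊ ⌊(X : ℝ) / 2 ^ J⌋₊, f n := sum_nonneg fun n _ => hf n
    linarith

private theorem rgz_geo (X : ℝ) (hX : 0 ≤ X) (J : ℕ) :
    ∑ j ∈ range (J + 1), X / 2 ^ j ≤ 2 * X := by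
  have h : ∀ J : ℕ, ∑ j ∈ range (J + 1), X / 2 ^ j = 2 * X - X / 2 ^ J := by
    intro J
    induction J with
    | zero =>
      rw [sum_range_one]
      simp
      ring
    | succ J ih =>
      rw [sum_range_succ, ih, pow_succ]
      field_simp
      ring
  rw [h J]
  have : 0 ≤ X / 2 ^ J := by positivity
  linarith

theorem rgz (hfzs : FzS) (B A ε B' : ℝ) (hB : 0 < B) (hA : 0 < A) (hε : 0 < ε) (hB' : 0 < B') :
    ∃ A1 : ℝ, 0 < A1 ∧ ∃ X0 : ℕ, 10 ≤ X0 ∧ ∀ X : ℕ, X0 ≤ X →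
    ∀ Z : ℕ, (X : ℝ) * (Real.log X) ^ (-B') ≤ Z →
    ∀ Q q c : ℕ, (Q : ℝ) ≤ (Real.log X) ^ B → 1 ≤ q → q ≤ Q → c < q → ∀ h : ℕ,
    (X : ℝ) ^ ((1 : ℝ) / 6 + ε) ≤ h → (h : ℝ) ≤ X * (Real.log X) ^ (-A1) →
    ∑ x ∈ Icc 1 (2 * X + h),
      ‖∑ n ∈ (Ioc (x - h) x).filter (fun n => n ≤ 2 * X ∧ n % q = c), azr Q X Z n‖ ^ 2 ≤
      X * (h : ℝ) ^ 2 * (Real.log X) ^ (-A) := by
  obtain ⟨A1', X0', hA1', hX0', hfz⟩ := hfzs (B + 1) (A + 3) ε (by linarith) (by linarith) hε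
  have ev1 : ∀ᶠ X : ℝ in Filter.atTop, 100 + (2 : ℝ) ^ (B + 1) + (2 : ℝ) ^ (A + 3) ≤ Real.log X :=
    Real.tendsto_log_atTop.eventually_ge_atTop _
  have ev3 : ∀ᶠ X : ℝ in Filter.atTop, 2 * (Real.log X) ^ B' ≤ X ^ ((1 : ℝ) / 2) := by
    have h := (isLittleO_log_rpow_rpow_atTop B' (s := (1 : ℝ) / 2) (by norm_num)).bound
      (c := 1 / 2) (by norm_num)
    filter_upwards [h, Filter.eventually_ge_atTop (1 : ℝ)] with X hX hX1
    rw [Real.norm_eq_abs, Real.norm_eq_abs,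
      abs_of_nonneg (Real.rpow_nonneg (by linarith : (0 : ℝ) ≤ X) _)] at hX
    have h1 := le_trans (le_abs_self _) hX
    linarith
  have ev4 : ∀ᶠ X : ℝ in Filter.atTop, X0' ≤ X ^ ((1 : ℝ) / 2) :=
    (tendsto_rpow_atTop (by norm_num : (0 : ℝ) < 1 / 2)).eventually_ge_atTop _
  obtain ⟨X1, hX1⟩ := Filter.eventually_atTop.1 (ev1.and (ev3.and ev4))
  obtain ⟨A1, hA1⟩ : ∃ A1, A1 = max (A1' + B' + 1) (A + 2 * B + 7) := ⟨_, rfl⟩
  have hA1a : A1' + B' + 1 ≤ A1 := by rw [hA1]; exact le_max_left _ _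
  have hA1c : A + 2 * B + 7 ≤ A1 := by rw [hA1]; exact le_max_right _ _
  refine ⟨A1, by linarith, max 10 ⌈X1⌉₊, le_max_left _ _, ?_⟩
  intro X hX Z hZ Q q c hQ hq hqQ hc h hh1 hh2
  have hXX1 : X1 ≤ (X : ℝ) := by
    refine (Nat.le_ceil X1).trans ?_
    exact_mod_cast (le_max_right _ _).trans hX
  have hX10 : (10 : ℝ) ≤ X := by exact_mod_cast (le_max_left _ _).trans hX
  obtain ⟨c1, c3, c4⟩ := hX1 (X : ℝ) hXX1
  obtain ⟨ℓ, hℓ⟩ : ∃ ℓ, ℓ = Real.log X := ⟨_, rfl⟩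
  rw [← hℓ] at hZ hQ hh2 c1 c3 ⊢
  have p1 : 0 < (2 : ℝ) ^ (B + 1) := by positivity
  have p2 : 0 < (2 : ℝ) ^ (A + 3) := by positivity
  have hℓ100 : 100 ≤ ℓ := by linarith
  have hℓpos : 0 < ℓ := by linarith
  have hℓone : 1 ≤ ℓ := by linarith
  have hXpos : (0 : ℝ) < X := by linarith
  have hmul : ∀ k a b : ℝ, k ≤ 100 → b + 1 ≤ a → k * ℓ ^ b ≤ ℓ ^ a := by
    intro k a b hk hab
    have h1 : ℓ ^ (b + 1) = ℓ ^ b * ℓ := by rw [Real.rpow_add hℓpos, Real.rpow_one]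
    have h2 : ℓ ^ (b + 1) ≤ ℓ ^ a := Real.rpow_le_rpow_of_exponent_le hℓone hab
    have h3 : 0 < ℓ ^ b := Real.rpow_pos_of_pos hℓpos _
    have h4 : ℓ ^ b * k ≤ ℓ ^ b * ℓ := mul_le_mul_of_nonneg_left (by linarith) h3.le
    linarith
  have hh0 : (0 : ℝ) ≤ h := Nat.cast_nonneg h
  have hQ0 : (0 : ℝ) ≤ Q := Nat.cast_nonneg Q
  -- the dyadic sum
  obtain ⟨U, hU⟩ : ∃ U : ℕ → ℝ, U = fun x' =>
    ∑ m ∈ (Ioc x' (x' + h)).filter (fun m => m % q = c), az Q m := ⟨_, rfl⟩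
  have hlow : ∀ Y : ℝ, (X : ℝ) * ℓ ^ (-B') / 2 ≤ Y → Y ≤ X →
      ∑ n ∈ Ioc ⌊Y⌋₊ ⌊2 * Y⌋₊, U n ^ 2 ≤ Y * (h : ℝ) ^ 2 * ℓ ^ (-A - 2) := by
    intro Y hY1 hY2
    have hB'pos : 0 < ℓ ^ B' := Real.rpow_pos_of_pos hℓpos _
    have hYs : (X : ℝ) ^ ((1 : ℝ) / 2) ≤ Y := by
      refine le_trans ?_ hY1
      have h2 : (X : ℝ) = (X : ℝ) ^ ((1 : ℝ) / 2) * (X : ℝ) ^ ((1 : ℝ) / 2) := by
        rw [← Real.rpow_add hXpos]
        norm_num
      have h3 : 0 ≤ (X : ℝ) ^ ((1 : ℝ) / 2) := by positivity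
      rw [Real.rpow_neg hℓpos.le, ← div_eq_mul_inv, div_div, le_div_iff₀ (by positivity)]
      calc (X : ℝ) ^ ((1 : ℝ) / 2) * (ℓ ^ B' * 2) = (X : ℝ) ^ ((1 : ℝ) / 2) * (2 * ℓ ^ B') := by
            ring
        _ ≤ (X : ℝ) ^ ((1 : ℝ) / 2) * (X : ℝ) ^ ((1 : ℝ) / 2) :=
            mul_le_mul_of_nonneg_left c3 h3
        _ = X := h2.symm
    have hYpos : 0 < Y := lt_of_lt_of_le (by positivity) hYs
    have hlogY1 : Real.log Y ≤ ℓ := by
      rw [hℓ]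
      exact Real.log_le_log hYpos hY2
    have hlogY2 : ℓ / 2 ≤ Real.log Y := by
      have h2 := Real.log_le_log (by positivity) hYs
      rw [Real.log_rpow hXpos, ← hℓ] at h2
      linarith
    have hlogYpos : 0 < Real.log Y := by linarith
    have h1 := hfz Y (c4.trans hYs) Q q c ?_ hq hqQ hc h ?_ ?_
    · rw [hU]
      refine h1.trans ?_
      have h2 : (Real.log Y) ^ (-(A + 3)) ≤ ℓ ^ (-A - 2) := by
        rw [Real.rpow_neg hlogYpos.le]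
        have h3 : (ℓ / 2) ^ (A + 3) ≤ (Real.log Y) ^ (A + 3) :=
          Real.rpow_le_rpow (by positivity) hlogY2 (by linarith)
        have h4 : ℓ ^ (A + 2) ≤ (ℓ / 2) ^ (A + 3) := by
          rw [Real.div_rpow hℓpos.le (by norm_num), le_div_iff₀ p2]
          have h5 : ℓ ^ (A + 3) = ℓ ^ (A + 2) * ℓ := by
            rw [← Real.rpow_add_one hℓpos.ne']
            congr 1
            ring
          rw [h5]
          exact mul_le_mul_of_nonneg_left (by linarith) (by positivity)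
        have h6 : ℓ ^ (-A - 2) = (ℓ ^ (A + 2))⁻¹ := by
          rw [← Real.rpow_neg hℓpos.le]
          congr 1
          ring
        rw [h6]
        exact inv_anti₀ (by positivity) (h4.trans h3)
      exact mul_le_mul_of_nonneg_left h2 (by positivity)
    · refine hQ.trans ?_
      have h3 : (ℓ / 2) ^ (B + 1) ≤ (Real.log Y) ^ (B + 1) :=
        Real.rpow_le_rpow (by positivity) hlogY2 (by linarith)
      refine le_trans ?_ h3
      rw [Real.div_rpow hℓpos.le (by norm_num), le_div_iff₀ p1, Real.rpow_add_one hℓpos.ne']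
      exact mul_le_mul_of_nonneg_left (by linarith) (by positivity)
    · refine le_trans ?_ hh1
      exact Real.rpow_le_rpow hYpos.le hY2 (by linarith)
    · refine hh2.trans ?_
      have h3 : ℓ ^ (-A1') ≤ (Real.log Y) ^ (-A1') :=
        Real.rpow_le_rpow_of_nonpos hlogYpos hlogY1 (by linarith)
      have h4 := hmul 2 (-B' - A1') (-A1) (by norm_num) (by linarith)
      calc (X : ℝ) * ℓ ^ (-A1) = X * (2 * ℓ ^ (-A1)) / 2 := by ring
        _ ≤ X * ℓ ^ (-B' - A1') / 2 := by gcongr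
        _ = (X * ℓ ^ (-B') / 2) * ℓ ^ (-A1') := by
            rw [show -B' - A1' = -B' + -A1' by ring, Real.rpow_add hℓpos]
            ring
        _ ≤ Y * (Real.log Y) ^ (-A1') := by
            have : 0 ≤ ℓ ^ (-A1') := by positivity
            gcongr
  have hdy : ∑ x' ∈ Ioc Z (2 * X), U x' ^ 2 ≤ 2 * X * (h : ℝ) ^ 2 * ℓ ^ (-A - 2) := by
    have hex : ∃ J : ℕ, (X : ℝ) / 2 ^ J ≤ Z := by
      have hZpos : (0 : ℝ) < Z := lt_of_lt_of_le (by positivity) hZ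
      obtain ⟨J, hJ⟩ := pow_unbounded_of_one_lt ((X : ℝ) / Z) (by norm_num : (1 : ℝ) < 2)
      refine ⟨J, ?_⟩
      rw [div_le_iff₀ (by positivity)]
      rw [div_lt_iff₀ hZpos] at hJ
      linarith
    classical
    obtain ⟨J, hJ⟩ : ∃ J, J = Nat.find hex := ⟨_, rfl⟩
    have hJ1 : (X : ℝ) / 2 ^ J ≤ Z := by
      rw [hJ]
      exact Nat.find_spec hex
    have hJ2 : ∀ j < J, (Z : ℝ) < (X : ℝ) / 2 ^ j := by
      intro j hj
      rw [hJ] at hj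
      exact not_le.1 (Nat.find_min hex hj)
    have hsub : Ioc Z (2 * X) ⊆ Ioc ⌊(X : ℝ) / 2 ^ J⌋₊ (2 * X) := by
      have h2 : ⌊(X : ℝ) / 2 ^ J⌋₊ ≤ Z := by
        have := Nat.floor_mono hJ1
        rwa [Nat.floor_natCast] at this
      intro n hn
      rw [mem_Ioc] at hn ⊢
      omega
    refine (sum_le_sum_of_subset_of_nonneg hsub fun n _ _ => sq_nonneg _).trans ?_
    refine (rgz_dy (fun n => U n ^ 2) (fun n => sq_nonneg _) X J).trans ?_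
    have h2 : ∀ j ∈ range (J + 1), ∑ n ∈ Ioc ⌊(X : ℝ) / 2 ^ j⌋₊ ⌊2 * ((X : ℝ) / 2 ^ j)⌋₊,
        U n ^ 2 ≤ (X : ℝ) / 2 ^ j * ((h : ℝ) ^ 2 * ℓ ^ (-A - 2)) := by
      intro j hj
      rw [mem_range] at hj
      have h3 := hlow ((X : ℝ) / 2 ^ j) ?_ ?_
      · rw [← mul_assoc]
        exact h3
      · rcases j with _ | j
        · rw [pow_zero, div_one]
          have h4 : ℓ ^ (-B') ≤ 1 := Real.rpow_le_one_of_one_le_of_nonpos hℓone (by linarith)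
          have h5 : (X : ℝ) * ℓ ^ (-B') ≤ X * 1 := mul_le_mul_of_nonneg_left h4 hXpos.le
          linarith
        · have h4 := hJ2 j (by omega)
          have h5 : (X : ℝ) / 2 ^ (j + 1) = (X : ℝ) / 2 ^ j / 2 := by
            rw [pow_succ]
            field_simp
          rw [h5]
          linarith
      · refine div_le_self hXpos.le ?_
        exact one_le_pow₀ (by norm_num)
    refine (sum_le_sum h2).trans ?_
    rw [← sum_mul]
    have h3 := rgz_geo (X : ℝ) hXpos.le J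
    have h4 : 0 ≤ (h : ℝ) ^ 2 * ℓ ^ (-A - 2) := by positivity
    calc (∑ i ∈ range (J + 1), (X : ℝ) / 2 ^ i) * ((h : ℝ) ^ 2 * ℓ ^ (-A - 2))
        ≤ 2 * X * ((h : ℝ) ^ 2 * ℓ ^ (-A - 2)) := mul_le_mul_of_nonneg_right h3 h4
      _ = 2 * X * (h : ℝ) ^ 2 * ℓ ^ (-A - 2) := by ring
  obtain ⟨K3, hK3⟩ : ∃ K3, K3 = (h : ℝ) * (1 + 2 * Q) := ⟨_, rfl⟩
  have hK30 : 0 ≤ K3 := by rw [hK3]; positivity
  have hmain := rgz_sum
    (fun x => ‖∑ n ∈ (Ioc (x - h) x).filter (fun n => n ≤ 2 * X ∧ n % q = c),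
      azr Q X Z n‖ ^ 2) U X Z h 0 (K3 ^ 2) le_rfl (by positivity)
    (fun x hx => by
      rw [rgz_zero Q X Z q c h x hx, norm_zero, zero_pow (by norm_num)])
    (fun x' h1 h2 => by
      rw [Nat.add_sub_cancel, rgz_b Q X Z q c h x' h1 h2, hU]
      have := sq_nonneg (∑ m ∈ (Ioc x' (x' + h)).filter (fun m => m % q = c), az Q m)
      dsimp only
      linarith)
    (fun x => by
      have h3 := rgz_c Q X Z q c h x
      rw [← hK3] at h3
      exact pow_le_pow_left₀ (norm_nonneg _) h3 2)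
  refine hmain.trans ?_
  obtain ⟨M, hM⟩ : ∃ M, M = (X : ℝ) * (h : ℝ) ^ 2 * ℓ ^ (-A - 2) := ⟨_, rfl⟩
  have hM0 : 0 ≤ M := by
    rw [hM]
    positivity
  have t1 : 3 * ∑ x' ∈ Ioc Z (2 * X), U x' ^ 2 ≤ 6 * M := by
    rw [hM]
    linarith
  have t4 : 2 * h * K3 ^ 2 ≤ M := by
    have h1 : 1 + 2 * (Q : ℝ) ≤ ℓ ^ (B + 2) := by
      have h3 : 1 ≤ ℓ ^ (B + 1) := Real.one_le_rpow hℓone (by linarith)
      have h5 : ℓ ^ B ≤ ℓ ^ (B + 1) := Real.rpow_le_rpow_of_exponent_le hℓone (by linarith)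
      have h4 := hmul 3 (B + 2) (B + 1) (by norm_num) (by linarith)
      linarith
    have h2 : K3 ^ 2 ≤ (h : ℝ) ^ 2 * ℓ ^ (2 * (B + 2)) := by
      calc K3 ^ 2 ≤ (h * ℓ ^ (B + 2)) ^ 2 :=
            pow_le_pow_left₀ hK30 (by rw [hK3]; exact mul_le_mul_of_nonneg_left h1 hh0) 2
        _ = (h : ℝ) ^ 2 * (ℓ ^ (B + 2)) ^ 2 := by ring
        _ = (h : ℝ) ^ 2 * ℓ ^ (2 * (B + 2)) := by
            rw [← Real.rpow_natCast (ℓ ^ (B + 2)) 2, ← Real.rpow_mul hℓpos.le]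
            congr 2
            push_cast
            ring
    have h3 : 2 * (ℓ ^ (-A1) * ℓ ^ (2 * (B + 2))) ≤ ℓ ^ (-A - 2) := by
      rw [← Real.rpow_add hℓpos]
      exact hmul 2 _ _ (by norm_num) (by linarith)
    calc 2 * h * K3 ^ 2 ≤ 2 * h * ((h : ℝ) ^ 2 * ℓ ^ (2 * (B + 2))) := by gcongr
      _ = h * (2 * (h : ℝ) ^ 2 * ℓ ^ (2 * (B + 2))) := by ring
      _ ≤ (X * ℓ ^ (-A1)) * (2 * (h : ℝ) ^ 2 * ℓ ^ (2 * (B + 2))) := by
          have := Real.rpow_nonneg hℓpos.le (2 * (B + 2))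
          gcongr
      _ = X * (h : ℝ) ^ 2 * (2 * (ℓ ^ (-A1) * ℓ ^ (2 * (B + 2)))) := by ring
      _ ≤ X * (h : ℝ) ^ 2 * ℓ ^ (-A - 2) := mul_le_mul_of_nonneg_left h3 (by positivity)
      _ = M := hM.symm
  have t5 : 7 * M ≤ X * (h : ℝ) ^ 2 * ℓ ^ (-A) := by
    have h1 := hmul 7 (-A) (-A - 2) (by norm_num) (by linarith)
    calc 7 * M = X * (h : ℝ) ^ 2 * (7 * ℓ ^ (-A - 2)) := by rw [hM]; ring
      _ ≤ X * (h : ℝ) ^ 2 * ℓ ^ (-A) := mul_le_mul_of_nonneg_left h1 (by positivity)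
  rw [mul_zero]
  linarith

end Pool.Agent.H12.HQ.R
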