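import Pool.Agent.H12.HQ.Defs
import Pool.Agent.H43.TP.Gal

/-!
# [H12 HQ TF] Localisation to arcs of length `T/N`

PROOF. `F : ℤ → ℂ`, `F k = Σ_{m ∈ Ioc M M'} (if 1 <= k + m^3 and k + m^3 <= L then a (k+m^3).toNat else 0)` (as in `H43/HY/Trb.lean`, `trb_plg`).
For real `α`: `Σ_{k ∈ Ico (-L) (L+1)} F k e(kα) = Ex a L α * conj (Cq M M' α)` (`TP.plg_shift` for every `m`, with `lo = -L`, `len = 2L+1`; conditions
`m^3 <= L`; `e_neg`). Let `F' k = F k * Σ_{j<T} e((k-K) (j/N))`. Then `Σ_k F' k e(k al N t) = Σ_{j<T} e(-K j/N) Ex a L (al N t + j/N) conj (Cq M M' (al N t + j/N))`,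
modulus `<= Σ_j ‖Ex a L (al N t + j/N)‖ ‖Cq M M' (al N t + j/N)‖`, square `<= P(t) E(t)` by Cauchy-Schwarz (`sum_mul_sq_le_sq_mul_sq`).
`LDP.parseval N (-L) (2L+1)` for `F'`: `Σ_t ‖..‖^2 = N Σ_k ‖F' k‖^2 >= N Σ_{k ∈ (K,K+X]} ‖F k‖^2 ‖Σ_{j<T} e(j ((k-K)/N))‖^2 >= N Σ (T^2/4) ‖F k‖^2` by `TP.gal_ker`
(`h := T`, `β = (k-K)/N`, `i = 0`: `(k-K)/N <= X/N <= 1/(6T)`), and `F k = Σ_m a (m^3+k)` for `K < k <= K+X` (`m^3 + k <= L`).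
-/

namespace Pool.Agent.H12.HQ

open Finset Pool.Agent.H26.LDP Pool.Agent.H43.TP

private theorem tf_one (a : ℕ → ℂ) (M M' L : ℕ) (hL : M' ^ 3 ≤ L) (F : ℤ → ℂ)
    (hF : F = fun k : ℤ => ∑ m ∈ Ioc M M',
      (if 1 ≤ k + ((m ^ 3 : ℕ) : ℤ) ∧ k + ((m ^ 3 : ℕ) : ℤ) ≤ (L : ℤ) then
        a (k + ((m ^ 3 : ℕ) : ℤ)).toNat else 0)) (x : ℝ) :
    ∑ k ∈ Ico (-(L : ℤ)) (-(L : ℤ) + ((2 * L + 1 : ℕ) : ℤ)), F k * e ((k : ℝ) * x) =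
      Ex a L x * (starRingEnd ℂ) (Cq M M' x) := by
  rw [hF]
  simp only [sum_mul]
  rw [sum_comm]
  unfold Cq
  rw [map_sum, mul_sum]
  refine sum_congr rfl fun m hm => ?_
  rw [mem_Ioc] at hm
  have h4 : m ^ 3 ≤ M' ^ 3 := Nat.pow_le_pow_left hm.2 3
  rw [plg_shift a L (m ^ 3) (-(L : ℤ)) (2 * L + 1) (by omega) (by omega) x, ← e_neg]
  push_cast
  rfl

theorem tf (a : ℕ → ℂ) (M M' K X L T N : ℕ) [NeZero N] (hL : M' ^ 3 + K + X ≤ L) (hT : 1 ≤ T)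
    (hTX : 6 * X * T ≤ N) (hN : 2 * L + 1 ≤ N) :
    (T : ℝ) ^ 2 * (N * ∑ k ∈ Ioc K (K + X), ‖∑ m ∈ Ioc M M', a (m ^ 3 + k)‖ ^ 2) ≤
      4 * ∑ t : ZMod N, (∑ j ∈ range T, ‖Ex a L (al N t + (j : ℝ) / N)‖ ^ 2) *
        ∑ j ∈ range T, ‖Cq M M' (al N t + (j : ℝ) / N)‖ ^ 2 := by
  have hN0 : (0 : ℝ) < N := by
    have : 0 < N := by omega
    exact_mod_cast this
  have hT0 : (1 : ℝ) ≤ T := by exact_mod_cast hT
  obtain ⟨F, hF⟩ : ∃ F : ℤ → ℂ, F = fun k : ℤ => ∑ m ∈ Ioc M M',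
      (if 1 ≤ k + ((m ^ 3 : ℕ) : ℤ) ∧ k + ((m ^ 3 : ℕ) : ℤ) ≤ (L : ℤ) then
        a (k + ((m ^ 3 : ℕ) : ℤ)).toNat else 0) := ⟨_, rfl⟩
  have hFh := tf_one a M M' L (by omega) F hF
  obtain ⟨G, hG⟩ : ∃ G : ℤ → ℂ, G = fun k : ℤ =>
    F k * ∑ j ∈ range T, e ((j : ℝ) * (((k : ℝ) - K) / N)) := ⟨_, rfl⟩
  have hpar := parseval N (-(L : ℤ)) (2 * L + 1) hN G
  -- upper bound
  have hup : ∀ t : ZMod N, ‖∑ k ∈ Ico (-(L : ℤ)) (-(L : ℤ) + ((2 * L + 1 : ℕ) : ℤ)),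
      G k * e ((k : ℝ) * al N t)‖ ^ 2 ≤
      (∑ j ∈ range T, ‖Ex a L (al N t + (j : ℝ) / N)‖ ^ 2) *
        ∑ j ∈ range T, ‖Cq M M' (al N t + (j : ℝ) / N)‖ ^ 2 := by
    intro t
    have h1 : ∑ k ∈ Ico (-(L : ℤ)) (-(L : ℤ) + ((2 * L + 1 : ℕ) : ℤ)), G k * e ((k : ℝ) * al N t) =
        ∑ j ∈ range T, e (-((K : ℝ) * ((j : ℝ) / N))) *
          (Ex a L (al N t + (j : ℝ) / N) * (starRingEnd ℂ) (Cq M M' (al N t + (j : ℝ) / N))) := by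
      have h2 : ∀ k ∈ Ico (-(L : ℤ)) (-(L : ℤ) + ((2 * L + 1 : ℕ) : ℤ)), G k * e ((k : ℝ) * al N t) =
          ∑ j ∈ range T, e (-((K : ℝ) * ((j : ℝ) / N))) *
            (F k * e ((k : ℝ) * (al N t + (j : ℝ) / N))) := by
        intro k _
        rw [hG]
        dsimp only
        rw [mul_sum, sum_mul]
        refine sum_congr rfl fun j _ => ?_
        have h3 : e ((j : ℝ) * (((k : ℝ) - K) / N)) * e ((k : ℝ) * al N t) =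
            e (-((K : ℝ) * ((j : ℝ) / N))) * e ((k : ℝ) * (al N t + (j : ℝ) / N)) := by
          rw [← e_add, ← e_add]
          congr 1
          ring
        linear_combination (F k) * h3
      rw [sum_congr rfl h2, sum_comm]
      refine sum_congr rfl fun j _ => ?_
      rw [← mul_sum, hFh]
    rw [h1]
    have h4 : ‖∑ j ∈ range T, e (-((K : ℝ) * ((j : ℝ) / N))) *
          (Ex a L (al N t + (j : ℝ) / N) * (starRingEnd ℂ) (Cq M M' (al N t + (j : ℝ) / N)))‖ ≤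
        ∑ j ∈ range T, ‖Ex a L (al N t + (j : ℝ) / N)‖ * ‖Cq M M' (al N t + (j : ℝ) / N)‖ := by
      refine (norm_sum_le _ _).trans (le_of_eq ?_)
      refine sum_congr rfl fun j _ => ?_
      rw [norm_mul, norm_e, one_mul, norm_mul, RCLike.norm_conj]
    refine (pow_le_pow_left₀ (norm_nonneg _) h4 2).trans ?_
    exact sum_mul_sq_le_sq_mul_sq _ _ _
  -- lower bound
  have hlow : ∑ k ∈ Ioc K (K + X), ((T : ℝ) / 2) ^ 2 * ‖∑ m ∈ Ioc M M', a (m ^ 3 + k)‖ ^ 2 ≤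
      ∑ k ∈ Ico (-(L : ℤ)) (-(L : ℤ) + ((2 * L + 1 : ℕ) : ℤ)), ‖G k‖ ^ 2 := by
    have h5 : ∑ k ∈ Ioc K (K + X), ‖G ((k : ℕ) : ℤ)‖ ^ 2 =
        ∑ k ∈ (Ioc K (K + X)).map Nat.castEmbedding, ‖G k‖ ^ 2 := by
      rw [sum_map]
      refine sum_congr rfl fun k _ => ?_
      rw [Nat.castEmbedding_apply]
    have h6 : ∑ k ∈ Ioc K (K + X), ((T : ℝ) / 2) ^ 2 * ‖∑ m ∈ Ioc M M', a (m ^ 3 + k)‖ ^ 2 ≤
        ∑ k ∈ Ioc K (K + X), ‖G ((k : ℕ) : ℤ)‖ ^ 2 := by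
      refine sum_le_sum fun k hk => ?_
      rw [mem_Ioc] at hk
      have h7 : F ((k : ℕ) : ℤ) = ∑ m ∈ Ioc M M', a (m ^ 3 + k) := by
        rw [hF]
        refine sum_congr rfl fun m hm => ?_
        rw [mem_Ioc] at hm
        have h4 : m ^ 3 ≤ M' ^ 3 := Nat.pow_le_pow_left hm.2 3
        have h8 : ((k : ℕ) : ℤ) + ((m ^ 3 : ℕ) : ℤ) = ((m ^ 3 + k : ℕ) : ℤ) := by
          push_cast
          ring
        rw [h8, if_pos ⟨by omega, by omega⟩, Int.toNat_natCast]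
      have h9 : ‖G ((k : ℕ) : ℤ)‖ = ‖∑ m ∈ Ioc M M', a (m ^ 3 + k)‖ *
          ‖∑ j ∈ range T, e ((j : ℝ) * (((((k : ℕ) : ℤ) : ℝ) - K) / N))‖ := by
        rw [hG]
        dsimp only
        rw [norm_mul, h7]
      have h10 : (T : ℝ) / 2 ≤ ‖∑ j ∈ range T, e ((j : ℝ) * (((((k : ℕ) : ℤ) : ℝ) - K) / N))‖ := by
        refine gal_ker T hT _ 0 ?_
        rw [Int.cast_zero, sub_zero, Int.cast_natCast]
        have h11 : (K : ℝ) < k := by exact_mod_cast hk.1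
        have h12 : (k : ℝ) ≤ K + X := by exact_mod_cast hk.2
        rw [abs_of_nonneg (div_nonneg (by linarith) hN0.le), div_le_div_iff₀ hN0 (by positivity)]
        have h13 : 6 * (X : ℝ) * T ≤ N := by exact_mod_cast hTX
        have h14 : ((k : ℝ) - K) * T ≤ X * T := mul_le_mul_of_nonneg_right (by linarith) (by linarith)
        nlinarith
      rw [h9, mul_pow, mul_comm]
      exact mul_le_mul_of_nonneg_left (pow_le_pow_left₀ (by positivity) h10 2) (by positivity)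
    refine h6.trans (le_trans (le_of_eq h5) ?_)
    refine sum_le_sum_of_subset_of_nonneg ?_ fun _ _ _ => by positivity
    intro k hk
    rw [mem_map] at hk
    obtain ⟨n, hn, rfl⟩ := hk
    rw [mem_Ioc] at hn
    rw [mem_Ico, Nat.castEmbedding_apply]
    have : (n : ℤ) ≤ (L : ℤ) := by
      have : n ≤ L := by
        have := hn.2
        have h0 : 0 ≤ M' ^ 3 := Nat.zero_le _
        omega
      exact_mod_cast this
    push_cast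
    omega
  rw [← mul_sum] at hlow
  have h1 : (N : ℝ) * (((T : ℝ) / 2) ^ 2 * ∑ k ∈ Ioc K (K + X), ‖∑ m ∈ Ioc M M', a (m ^ 3 + k)‖ ^ 2) ≤
      ∑ t : ZMod N, (∑ j ∈ range T, ‖Ex a L (al N t + (j : ℝ) / N)‖ ^ 2) *
        ∑ j ∈ range T, ‖Cq M M' (al N t + (j : ℝ) / N)‖ ^ 2 := by
    refine (mul_le_mul_of_nonneg_left hlow hN0.le).trans ?_
    rw [← hpar]
    exact sum_le_sum fun t _ => hup t
  calc (T : ℝ) ^ 2 * (N * ∑ k ∈ Ioc K (K + X), ‖∑ m ∈ Ioc M M', a (m ^ 3 + k)‖ ^ 2) =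
      4 * ((N : ℝ) * (((T : ℝ) / 2) ^ 2 *
        ∑ k ∈ Ioc K (K + X), ‖∑ m ∈ Ioc M M', a (m ^ 3 + k)‖ ^ 2)) := by ring
    _ ≤ _ := mul_le_mul_of_nonneg_left h1 (by norm_num)

end Pool.Agent.H12.HQ
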