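import Pool.Agent.H43.HY.Fz
import Pool.Agent.H12.HQ.Fin

/-!
# The theorem (the windows of the primes `FzS`, proved in `H43/HY/Fz.lean`, inserted)
-/

namespace Pool.Agent.H12.HQ

open Finset Pool.Agent.H43

theorem finaln (θ1 B : ℝ) (hθ1 : 1 / 18 < θ1) (hB : 0 < B) :
    ∃ C0 C1 : ℝ, 0 < C0 ∧ 0 < C1 ∧ ∀ C : ℝ, C0 ≤ C → ∃ X0 : ℕ, ∀ X : ℕ, X0 ≤ X → ∀ M K : ℕ,
    (X : ℝ) ^ θ1 ≤ M → (M : ℝ) ≤ (X : ℝ) ^ ((1 : ℝ) / 2) * (Real.log X) ^ (-C1) → K ≤ M ^ 3 →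
    ((((Ioc K (K + X)).filter (fun k => (Real.log X) ^ (-B) *
        (HL.S ⌊(Real.log X) ^ C⌋₊ k * ∑ m ∈ Icc 1 M, 1 / Real.log ((m ^ 3 + k : ℕ) : ℝ)) <
      |((((Icc 1 M).filter (fun m => (m ^ 3 + k).Prime)).card : ℕ) : ℝ) -
        HL.S ⌊(Real.log X) ^ C⌋₊ k * ∑ m ∈ Icc 1 M, 1 / Real.log ((m ^ 3 + k : ℕ) : ℝ)|)).card :
      ℕ) : ℝ) ≤ X * (Real.log X) ^ (-B) :=
  finaln_of HY.fzs θ1 B hθ1 hB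

end Pool.Agent.H12.HQ
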