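import Pool.Agent.H12.HQ.Defs

/-!
# [H12 HQ WEX] Expansion of the square sum over the windows

For `m1, m2 ∈ (M, M']` let `c(m1,m2) = #{y ∈ [1, L+H] : y - H < m1^3 <= y and y - H < m2^3 <= y}`. PROOF.
(1) `‖Σ_{m ∈ S} f m‖^2 = Re Σ_{m1,m2 ∈ S} f m2 conj (f m1)`, and `f m2 conj (f m1) = e((m2^3 - m1^3) x)` (`e_neg`, `e_add`), so
`Wq = Σ_{m1,m2 ∈ Ioc M M'} c(m1,m2) Re e((m2^3-m1^3)x)` (write the filters as `if`, exchange the sums over `y` and `m1, m2`).
(2) The summand is symmetric (`Re e(-z) = Re e(z)`), so `Wq = Σ_m c(m,m) + 2 Σ_{m1<m2}`, and the pairs `m1 < m2` of `Ioc M M'` are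
`m1 = M + i`, `m2 = M + i + h` with `1 <= h <= M'-M` and `1 <= i <= M'-M-h`.
(3) `c(m,m) <= H` (`y ∈ [m^3, m^3+H-1]`); for `m1 < m2`: the `y` are those with `m2^3 <= y < m1^3 + H` (the natural subtraction
`y - H` is harmless as `m1^3 >= 1`; `y <= L + H` is automatic as `m1^3 <= L`), so `c(m1,m2) = (m1^3 + H) - m2^3` (natural subtraction).
For `m1 = M+i`, `m2 = M+i+h` call it `w_h(i) = ((M+i)^3 + H) - (M+i+h)^3`. It is antitone in `i` (`(M+i+h)^3 - (M+i)^3` increases) and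
`<= H`, and it is `0` if `3M^2 h >= H` (`(M+i+h)^3 - (M+i)^3 >= 3(M+i)^2 h`), i.e. if `h > H/(3M^2)` (natural division).
(4) For an antitone `w : ℕ → ℕ` with `w <= H` and complex `z`: `Σ_{i ∈ Icc 1 n} w(i) z(i) = Σ_{v ∈ Icc 1 H} Σ_{i ∈ Icc 1 n, v <= w i} z i`
and `{i ∈ Icc 1 n : v <= w i}` is `Icc 1 n_v` for some `n_v <= n`; so the modulus is `<= H · max`, that is `<= H B h`
(`n_v <= n = M'-M-h <= M'-M`). Together `Wq <= H (M'-M) + 2 Σ_{1<=h<=H/(3M^2)} H B h`; for `h > M'-M` the inner range is empty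
(`0 <= B h` by `n = 0` in `hB`).
-/

namespace Pool.Agent.H12.HQ

open Finset Pool.Agent.H26.LDP

private theorem sq_sum (S : Finset ℕ) (f : ℕ → ℂ) :
    ‖∑ m ∈ S, f m‖ ^ 2 = ∑ a ∈ S, ∑ b ∈ S, (f b * (starRingEnd ℂ) (f a)).re := by
  have h1 : ((‖∑ m ∈ S, f m‖ ^ 2 : ℝ) : ℂ) = ∑ a ∈ S, ∑ b ∈ S, f b * (starRingEnd ℂ) (f a) := by
    push_cast
    rw [← Complex.mul_conj', map_sum, Finset.sum_mul_sum, Finset.sum_comm]
  have h2 := congrArg Complex.re h1
  rw [Complex.ofReal_re] at h2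
  rw [h2, Complex.re_sum]
  refine Finset.sum_congr rfl fun a _ => ?_
  rw [Complex.re_sum]

private theorem sym_sum (F : ℕ → ℕ → ℝ) (hF : ∀ i j, F i j = F j i) (N : ℕ) :
    ∑ i ∈ Icc 1 N, ∑ j ∈ Icc 1 N, F i j =
      ∑ i ∈ Icc 1 N, F i i + 2 * ∑ h ∈ Icc 1 N, ∑ i ∈ Icc 1 (N - h), F i (i + h) := by
  induction N with
  | zero => simp
  | succ N ih =>
    have e1 : ∑ i ∈ Icc 1 (N + 1), ∑ j ∈ Icc 1 (N + 1), F i j =
        ∑ i ∈ Icc 1 N, ∑ j ∈ Icc 1 N, F i j + 2 * ∑ i ∈ Icc 1 N, F i (N + 1) +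
          F (N + 1) (N + 1) := by
      rw [Finset.sum_Icc_succ_top (by omega)]
      have : ∀ i, ∑ j ∈ Icc 1 (N + 1), F i j = ∑ j ∈ Icc 1 N, F i j + F i (N + 1) := fun i => by
        rw [Finset.sum_Icc_succ_top (by omega)]
      simp_rw [this]
      rw [Finset.sum_add_distrib]
      have h3 : ∑ j ∈ Icc 1 N, F (N + 1) j = ∑ i ∈ Icc 1 N, F i (N + 1) :=
        Finset.sum_congr rfl fun i _ => hF _ _
      rw [h3]; ring
    have e2 : ∑ h ∈ Icc 1 (N + 1), ∑ i ∈ Icc 1 (N + 1 - h), F i (i + h) =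
        ∑ h ∈ Icc 1 N, ∑ i ∈ Icc 1 (N - h), F i (i + h) + ∑ i ∈ Icc 1 N, F i (N + 1) := by
      rw [Finset.sum_Icc_succ_top (by omega)]
      have h4 : ∑ i ∈ Icc 1 (N + 1 - (N + 1)), F i (i + (N + 1)) = 0 := by simp
      rw [h4, add_zero]
      have h5 : ∀ h ∈ Icc 1 N, ∑ i ∈ Icc 1 (N + 1 - h), F i (i + h) =
          ∑ i ∈ Icc 1 (N - h), F i (i + h) + F (N + 1 - h) (N + 1) := by
        intro h hh
        rw [Finset.mem_Icc] at hh
        have : N + 1 - h = (N - h) + 1 := by omega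
        rw [this, Finset.sum_Icc_succ_top (by omega)]
        congr 2
        omega
      rw [Finset.sum_congr rfl h5, Finset.sum_add_distrib]
      congr 1
      refine Finset.sum_nbij' (fun h => N + 1 - h) (fun h => N + 1 - h) ?_ ?_ ?_ ?_ ?_
      · intro h hh; simp only [Finset.mem_Icc] at hh ⊢; omega
      · intro h hh; simp only [Finset.mem_Icc] at hh ⊢; omega
      · intro h hh; simp only [Finset.mem_Icc] at hh; omega
      · intro h hh; simp only [Finset.mem_Icc] at hh; omega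
      · intro h hh; rfl
    rw [e1, e2, ih, Finset.sum_Icc_succ_top (by omega)]
    ring

private theorem abel (w : ℕ → ℝ) (z : ℕ → ℂ) (b : ℝ) (hw : Antitone w) (n : ℕ)
    (hb : ∀ k ≤ n, ‖∑ i ∈ Icc 1 k, z i‖ ≤ b) (k : ℕ) (hk : k ≤ n) :
    ‖∑ i ∈ Icc 1 k, (w i : ℂ) * z i - (w k : ℂ) * ∑ i ∈ Icc 1 k, z i‖ ≤ (w 0 - w k) * b := by
  induction k with
  | zero => simp
  | succ k ih =>
    have h1 := ih (by omega)
    have h2 := hb k (by omega)
    have e1 : ∑ i ∈ Icc 1 (k + 1), (w i : ℂ) * z i - (w (k + 1) : ℂ) * ∑ i ∈ Icc 1 (k + 1), z i =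
        (∑ i ∈ Icc 1 k, (w i : ℂ) * z i - (w k : ℂ) * ∑ i ∈ Icc 1 k, z i) +
          ((w k - w (k + 1) : ℝ) : ℂ) * ∑ i ∈ Icc 1 k, z i := by
      rw [Finset.sum_Icc_succ_top (by omega), Finset.sum_Icc_succ_top (by omega)]
      push_cast; ring
    rw [e1]
    have h3 : 0 ≤ w k - w (k + 1) := sub_nonneg.mpr (hw (Nat.le_succ k))
    calc _ ≤ _ + ‖((w k - w (k + 1) : ℝ) : ℂ) * ∑ i ∈ Icc 1 k, z i‖ := norm_add_le _ _
      _ ≤ (w 0 - w k) * b + (w k - w (k + 1)) * b := by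
          refine add_le_add h1 ?_
          rw [norm_mul, Complex.norm_real, Real.norm_of_nonneg h3]
          exact mul_le_mul_of_nonneg_left h2 h3
      _ = _ := by ring

private theorem abel' (w : ℕ → ℝ) (z : ℕ → ℂ) (b H : ℝ) (hw : Antitone w) (h0 : ∀ i, 0 ≤ w i)
    (hH : w 0 ≤ H) (n : ℕ) (hb : ∀ k ≤ n, ‖∑ i ∈ Icc 1 k, z i‖ ≤ b) :
    ‖∑ i ∈ Icc 1 n, (w i : ℂ) * z i‖ ≤ H * b := by
  have h1 := abel w z b hw n hb n le_rfl
  have h2 := hb n le_rfl
  have hb0 : 0 ≤ b := (norm_nonneg _).trans h2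
  have e1 : ∑ i ∈ Icc 1 n, (w i : ℂ) * z i =
      (∑ i ∈ Icc 1 n, (w i : ℂ) * z i - (w n : ℂ) * ∑ i ∈ Icc 1 n, z i) +
        (w n : ℂ) * ∑ i ∈ Icc 1 n, z i := by ring
  rw [e1]
  calc _ ≤ _ + ‖(w n : ℂ) * ∑ i ∈ Icc 1 n, z i‖ := norm_add_le _ _
    _ ≤ (w 0 - w n) * b + w n * b := by
        refine add_le_add h1 ?_
        rw [norm_mul, Complex.norm_real, Real.norm_of_nonneg (h0 n)]
        exact mul_le_mul_of_nonneg_left h2 (h0 n)
    _ = w 0 * b := by ring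
    _ ≤ H * b := mul_le_mul_of_nonneg_right hH hb0

/-- the weight -/
private def wt (M H h i : ℕ) : ℕ := ((M + i) ^ 3 + H) - (M + i + h) ^ 3

private theorem wt_anti (M H h : ℕ) : Antitone fun i => (wt M H h i : ℝ) := by
  refine antitone_nat_of_succ_le fun i => ?_
  have : wt M H h (i + 1) ≤ wt M H h i := by
    unfold wt
    have e : (M + i) ^ 3 + (M + (i + 1) + h) ^ 3 = (M + (i + 1)) ^ 3 + (M + i + h) ^ 3 +
        (6 * (M + i) * h + 3 * h + 3 * h ^ 2) := by ring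
    omega
  exact_mod_cast this

private theorem wt_le (M H h i : ℕ) : wt M H h i ≤ H := by
  unfold wt
  have : (M + i) ^ 3 ≤ (M + i + h) ^ 3 := Nat.pow_le_pow_left (by omega) 3
  omega

private theorem wt_zero (M H h i : ℕ) (hM : 1 ≤ M) (hh : H / (3 * M ^ 2) < h) : wt M H h i = 0 := by
  unfold wt
  have hpos : 0 < 3 * M ^ 2 := by positivity
  have h1 : H < h * (3 * M ^ 2) := (Nat.div_lt_iff_lt_mul hpos).mp hh
  have h2 : (M + i) ^ 3 + h * (3 * M ^ 2) ≤ (M + i + h) ^ 3 := by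
    have e : (M + i + h) ^ 3 = (M + i) ^ 3 + h * (3 * M ^ 2) +
        (6 * M * i * h + 3 * i ^ 2 * h + 3 * (M + i) * h ^ 2 + h ^ 3) := by ring
    omega
  omega

private theorem cnt (M M' L H i h : ℕ) (hi : 1 ≤ i) (hL : (M + i) ^ 3 ≤ L) :
    ((Icc 1 (L + H)).filter (fun y => (y - H < (M + i) ^ 3 ∧ (M + i) ^ 3 ≤ y) ∧
      (y - H < (M + (i + h)) ^ 3 ∧ (M + (i + h)) ^ 3 ≤ y))).card = wt M H h i := by
  have h1 : (M + i) ^ 3 ≤ (M + (i + h)) ^ 3 := Nat.pow_le_pow_left (by omega) 3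
  have h2 : 1 ≤ (M + i) ^ 3 := Nat.one_le_pow _ _ (by omega)
  have e1 : (Icc 1 (L + H)).filter (fun y => (y - H < (M + i) ^ 3 ∧ (M + i) ^ 3 ≤ y) ∧
      (y - H < (M + (i + h)) ^ 3 ∧ (M + (i + h)) ^ 3 ≤ y)) =
      Ico ((M + (i + h)) ^ 3) ((M + i) ^ 3 + H) := by
    ext y
    simp only [Finset.mem_filter, Finset.mem_Icc, Finset.mem_Ico]
    generalize (M + i) ^ 3 = p at *
    generalize (M + (i + h)) ^ 3 = q at *
    omega
  rw [e1, Nat.card_Ico]
  unfold wt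
  have : M + (i + h) = M + i + h := by ring
  rw [this]

private theorem reix (M M' : ℕ) (f : ℕ → ℂ) :
    ∑ m ∈ Ioc M M', f m = ∑ i ∈ Icc 1 (M' - M), f (M + i) := by
  symm
  refine Finset.sum_nbij' (fun i => M + i) (fun m => m - M) ?_ ?_ ?_ ?_ ?_
  · intro i hi; simp only [Finset.mem_Icc, Finset.mem_Ioc] at hi ⊢; omega
  · intro i hi; simp only [Finset.mem_Icc, Finset.mem_Ioc] at hi ⊢; omega
  · intro i hi; simp only [Finset.mem_Icc] at hi; omega
  · intro i hi; simp only [Finset.mem_Ioc] at hi; omega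
  · intro i hi; rfl

theorem wex (M M' L H : ℕ) (x : ℝ) (B : ℕ → ℝ) (hM : 1 ≤ M) (hL : M' ^ 3 ≤ L)
    (hB : ∀ h ∈ Icc 1 (H / (3 * M ^ 2)), ∀ n ≤ M' - M, ‖Dq M h n x‖ ≤ B h) :
    Wq M M' L H x ≤ H * ((M' - M : ℕ) : ℝ) + 2 * H * ∑ h ∈ Icc 1 (H / (3 * M ^ 2)), B h := by
  classical
  set N := M' - M with hN
  set f : ℕ → ℂ := fun i => e (((M + i : ℕ) : ℝ) ^ 3 * x) with hf
  let P : ℕ → ℕ → Prop := fun y i => y - H < (M + i) ^ 3 ∧ (M + i) ^ 3 ≤ y
  let G : ℕ → ℕ → ℝ := fun i j => (f j * (starRingEnd ℂ) (f i)).re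
  let c : ℕ → ℕ → ℕ := fun i j => ((Icc 1 (L + H)).filter (fun y => P y i ∧ P y j)).card
  have hG : ∀ i j, G i j = G j i := by
    intro i j
    show (f j * (starRingEnd ℂ) (f i)).re = (f i * (starRingEnd ℂ) (f j)).re
    rw [← Complex.conj_re (f i * (starRingEnd ℂ) (f j)), map_mul, Complex.conj_conj, mul_comm]
  have hc : ∀ i j, c i j = c j i := by
    intro i j
    show ((Icc 1 (L + H)).filter (fun y => P y i ∧ P y j)).card =
      ((Icc 1 (L + H)).filter (fun y => P y j ∧ P y i)).card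
    congr 1
    ext y
    simp only [Finset.mem_filter, and_comm (a := P y i)]
  have step1 : Wq M M' L H x = ∑ i ∈ Icc 1 N, ∑ j ∈ Icc 1 N, (c i j : ℝ) * G i j := by
    have h1 : Wq M M' L H x = ∑ y ∈ Icc 1 (L + H), ∑ i ∈ Icc 1 N, ∑ j ∈ Icc 1 N,
        if P y i ∧ P y j then G i j else 0 := by
      unfold Wq
      refine Finset.sum_congr rfl fun y _ => ?_
      have h2 : ∑ m ∈ (Ioc M M').filter (fun m => y - H < m ^ 3 ∧ m ^ 3 ≤ y),
          e ((m : ℝ) ^ 3 * x) = ∑ i ∈ (Icc 1 N).filter (fun i => P y i), f i := by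
        rw [Finset.sum_filter, reix, Finset.sum_filter]
      rw [h2, sq_sum, Finset.sum_filter]
      refine Finset.sum_congr rfl fun i _ => ?_
      rw [Finset.sum_filter]
      by_cases hi : P y i
      · rw [if_pos hi]
        refine Finset.sum_congr rfl fun j _ => ?_
        by_cases hj : P y j
        · rw [if_pos hj, if_pos ⟨hi, hj⟩]
        · rw [if_neg hj, if_neg (fun h => hj h.2)]
      · rw [if_neg hi]
        symm
        refine Finset.sum_eq_zero fun j _ => ?_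
        rw [if_neg (fun h => hi h.1)]
    rw [h1, Finset.sum_comm]
    refine Finset.sum_congr rfl fun i _ => ?_
    rw [Finset.sum_comm]
    refine Finset.sum_congr rfl fun j _ => ?_
    rw [← Finset.sum_filter, Finset.sum_const, nsmul_eq_mul]
  have step2 := sym_sum (fun i j => (c i j : ℝ) * G i j)
    (fun i j => by show (c i j : ℝ) * G i j = (c j i : ℝ) * G j i; rw [hG, hc]) N
  rw [step1, step2]
  have hLi : ∀ i ∈ Icc 1 N, (M + i) ^ 3 ≤ L := by
    intro i hi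
    rw [Finset.mem_Icc] at hi
    exact (Nat.pow_le_pow_left (by omega) 3).trans hL
  have hfn : ∀ i, f i * (starRingEnd ℂ) (f i) = 1 := by
    intro i
    rw [Complex.mul_conj']
    have : ‖f i‖ = 1 := by rw [hf]; exact norm_e _
    rw [this]; norm_num
  have hdiag : ∑ i ∈ Icc 1 N, (c i i : ℝ) * G i i = H * (N : ℝ) := by
    have : ∀ i ∈ Icc 1 N, (c i i : ℝ) * G i i = H := by
      intro i hi
      have hc1 : c i i = wt M H 0 i := by
        have := cnt M M' L H i 0 (Finset.mem_Icc.mp hi).1 (hLi i hi)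
        rw [add_zero] at this
        exact this
      have hw : wt M H 0 i = H := by unfold wt; rw [add_zero]; omega
      have hg : G i i = 1 := by
        show (f i * (starRingEnd ℂ) (f i)).re = 1
        rw [hfn]; rfl
      rw [hc1, hw, hg, mul_one]
    rw [Finset.sum_congr rfl this, Finset.sum_const, Nat.card_Icc, nsmul_eq_mul]
    simp [mul_comm]
  rw [hdiag]
  have hinner : ∀ h ∈ Icc 1 N, ∑ i ∈ Icc 1 (N - h), (c i (i + h) : ℝ) * G i (i + h) ≤
      if h ∈ Icc 1 (H / (3 * M ^ 2)) then (H : ℝ) * B h else 0 := by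
    intro h hh
    rw [Finset.mem_Icc] at hh
    have h1 : ∀ i ∈ Icc 1 (N - h), (c i (i + h) : ℝ) * G i (i + h) =
        (((wt M H h i : ℝ) : ℂ) *
          e (((M + (i + h) : ℕ) : ℝ) ^ 3 * x - ((M + i : ℕ) : ℝ) ^ 3 * x)).re := by
      intro i hi
      rw [Finset.mem_Icc] at hi
      have hc1 : c i (i + h) = wt M H h i :=
        cnt M M' L H i h hi.1 (hLi i (Finset.mem_Icc.mpr ⟨hi.1, by omega⟩))
      rw [hc1, Complex.re_ofReal_mul]
      congr 1
      show (f (i + h) * (starRingEnd ℂ) (f i)).re = _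
      rw [sub_eq_add_neg, e_add, e_neg]
    rw [Finset.sum_congr rfl h1, ← Complex.re_sum]
    by_cases hK : h ∈ Icc 1 (H / (3 * M ^ 2))
    · rw [if_pos hK]
      refine (Complex.re_le_norm _).trans ?_
      refine abel' (fun i => (wt M H h i : ℝ)) _ (B h) H (wt_anti M H h) (fun i => Nat.cast_nonneg _)
        (by exact_mod_cast wt_le M H h 0) (N - h) ?_
      intro k hk
      exact hB h hK k (by omega)
    · rw [if_neg hK]
      have hlt : H / (3 * M ^ 2) < h := by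
        by_contra hcon
        exact hK (Finset.mem_Icc.mpr ⟨hh.1, by omega⟩)
      have : ∑ i ∈ Icc 1 (N - h), ((wt M H h i : ℝ) : ℂ) *
          e (((M + (i + h) : ℕ) : ℝ) ^ 3 * x - ((M + i : ℕ) : ℝ) ^ 3 * x) = 0 := by
        refine Finset.sum_eq_zero fun i _ => ?_
        rw [wt_zero M H h i hM hlt]
        simp
      rw [this]
      simp
  have hsum : ∑ h ∈ Icc 1 N, ∑ i ∈ Icc 1 (N - h), (c i (i + h) : ℝ) * G i (i + h) ≤
      H * ∑ h ∈ Icc 1 (H / (3 * M ^ 2)), B h := by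
    refine (Finset.sum_le_sum hinner).trans ?_
    rw [← Finset.sum_filter, Finset.mul_sum]
    refine Finset.sum_le_sum_of_subset_of_nonneg ?_ ?_
    · intro h hh
      exact (Finset.mem_filter.mp hh).2
    · intro h hh _
      have : 0 ≤ B h := (norm_nonneg _).trans (hB h hh 0 (Nat.zero_le _))
      positivity
  have : (2 : ℝ) * H * ∑ h ∈ Icc 1 (H / (3 * M ^ 2)), B h =
      2 * (H * ∑ h ∈ Icc 1 (H / (3 * M ^ 2)), B h) := by ring
  rw [this]
  linarith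

end Pool.Agent.H12.HQ
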